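import Pool.Agent.H26.UN.Up

/-!
The uniform bounds in terms of the rate function.
-/

set_option autoImplicit false

open MeasureTheory Set Filter Topology Metric

namespace Pool.Agent.H26.UN

open Pool.Agent.Y981.L2 (par)
open Pool.Agent.H26.WF (rho RR)

theorem unif_up {ε : ℝ} (hε : 0 < ε) (hε1 : ε < 1) : ∃ C : ℝ, 0 < C ∧ ∀ n : ℕ, 2 ≤ n → ∀ u : ℝ,
    0 < u → u ≤ 1 / 4 → par n (u * (n : ℝ) ^ 2) ≤
      Real.exp (-(n * RR ((1 - ε) * u)) + C * Real.log n ^ 2) := by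
  obtain ⟨C, hC, h⟩ := up (ε := ε / 2) (by linarith) (by linarith)
  refine ⟨C, hC, ?_⟩
  intro n hn u hu hu4
  have hs := WF.sqrt_mem ⟨hu.le, hu4⟩
  have h1 := h n hn √u (Real.sqrt_pos.2 hu) hs.2
  have e1 : (√u * n) ^ 2 = u * (n : ℝ) ^ 2 := by rw [mul_pow, Real.sq_sqrt hu.le]
  rw [e1] at h1
  refine h1.trans (Real.exp_le_exp.2 ?_)
  have hr0 : 0 ≤ (1 - ε / 2) * √u := mul_nonneg (by linarith) hs.1
  have h2 : RR ((1 - ε) * u) ≤ rho ((1 - ε / 2) * √u) := by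
    rw [WF.rho_eq hr0]
    have e2 : ((1 - ε / 2) * √u) ^ 2 = (1 - ε / 2) ^ 2 * u := by rw [mul_pow, Real.sq_sqrt hu.le]
    rw [e2]
    have a1 : (1 - ε) * u ≤ (1 - ε / 2) ^ 2 * u := by
      apply mul_le_mul_of_nonneg_right _ hu.le
      have := sq_nonneg (ε / 2)
      have e : (1 - ε / 2) ^ 2 = 1 - ε + (ε / 2) ^ 2 := by ring
      linarith
    have a2 : (1 - ε / 2) ^ 2 * u ≤ 1 * u := by
      apply mul_le_mul_of_nonneg_right _ hu.le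
      exact pow_le_one₀ (by linarith) (by linarith)
    apply WF.RR_strict.monotoneOn _ _ a1
    · exact ⟨mul_nonneg (by linarith) hu.le, by linarith⟩
    · exact ⟨mul_nonneg (sq_nonneg _) hu.le, by linarith⟩
  have h3 := mul_le_mul_of_nonneg_left h2 (Nat.cast_nonneg (α := ℝ) n)
  linarith

theorem unif_low {ε : ℝ} (hε : 0 < ε) (hε1 : ε < 1) : ∃ (C : ℝ) (n₀ : ℕ), 0 < C ∧ 2 ≤ n₀ ∧
    ∀ n : ℕ, n₀ ≤ n → ∀ u : ℝ, 0 < u → (1 + ε) * u < 1 / 4 →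
    Real.exp (-(n * RR ((1 + ε) * u)) - C * Real.log n ^ 2) ≤ par n (u * (n : ℝ) ^ 2) := by
  obtain ⟨C, n₀, hC, hn₀, h⟩ := low (ε := ε / 3) (by linarith) (by linarith)
  refine ⟨C, n₀, hC, hn₀, ?_⟩
  intro n hn u hu hu4
  have hsq : (1 + ε / 3) ^ 2 ≤ 1 + ε := by
    have e : (1 + ε / 3) ^ 2 = 1 + 2 / 3 * ε + ε * ε / 9 := by ring
    have : ε * ε ≤ ε * 1 := mul_le_mul_of_nonneg_left hε1.le hε.le
    linarith
  have hsu : 0 < √u := Real.sqrt_pos.2 hu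
  have hr0 : 0 ≤ (1 + ε / 3) * √u := by positivity
  have e2 : ((1 + ε / 3) * √u) ^ 2 = (1 + ε / 3) ^ 2 * u := by rw [mul_pow, Real.sq_sqrt hu.le]
  have a1 : (1 + ε / 3) ^ 2 * u ≤ (1 + ε) * u := mul_le_mul_of_nonneg_right hsq hu.le
  have hr1 : (1 + ε / 3) * √u < 1 / 2 := by
    have h2 : ((1 + ε / 3) * √u) ^ 2 < (1 / 2) ^ 2 := by
      rw [e2]
      norm_num
      linarith
    exact lt_of_pow_lt_pow_left₀ 2 (by norm_num) h2
  obtain ⟨p1, p2⟩ := h n hn √u hsu hr1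
  have e1 : (√u * n) ^ 2 = u * (n : ℝ) ^ 2 := by rw [mul_pow, Real.sq_sqrt hu.le]
  rw [e1] at p1 p2
  rw [← Real.le_log_iff_exp_le p1]
  refine le_trans ?_ p2
  have h2 : rho ((1 + ε / 3) * √u) ≤ RR ((1 + ε) * u) := by
    rw [WF.rho_eq hr0, e2]
    apply WF.RR_strict.monotoneOn _ _ a1
    · exact ⟨mul_nonneg (sq_nonneg _) hu.le, by linarith⟩
    · exact ⟨mul_nonneg (by linarith) hu.le, by linarith⟩
  have h3 := mul_le_mul_of_nonneg_left h2 (Nat.cast_nonneg (α := ℝ) n)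
  linarith

end Pool.Agent.H26.UN
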