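import Pool.Agent.H26.UN.Stb

/-!
The shape of the polygons given a large area, uniformly.
-/

set_option autoImplicit false

open MeasureTheory Set Filter Topology Metric
open scoped ENNReal Pointwise

namespace Pool.Agent.H26.UN

open Pool.Agent.T6.H44 Pool.Agent.T6.H44.PG
open Pool.Agent.T6.H44.AR (det Refl Swp sup)
open Pool.Agent.Y981.L2 H981 Pool.Agent.H26.WS
open Pool.Agent.H26.WF (Kc V g rho pr RR)

theorem half_exp {L : ℝ} (hL : 0.4 ≤ L) : Real.exp (-(2 * L)) ≤ 1 / 2 := by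
  have h2 : (1 / 2 : ℝ) = Real.exp (-Real.log 2) := by
    rw [Real.exp_neg, Real.exp_log (by norm_num)]
    norm_num
  rw [h2]
  apply Real.exp_le_exp.2
  have := Real.log_two_lt_d9
  linarith

theorem ar5 {A C1 C2 C e L : ℝ} (hL : 0.4 ≤ L) (he : 0 < e) (hCe : e * C = C1 + C2 + 3)
    (hC : C1 + 2 ≤ C) (hA : C * L ≤ A) :
    Real.exp (-A - C * L) ≤ Real.exp (-A - C1 * L) - Real.exp (-((1 + e) * A) + C2 * L) := by
  have hh := half_exp hL
  have h1 : Real.exp (-A - C * L) ≤ Real.exp (-A - C1 * L) * Real.exp (-(2 * L)) := by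
    rw [← Real.exp_add]
    apply Real.exp_le_exp.2
    have := mul_le_mul_of_nonneg_right hC (show 0 ≤ L by linarith)
    linarith
  have h2 : Real.exp (-((1 + e) * A) + C2 * L) ≤
      Real.exp (-A - C1 * L) * Real.exp (-(2 * L)) := by
    rw [← Real.exp_add]
    apply Real.exp_le_exp.2
    have h3 := mul_le_mul_of_nonneg_left hA he.le
    have h4 : e * (C * L) = (C1 + C2 + 3) * L := by rw [← hCe]; ring
    linarith
  have h5 := mul_le_mul_of_nonneg_left hh (Real.exp_pos (-A - C1 * L)).le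
  linarith

/-- **the probability of an interval from below, uniformly** -/
theorem low_int {e q r₁ : ℝ} (he : 0 < e) (he1 : e < 1) (hq : (1 + e) ^ 3 ≤ (1 - e) * q)
    (hr₁ : q * r₁ ≤ 1 / 2) (hr₂ : (1 + e) ^ 2 * r₁ < 1 / 2) :
    ∃ (C : ℝ) (n₀ : ℕ), 0 < C ∧ 2 ≤ n₀ ∧ ∀ n : ℕ, n₀ ≤ n → ∀ r : ℝ, 0 < r → r ≤ r₁ →
      C * Real.log n ^ 2 ≤ n * rho r → ∀ S : Set ℝ, Ioo ((r * n) ^ 2) ((q * r * n) ^ 2) ⊆ S →
      Real.exp (-(n * rho ((1 + e) ^ 2 * r)) - C * Real.log n ^ 2) ≤ pr n S := by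
  obtain ⟨C1, n₀, hC1, hn₀, hlow⟩ := low he he1.le
  obtain ⟨C2, hC2, hup⟩ := up he he1
  obtain ⟨C, hC⟩ : ∃ C, C = (C1 + C2 + 3) / e := ⟨_, rfl⟩
  have hCe : e * C = C1 + C2 + 3 := by
    rw [hC]
    field_simp
  have hCC : C1 + 2 ≤ C := by
    rw [hC, le_div_iff₀ he]
    have : (C1 + 2) * e ≤ (C1 + 2) * 1 := mul_le_mul_of_nonneg_left he1.le (by linarith)
    linarith
  refine ⟨C, n₀, by linarith, hn₀, ?_⟩
  intro n hn r hr hr1 hbig S hS
  have hn2 : 2 ≤ n := hn₀.trans hn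
  have hn0 : (0 : ℝ) < n := by exact_mod_cast (by omega : 0 < n)
  have hL4 := log_sq_ge hn2
  obtain ⟨L, hL⟩ : ∃ L, L = Real.log n ^ 2 := ⟨_, rfl⟩
  rw [← hL] at hL4 hbig ⊢
  obtain ⟨x, hx⟩ : ∃ x, x = (1 + e) ^ 2 * r := ⟨_, rfl⟩
  have h1e : 1 ≤ (1 + e) ^ 2 := one_le_pow₀ (by linarith)
  have hrx : r ≤ x := by
    rw [hx]
    exact le_mul_of_one_le_left hr.le h1e
  have hx0 : 0 < x := lt_of_lt_of_le hr hrx
  have hx1 : x < 1 / 2 := by
    rw [hx]
    exact lt_of_le_of_lt (mul_le_mul_of_nonneg_left hr1 (by positivity)) hr₂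
  rw [← hx]
  -- lower bound
  have hlow' := hlow n hn ((1 + e) * r) (by positivity) (by
    have : (1 + e) * ((1 + e) * r) = x := by rw [hx]; ring
    rw [this]
    exact hx1)
  obtain ⟨p1, p2⟩ := hlow'
  have e1 : (1 + e) * ((1 + e) * r) = x := by rw [hx]; ring
  rw [e1, ← hL, Real.le_log_iff_exp_le p1] at p2
  -- upper bound
  have hq0 : 0 < q := by
    by_contra hcon
    push Not at hcon
    have h2 : (1 - e) * q ≤ 0 := mul_nonpos_of_nonneg_of_nonpos (by linarith) hcon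
    have h3 : 0 < (1 + e) ^ 3 := by positivity
    linarith
  have hqr : q * r ≤ 1 / 2 := (mul_le_mul_of_nonneg_left hr1 hq0.le).trans hr₁
  have hup' := hup n hn2 (q * r) (by positivity) hqr
  rw [← hL] at hup'
  obtain ⟨y, hy⟩ : ∃ y, y = (1 - e) * (q * r) := ⟨_, rfl⟩
  rw [← hy] at hup'
  have hxy : (1 + e) * x ≤ y := by
    have := mul_le_mul_of_nonneg_right hq hr.le
    rw [hx, hy]
    have e2 : (1 + e) * ((1 + e) ^ 2 * r) = (1 + e) ^ 3 * r := by ring
    have e3 : (1 - e) * (q * r) = (1 - e) * q * r := by ring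
    rw [e2, e3]
    exact this
  have hxy' : x ≤ y := by
    have := mul_pos he hx0
    linarith
  have hy0 : 0 < y := lt_of_lt_of_le hx0 hxy'
  have hy1 : y ≤ 1 / 2 := by
    rw [hy]
    have : (1 - e) * (q * r) ≤ 1 * (q * r) := mul_le_mul_of_nonneg_right (by linarith) (by positivity)
    linarith
  have hrho : (1 + e) * rho x ≤ rho y := by
    have h3 := WF.rho_scale hx0.le hxy' hy1 hy0
    have h4 : (1 + e) * (x / y) ≤ 1 := by
      rw [← mul_div_assoc, div_le_one hy0]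
      exact hxy
    have h5 := WF.rho_nonneg hy0.le hy1
    calc (1 + e) * rho x ≤ (1 + e) * (x / y * rho y) := mul_le_mul_of_nonneg_left h3 (by linarith)
      _ = (1 + e) * (x / y) * rho y := by ring
      _ ≤ 1 * rho y := mul_le_mul_of_nonneg_right h4 h5
      _ = rho y := one_mul _
  have hrx' : rho r ≤ rho x := WF.rho_strict.monotoneOn ⟨hr.le, by linarith⟩
    ⟨hx0.le, hx1.le⟩ hrx
  obtain ⟨A, hA⟩ : ∃ A, A = n * rho x := ⟨_, rfl⟩
  have hA1 : C * L ≤ A := by
    rw [hA]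
    exact hbig.trans (mul_le_mul_of_nonneg_left hrx' hn0.le)
  have hA2 : (1 + e) * A ≤ n * rho y := by
    rw [hA]
    have := mul_le_mul_of_nonneg_left hrho hn0.le
    linarith
  rw [← hA] at p2 ⊢
  have h6 : par n ((q * r * n) ^ 2) ≤ Real.exp (-((1 + e) * A) + C2 * L) := by
    refine hup'.trans (Real.exp_le_exp.2 ?_)
    linarith
  have h7 := ar5 hL4 he hCe hCC hA1
  -- the sets
  have h8 : par n (((1 + e) * r * n) ^ 2) ≤ pr n S + par n ((q * r * n) ^ 2) := by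
    rw [← WF.pr_Ici, ← WF.pr_Ici]
    refine le_trans (WF.pr_mono (by omega) ?_) (WF.pr_union (by omega) _ _)
    intro z hz
    rcases lt_or_ge z ((q * r * n) ^ 2) with h9 | h9
    · left
      apply hS
      refine ⟨lt_of_lt_of_le ?_ hz, h9⟩
      apply pow_lt_pow_left₀ _ (by positivity) (by norm_num)
      have : r * n < (1 + e) * r * n := by
        have h10 : 0 < e * (r * n) := by positivity
        have e5 : (1 + e) * r * n = r * n + e * (r * n) := by ring
        rw [e5]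
        linarith
      exact this
    · right
      exact h9
  linarith

/-- rare polygons in terms of the number of all polygons -/
theorem bad_ln {δ : ℝ} (hδ : 0 < δ) : ∃ η C : ℝ, 0 < η ∧ η ≤ 1 ∧ 0 < C ∧ ∀ E : ℝ, 0 < E →
    ∀ n : ℕ, 2 ≤ n → ∀ s : ℝ, C ≤ s → C * Real.log n ^ 2 ≤ s * g E →
    ({f : ZMod (2 * n) → ℤ × ℤ | IsLoop (2 * n) f ∧ s ^ 2 ≤ (area (2 * n) f : ℝ) ∧
      FarU n s E δ f}.ncard : ℝ) ≤
      Real.exp (C * Real.log n ^ 2 - (2 + η) * (s * g E) + 2 * n * E) * ln n := by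
  obtain ⟨η, C1, hη, hη1, hC1, hbad⟩ := bad_sk hδ
  obtain ⟨K2, hK2, hln⟩ := T6.H53.AL.le_ln
  refine ⟨η, C1 + K2, hη, hη1, by positivity, ?_⟩
  intro E hE n hn s hs hsg
  have hL0 : 0 ≤ Real.log (n : ℝ) ^ 2 := by positivity
  have h1 : C1 * Real.log n ^ 2 ≤ (C1 + K2) * Real.log n ^ 2 :=
    mul_le_mul_of_nonneg_right (by linarith) hL0
  refine (hbad E hE n hn s (by linarith) (h1.trans hsg)).trans ?_
  have h2 := mul_le_mul_of_nonneg_left (hln n hn)
    (Real.exp_pos ((C1 + K2) * Real.log n ^ 2 - (2 + η) * (s * g E) + 2 * n * E)).le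
  refine le_trans (le_of_eq ?_) h2
  have e1 : Real.exp ((C1 + K2) * Real.log n ^ 2 - (2 + η) * (s * g E) + 2 * n * E) =
      Real.exp (C1 * Real.log n ^ 2 - (2 + η) * (s * g E) + 2 * n * E) *
        Real.exp (K2 * Real.log n ^ 2) := by
    rw [← Real.exp_add]
    congr 1
    ring
  have e2 : Real.exp (K2 * Real.log n ^ 2) * Real.exp (-(K2 * Real.log n ^ 2)) = 1 := by
    rw [← Real.exp_add, add_neg_cancel, Real.exp_zero]
  rw [e1]
  calc Real.exp (C1 * Real.log n ^ 2 - (2 + η) * (s * g E) + 2 * n * E) * mu ^ (2 * n) =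
      Real.exp (C1 * Real.log n ^ 2 - (2 + η) * (s * g E) + 2 * n * E) *
        (Real.exp (K2 * Real.log n ^ 2) * Real.exp (-(K2 * Real.log n ^ 2))) * mu ^ (2 * n) := by
        rw [e2, mul_one]
    _ = _ := by ring

theorem ev_log (a B : ℝ) (ha : 0 < a) : ∀ᶠ n : ℕ in atTop, B * Real.log n ^ 2 + 2 ≤ a * n := by
  have h1 : Tendsto (fun x : ℝ => Real.log x ^ 2 / x) atTop (𝓝 0) :=
    (Real.isLittleO_pow_log_id_atTop (n := 2)).tendsto_div_nhds_zero
  have h2 : Tendsto (fun n : ℕ => B * (Real.log (n : ℝ) ^ 2 / n) + 2 / (n : ℝ)) atTop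
      (𝓝 (B * 0 + 0)) :=
    ((h1.comp tendsto_natCast_atTop_atTop).const_mul B).add
      (tendsto_const_nhds.div_atTop tendsto_natCast_atTop_atTop)
  rw [mul_zero, add_zero] at h2
  filter_upwards [h2.eventually_lt_const ha, eventually_gt_atTop 0] with n h3 h4
  have hn : (0 : ℝ) < n := by exact_mod_cast h4
  have h5 := mul_lt_mul_of_pos_right h3 hn
  have h6 : (B * (Real.log (n : ℝ) ^ 2 / n) + 2 / (n : ℝ)) * n = B * Real.log n ^ 2 + 2 := by
    field_simp
  rw [h6] at h5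
  exact h5.le

/-- **continuity of the shape** -/
theorem w_cont {δ : ℝ} (hδ : 0 < δ) : ∃ e₀ : ℝ, 0 < e₀ ∧ ∀ r : ℝ, 0 < r → ∀ e : ℝ, 0 ≤ e →
    e ≤ e₀ → (1 + e) * r < 1 / 2 → ∀ E E' : ℝ, 0 < E → 0 < E' → rho r = 2 * (r * g E) - 2 * E →
    rho ((1 + e) * r) = 2 * ((1 + e) * r * g E') - 2 * E' →
    ∃ w, hausdorffDist (UE E') ((fun x => x + w) '' UE E) < 2 * δ := by
  obtain ⟨η, C, hη, hη1, hC, hbad⟩ := bad_ln hδ
  refine ⟨η / 4, by linarith, ?_⟩
  intro r hr e he he0 her E E' hE hE' hrE hrE'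
  have hr1 : r < 1 / 2 := by
    have : 0 ≤ e * r := by positivity
    linarith
  have hg := g_pos hE
  have hg' := g_pos hE'
  obtain ⟨a, ha⟩ : ∃ a, a = min (r * g E) (r * g E') := ⟨_, rfl⟩
  have ha0 : 0 < a := by rw [ha]; exact lt_min (by positivity) (by positivity)
  have ha1 : a ≤ r * g E := by rw [ha]; exact min_le_left _ _
  have ha2 : a ≤ r * g E' := by rw [ha]; exact min_le_right _ _
  have hu : 0 < r ^ 2 := by positivity
  have hu4 : r ^ 2 < 1 / 4 := by
    have := pow_lt_pow_left₀ hr1 hr.le (two_ne_zero)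
    norm_num at this ⊢
    exact this
  have hRR : RR (r ^ 2) = rho r := (WF.rho_eq hr.le).symm
  have hS1 : ∀ n : ℕ, Ioo (r ^ 2 * (n : ℝ) ^ 2) ((r ^ 2 + 1) * (n : ℝ) ^ 2) ⊆
      Ici (r ^ 2 * (n : ℝ) ^ 2) := fun n x hx => hx.1.le
  have hev := WF.interval_low hu.le hu4 (show r ^ 2 < r ^ 2 + 1 by linarith) hS1
    (ε := η * a / 4) (by positivity)
  rw [hRR] at hev
  obtain ⟨n, h1, h2, h3, h4, h5⟩ := (hev.and ((ev_log (η * a / 4) C (by positivity)).and
    ((ev_log a C ha0).and ((tendsto_natCast_atTop_atTop.eventually_ge_atTop (C / r)).and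
      (eventually_ge_atTop 2))))).exists
  have hn0 : (0 : ℝ) < n := by exact_mod_cast (by omega : 0 < n)
  have : NeZero (2 * n) := ⟨by omega⟩
  obtain ⟨L, hL⟩ : ∃ L, L = Real.log n ^ 2 := ⟨_, rfl⟩
  have hln : (0 : ℝ) < ln n := by
    obtain ⟨K, -, h⟩ := Y981.L2.ln_le
    exact (h n h5).1
  rw [← hL] at h2 h3
  have hs : C ≤ r * n := by
    rw [div_le_iff₀ hr] at h4
    linarith
  have hgE : C * L ≤ r * n * g E := by
    have := mul_le_mul_of_nonneg_right ha1 hn0.le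
    linarith
  have hgE' : C * L ≤ r * n * g E' := by
    have := mul_le_mul_of_nonneg_right ha2 hn0.le
    linarith
  have b1 := hbad E hE n h5 (r * n) hs (by rw [← hL]; exact hgE)
  have b2 := hbad E' hE' n h5 (r * n) hs (by rw [← hL]; exact hgE')
  rw [← hL] at b1 b2
  obtain ⟨X, hX⟩ : ∃ X : Set (ZMod (2 * n) → ℤ × ℤ), X = {f | IsLoop (2 * n) f ∧
    (area (2 * n) f : ℝ) ∈ Ici (r ^ 2 * (n : ℝ) ^ 2)} := ⟨_, rfl⟩
  obtain ⟨B1, hB1⟩ : ∃ B : Set (ZMod (2 * n) → ℤ × ℤ), B = {f | IsLoop (2 * n) f ∧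
    (r * n) ^ 2 ≤ (area (2 * n) f : ℝ) ∧ FarU n (r * n) E δ f} := ⟨_, rfl⟩
  obtain ⟨B2, hB2⟩ : ∃ B : Set (ZMod (2 * n) → ℤ × ℤ), B = {f | IsLoop (2 * n) f ∧
    (r * n) ^ 2 ≤ (area (2 * n) f : ℝ) ∧ FarU n (r * n) E' δ f} := ⟨_, rfl⟩
  rw [← hB1] at b1
  rw [← hB2] at b2
  have hpr : pr n (Ici (r ^ 2 * (n : ℝ) ^ 2)) = (X.ncard : ℝ) / ln n := by
    rw [hX]
    rfl
  rw [hpr, le_div_iff₀ hln] at h1
  have key : ∀ Y : ℝ, Y ≤ -((rho r + η * a / 4) * n) - 2 →
      Real.exp Y * ln n ≤ 1 / 4 * X.ncard := by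
    intro Y hY
    have h6 : Real.exp Y ≤ 1 / 4 * Real.exp (-((rho r + η * a / 4) * n)) := by
      have h7 : Real.exp Y ≤ Real.exp (-((rho r + η * a / 4) * n)) * Real.exp (-2) := by
        rw [← Real.exp_add]
        exact Real.exp_le_exp.2 (by linarith)
      have h8 : Real.exp (-2) ≤ 1 / 4 := by
        have h9 := half_exp (L := 0.5) (by norm_num)
        have h10 : Real.exp (-2) = Real.exp (-(2 * 0.5)) * Real.exp (-(2 * 0.5)) := by
          rw [← Real.exp_add]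
          norm_num
        rw [h10]
        have h11 := mul_le_mul h9 h9 (Real.exp_pos _).le (by norm_num)
        norm_num at h11 ⊢
        exact h11
      have h9 := mul_le_mul_of_nonneg_left h8 (Real.exp_pos (-((rho r + η * a / 4) * n))).le
      linarith
    have h7 := mul_le_mul_of_nonneg_right h6 hln.le
    linarith
  have c1 : (B1.ncard : ℝ) ≤ 1 / 4 * X.ncard := by
    refine b1.trans (key _ ?_)
    have e1 : (2 + η) * (r * n * g E) = n * (2 * (r * g E)) + η * (r * g E) * n := by ring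
    have e2 : 2 * n * E = n * (2 * (r * g E)) - rho r * n := by
      rw [hrE]
      ring
    rw [e1, e2]
    have e3 : η * a * n ≤ η * (r * g E) * n :=
      mul_le_mul_of_nonneg_right (mul_le_mul_of_nonneg_left ha1 hη.le) hn0.le
    have e4 : 0 ≤ η * a * n := by positivity
    linarith
  have c2 : (B2.ncard : ℝ) ≤ 1 / 4 * X.ncard := by
    refine b2.trans (key _ ?_)
    have e1 : (2 + η) * (r * n * g E') = n * (2 * (r * g E')) + η * (r * g E') * n := by ring
    have e2 : 2 * n * E' = n * (2 * (r * g E')) + 2 * e * (r * g E') * n -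
        rho ((1 + e) * r) * n := by
      rw [hrE']
      ring
    have e5 : rho r ≤ rho ((1 + e) * r) := by
      apply WF.rho_strict.monotoneOn ⟨hr.le, hr1.le⟩ ⟨by positivity, her.le⟩
      have : 0 ≤ e * r := by positivity
      linarith
    rw [e1, e2]
    have e3 : η / 2 * a * n ≤ η / 2 * (r * g E') * n :=
      mul_le_mul_of_nonneg_right (mul_le_mul_of_nonneg_left ha2 (by linarith)) hn0.le
    have e6 : 2 * e * (r * g E') * n ≤ η / 2 * (r * g E') * n := by
      apply mul_le_mul_of_nonneg_right _ hn0.le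
      exact mul_le_mul_of_nonneg_right (by linarith) (by positivity)
    have e7 := mul_le_mul_of_nonneg_right e5 hn0.le
    linarith
  have hXf : (0 : ℝ) < X.ncard := by
    have := mul_pos (Real.exp_pos (-((rho r + η * a / 4) * n))) hln
    linarith
  have hlt : ((B1 ∪ B2).ncard : ℝ) < X.ncard := by
    have h6 : ((B1 ∪ B2).ncard : ℝ) ≤ B1.ncard + B2.ncard := by
      exact_mod_cast Set.ncard_union_le B1 B2
    linarith
  have hlt' : (B1 ∪ B2).ncard < X.ncard := by exact_mod_cast hlt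
  have hfin : (B1 ∪ B2).Finite := by
    refine (loops_finite (by omega : 1 ≤ n)).subset ?_
    rintro f (hf | hf)
    · rw [hB1] at hf
      exact hf.1
    · rw [hB2] at hf
      exact hf.1
  obtain ⟨f, hfX, hfB⟩ := Set.exists_mem_notMem_of_ncard_lt_ncard hlt' hfin
  rw [hX] at hfX
  have hA : (r * n) ^ 2 ≤ (area (2 * n) f : ℝ) := by
    rw [mul_pow]
    exact hfX.2
  have g1 : ¬FarU n (r * n) E δ f := fun hcon => hfB (Or.inl (by rw [hB1]; exact ⟨hfX.1, hA, hcon⟩))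
  have g2 : ¬FarU n (r * n) E' δ f := fun hcon => hfB (Or.inr (by rw [hB2]; exact ⟨hfX.1, hA, hcon⟩))
  unfold FarU at g1 g2
  push Not at g1 g2
  obtain ⟨w, hw⟩ := g1
  obtain ⟨w', hw'⟩ := g2
  have hcE := UE_cl hE
  have hcE' := UE_cl hE'
  have hUn : (UE E).Nonempty := ⟨0, hcE.2.2.2.2.1 (mem_closedBall_self (by norm_num))⟩
  have hUn' : (UE E').Nonempty := ⟨0, hcE'.2.2.2.2.1 (mem_closedBall_self (by norm_num))⟩
  have hCc := hull_compact (r * n : ℝ) f
  have hCn : (convexHull ℝ (pts (r * n : ℝ) f)).Nonempty := ⟨_, subset_convexHull ℝ _ ⟨0, rfl⟩⟩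
  have hT := trans_compact hcE.2.1 w
  have hT' := trans_compact hcE'.2.1 w'
  refine ⟨w - w', ?_⟩
  have e1 : hausdorffDist (UE E') ((fun x => x + (w - w')) '' UE E) =
      hausdorffDist ((fun x => x + w') '' UE E') ((fun x => x + w) '' UE E) := by
    have h6 : (fun x => x + w) '' UE E = (fun x => x + w') '' ((fun x => x + (w - w')) '' UE E) := by
      rw [image_image]
      congr 1
      funext x
      abel
    rw [h6]
    exact (hausdorffDist_image (isometry_add_right w')).symm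
  rw [e1]
  have h6 : hausdorffDist ((fun x => x + w') '' UE E') ((fun x => x + w) '' UE E) ≤
      hausdorffDist ((fun x => x + w') '' UE E') (convexHull ℝ (pts (r * n : ℝ) f)) +
        hausdorffDist (convexHull ℝ (pts (r * n : ℝ) f)) ((fun x => x + w) '' UE E) := by
    apply hausdorffDist_triangle
    exact hausdorffEDist_ne_top_of_nonempty_of_bounded (hUn'.image _) hCn
      hT'.isBounded hCc.isBounded
  rw [hausdorffDist_comm (s := (fun x => x + w') '' UE E')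
    (t := convexHull ℝ (pts (r * n : ℝ) f))] at h6
  linarith

end Pool.Agent.H26.UN
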