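import Pool.Agent.H26.UN.Cnd

/-!
The shape of the polygons given a large area, uniformly: the conditional law.
-/

set_option autoImplicit false

open MeasureTheory Set Filter Topology Metric
open scoped ENNReal Pointwise

namespace Pool.Agent.H26.UN

open Pool.Agent.T6.H44 Pool.Agent.T6.H44.PG
open Pool.Agent.T6.H44.AR (det Refl Swp sup)
open Pool.Agent.Y981.L2 H981 Pool.Agent.H26.WS
open Pool.Agent.H26.WF (Kc V g rho pr RR)

theorem UE_ne {E : ℝ} (hE : 0 < E) : (UE E).Nonempty :=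
  ⟨0, (UE_cl hE).2.2.2.2.1 (mem_closedBall_self (by norm_num))⟩

theorem far_trans {n : ℕ} (hn : 1 ≤ n) {s E E' δ1 δ2 δ : ℝ} {f : ZMod (2 * n) → ℤ × ℤ}
    (hE : 0 < E) (hE' : 0 < E') {w0 : ℝ × ℝ}
    (h : hausdorffDist (UE E') ((fun x => x + w0) '' UE E) < δ2) (hδ : δ1 + δ2 ≤ δ)
    (hf : FarU n s E δ f) : FarU n s E' δ1 f := by
  have : NeZero (2 * n) := ⟨by omega⟩
  intro w
  by_contra hcon
  push Not at hcon
  have hCc := hull_compact s f
  have hCn : (convexHull ℝ (pts s f)).Nonempty := ⟨_, subset_convexHull ℝ _ ⟨0, rfl⟩⟩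
  have hT := trans_compact (UE_cl hE).2.1 (w0 + w)
  have hT' := trans_compact (UE_cl hE').2.1 w
  have e1 : hausdorffDist ((fun x => x + w) '' UE E') ((fun x => x + (w0 + w)) '' UE E) =
      hausdorffDist (UE E') ((fun x => x + w0) '' UE E) := by
    have h6 : (fun x => x + (w0 + w)) '' UE E = (fun x => x + w) '' ((fun x => x + w0) '' UE E) := by
      rw [image_image]
      congr 1
      funext x
      abel
    rw [h6]
    exact hausdorffDist_image (isometry_add_right w)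
  have h6 : hausdorffDist (convexHull ℝ (pts s f)) ((fun x => x + (w0 + w)) '' UE E) ≤
      hausdorffDist (convexHull ℝ (pts s f)) ((fun x => x + w) '' UE E') +
        hausdorffDist ((fun x => x + w) '' UE E') ((fun x => x + (w0 + w)) '' UE E) := by
    apply hausdorffDist_triangle
    exact hausdorffEDist_ne_top_of_nonempty_of_bounded hCn ((UE_ne hE').image _)
      hCc.isBounded hT'.isBounded
  rw [e1] at h6
  have h7 := hf (w0 + w)
  linarith

theorem ar6 {e k : ℝ} (he0 : 0 < e) (he : e ≤ k / 8) (hk : k ≤ 1) :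
    (1 + e) ^ 3 ≤ (1 - e) * (1 + k) := by
  have h1 : e ≤ 1 / 8 := by linarith
  have h2 : e * e ≤ 1 / 8 * e := mul_le_mul_of_nonneg_right h1 he0.le
  have h3 : e * (e * e) ≤ e * (1 / 8 * e) := mul_le_mul_of_nonneg_left h2 he0.le
  have h4 : e * k ≤ e * 1 := mul_le_mul_of_nonneg_left hk he0.le
  have e1 : (1 + e) ^ 3 = 1 + 3 * e + 3 * (e * e) + e * (e * e) := by ring
  rw [e1]
  have e2 : (1 - e) * (1 + k) = 1 + k - e - e * k := by ring
  rw [e2]
  linarith

theorem ar7 {C1 C2 C L X A Ax nE η e' : ℝ} (hX : A / 4 ≤ X) (hA : C * L ≤ A)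
    (hη : 0 < η) (he' : e' ≤ η / 4) (hC : 16 * (C1 + C2) / η ≤ C) (hL : 0 ≤ L)
    (hn : 2 * nE = 2 * ((1 + e') * X) - Ax) (hX0 : 0 ≤ X) :
    C1 * L - (2 + η) * X + 2 * nE ≤ -(η / 16 * A) + (-Ax - C2 * L) := by
  have h1 : (C1 + C2) * L ≤ η / 16 * A := by
    have h2 := mul_le_mul_of_nonneg_right hC hL
    have h3 := mul_le_mul_of_nonneg_left (h2.trans hA) (show 0 ≤ η / 16 by linarith)
    have h4 : η / 16 * (16 * (C1 + C2) / η * L) = (C1 + C2) * L := by field_simp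
    linarith
  have h2 : η / 8 * A ≤ η / 2 * X := by
    have := mul_le_mul_of_nonneg_left hX (show 0 ≤ η / 2 by linarith)
    linarith
  have h3 : 2 * (e' * X) ≤ η / 2 * X := by
    have := mul_le_mul_of_nonneg_right he' hX0
    linarith
  rw [hn]
  linarith

/-- **the conditional law of the convex hull, uniformly** -/
theorem shape_u {δ κ r₁ : ℝ} (hδ : 0 < δ) (hκ : 0 < κ) (hr₁ : r₁ < 1 / 2) :
    ∃ (c C : ℝ) (n₀ : ℕ), 0 < c ∧ 0 < C ∧ 2 ≤ n₀ ∧ ∀ n : ℕ, n₀ ≤ n → ∀ r : ℝ, 0 < r → r ≤ r₁ →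
      C * Real.log n ^ 2 ≤ n * rho r → ∀ E : ℝ, 0 < E → rho r = 2 * (r * g E) - 2 * E →
      ∀ S : Set ℝ, Ioo ((r * n) ^ 2) ((1 + κ) * (r * n) ^ 2) ⊆ S → S ⊆ Ici ((r * n) ^ 2) →
      0 < pr n S ∧ 0 < (ln n : ℝ) ∧
      ({f : ZMod (2 * n) → ℤ × ℤ | IsLoop (2 * n) f ∧ (area (2 * n) f : ℝ) ∈ S ∧
        FarU n (r * n) E δ f}.ncard : ℝ) ≤ Real.exp (-(c * (n * rho r))) * (pr n S * ln n) := by
  obtain ⟨e₀, he₀, hcont⟩ := w_cont (show 0 < δ / 3 by linarith)
  obtain ⟨η, C1, hη, hη1, hC1, hbad⟩ := bad_ln (show 0 < δ / 3 by linarith)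
  obtain ⟨k, hk⟩ : ∃ k, k = min (κ / 3) (min 1 (1 - 2 * r₁)) := ⟨_, rfl⟩
  have hk0 : 0 < k := by rw [hk]; exact lt_min (by linarith) (lt_min one_pos (by linarith))
  have hk1 : k ≤ κ / 3 := by rw [hk]; exact min_le_left _ _
  have hk2 : k ≤ 1 := by rw [hk]; exact (min_le_right _ _).trans (min_le_left _ _)
  have hk3 : k ≤ 1 - 2 * r₁ := by rw [hk]; exact (min_le_right _ _).trans (min_le_right _ _)
  obtain ⟨e, he⟩ : ∃ e, e = min (k / 8) (min (e₀ / 3) (η / 12)) := ⟨_, rfl⟩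
  have he0 : 0 < e := by
    rw [he]
    exact lt_min (by linarith) (lt_min (by linarith) (by linarith))
  have he1 : e ≤ k / 8 := by rw [he]; exact min_le_left _ _
  have he2 : e ≤ e₀ / 3 := by rw [he]; exact (min_le_right _ _).trans (min_le_left _ _)
  have he3 : e ≤ η / 12 := by rw [he]; exact (min_le_right _ _).trans (min_le_right _ _)
  have hkr : k * r₁ ≤ 1 / 2 - r₁ := by
    rcases le_or_gt 0 r₁ with h | h
    · have h1 := mul_le_mul_of_nonneg_left hr₁.le hk0.le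
      linarith
    · have h1 : k * r₁ ≤ 0 := mul_nonpos_of_nonneg_of_nonpos hk0.le h.le
      linarith
  obtain ⟨e', he'⟩ : ∃ e', e' = 2 * e + e * e := ⟨_, rfl⟩
  have hee : e * e ≤ 1 * e := mul_le_mul_of_nonneg_right (by linarith) he0.le
  have he'1 : e' ≤ 3 * e := by linarith
  have he'0 : 0 < e' := by rw [he']; positivity
  have he'sq : (1 + e) ^ 2 = 1 + e' := by rw [he']; ring
  have he'r : (1 + e') * r₁ < 1 / 2 := by
    rcases le_or_gt 0 r₁ with h | h
    · have h1 : e' * r₁ ≤ 3 / 8 * k * r₁ := mul_le_mul_of_nonneg_right (by linarith) h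
      have e3 : 3 / 8 * k * r₁ = 3 / 8 * (k * r₁) := by ring
      rw [e3] at h1
      have h2 : (1 + e') * r₁ = r₁ + e' * r₁ := by ring
      rw [h2]
      linarith
    · have h1 : (1 + e') * r₁ ≤ 0 := mul_nonpos_of_nonneg_of_nonpos (by linarith) h.le
      linarith
  obtain ⟨C2, n₀, hC2, hn₀, hlow⟩ := low_int (q := 1 + k) (r₁ := r₁) he0 (by linarith)
    (ar6 he0 he1 hk2) (by
      have : (1 + k) * r₁ = r₁ + k * r₁ := by ring
      linarith) (by rw [he'sq]; exact he'r)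
  rw [he'sq] at hlow
  have hlm := WF.log_mu_nonneg
  obtain ⟨C, hC⟩ : ∃ C, C = 10 * C1 * (Real.log mu + 1) + C2 + 16 * (C1 + C2) / η + 4 * C1 :=
    ⟨_, rfl⟩
  have hCa : C2 ≤ C := by
    rw [hC]
    have : 0 ≤ 10 * C1 * (Real.log mu + 1) := by positivity
    have : 0 ≤ 16 * (C1 + C2) / η := by positivity
    linarith
  have hCb : 16 * (C1 + C2) / η ≤ C := by
    rw [hC]
    have : 0 ≤ 10 * C1 * (Real.log mu + 1) := by positivity
    linarith
  have hCc : 10 * C1 * (Real.log mu + 1) ≤ C := by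
    rw [hC]
    have : 0 ≤ 16 * (C1 + C2) / η := by positivity
    linarith
  have hCd : 4 * C1 ≤ C := by
    rw [hC]
    have : 0 ≤ 10 * C1 * (Real.log mu + 1) := by positivity
    have : 0 ≤ 16 * (C1 + C2) / η := by positivity
    linarith
  refine ⟨η / 16, C, n₀, by linarith, by linarith, hn₀, ?_⟩
  intro n hn r hr hr1 hbig E hE hrE S hS1 hS2
  have hn2 : 2 ≤ n := hn₀.trans hn
  have hn0 : (0 : ℝ) < n := by exact_mod_cast (by omega : 0 < n)
  have : NeZero (2 * n) := ⟨by omega⟩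
  have hL4 := log_sq_ge hn2
  have hln : (0 : ℝ) < ln n := by
    obtain ⟨K, -, h⟩ := Y981.L2.ln_le
    exact (h n hn2).1
  obtain ⟨L, hL⟩ : ∃ L, L = Real.log n ^ 2 := ⟨_, rfl⟩
  rw [← hL] at hL4 hbig
  have hx1 : (1 + e') * r < 1 / 2 := lt_of_le_of_lt (mul_le_mul_of_nonneg_left hr1 (by linarith)) he'r
  have hx0 : 0 < (1 + e') * r := by positivity
  obtain ⟨E', hE', hmax⟩ := WF.exists_max hx0 hx1
  obtain ⟨w0, hw0⟩ := hcont r hr e' he'0.le (by linarith) hx1 E E' hE hE' hrE hmax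
  have hg' := g_pos hE'
  -- the size
  obtain ⟨X, hX⟩ : ∃ X, X = r * n * g E' := ⟨_, rfl⟩
  have hX0 : 0 < X := by rw [hX]; positivity
  obtain ⟨A, hA⟩ : ∃ A, A = n * rho r := ⟨_, rfl⟩
  rw [← hA] at hbig
  have hAX : A / 4 ≤ X := by
    have h1 : rho r ≤ rho ((1 + e') * r) := by
      apply WF.rho_strict.monotoneOn ⟨hr.le, by linarith⟩ ⟨hx0.le, hx1.le⟩
      have : 0 ≤ e' * r := by positivity
      linarith
    have h2 : (1 + e') * r * g E' ≤ 2 * r * g E' := by
      apply mul_le_mul_of_nonneg_right _ hg'.le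
      apply mul_le_mul_of_nonneg_right _ hr.le
      linarith
    have h3 : rho r ≤ 4 * (r * g E') := by linarith
    have h4 := mul_le_mul_of_nonneg_left h3 hn0.le
    rw [hA, hX]
    linarith
  have hs : C1 ≤ r * n := by
    have h1 := WF.rho_scale (r := r) (s := 1 / 2) hr.le (by linarith) le_rfl (by norm_num)
    rw [WF.rho_half] at h1
    have h2 : r / (1 / 2) * (2 * Real.log mu) = 4 * r * Real.log mu := by ring
    rw [h2] at h1
    have h3 := mul_le_mul_of_nonneg_left h1 hn0.le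
    rw [← hA] at h3
    have h4 : 10 * C1 * (Real.log mu + 1) * 0.4 ≤ C * L :=
      mul_le_mul hCc hL4 (by norm_num) (by linarith)
    have h5 : C1 * (Real.log mu + 1) ≤ r * n * (Real.log mu + 1) := by
      have h6 : 0 ≤ r * n := by positivity
      linarith
    exact le_of_mul_le_mul_right h5 (by linarith)
  have hsg : C1 * L ≤ X := by
    have h1 : 4 * C1 * L ≤ C * L := mul_le_mul_of_nonneg_right hCd (by linarith)
    linarith
  have b1 := hbad E' hE' n hn2 (r * n) hs (by rw [← hL, ← hX]; exact hsg)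
  rw [← hL, ← hX] at b1
  have b2 := hlow n hn r hr hr1 (by
    rw [← hL, ← hA]
    exact (mul_le_mul_of_nonneg_right hCa (by linarith)).trans hbig) S (by
      refine subset_trans ?_ hS1
      apply Ioo_subset_Ioo_right
      have h1 : ((1 + k) * r * n) ^ 2 = (1 + k) ^ 2 * (r * n) ^ 2 := by ring
      rw [h1]
      apply mul_le_mul_of_nonneg_right _ (sq_nonneg _)
      have h2 : k * k ≤ 1 * k := mul_le_mul_of_nonneg_right hk2 hk0.le
      have h3 : (1 + k) ^ 2 = 1 + 2 * k + k * k := by ring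
      rw [h3]
      linarith)
  rw [← hL] at b2
  have hp : 0 < pr n S := lt_of_lt_of_le (Real.exp_pos _) b2
  refine ⟨hp, hln, ?_⟩
  -- the sets
  have hfin : {f : ZMod (2 * n) → ℤ × ℤ | IsLoop (2 * n) f ∧ (r * n) ^ 2 ≤
      (area (2 * n) f : ℝ) ∧ FarU n (r * n) E' (δ / 3) f}.Finite :=
    (loops_finite (by omega : 1 ≤ n)).subset fun f hf => hf.1
  have h1 := Set.ncard_le_ncard (s := {f : ZMod (2 * n) → ℤ × ℤ | IsLoop (2 * n) f ∧
      (area (2 * n) f : ℝ) ∈ S ∧ FarU n (r * n) E δ f}) (fun f hf => by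
    refine ⟨hf.1, hS2 hf.2.1, ?_⟩
    exact far_trans (by omega) hE hE' hw0 (by linarith) hf.2.2) hfin
  have h2 : (({f : ZMod (2 * n) → ℤ × ℤ | IsLoop (2 * n) f ∧
      (area (2 * n) f : ℝ) ∈ S ∧ FarU n (r * n) E δ f}.ncard : ℕ) : ℝ) ≤
      (({f : ZMod (2 * n) → ℤ × ℤ | IsLoop (2 * n) f ∧ (r * n) ^ 2 ≤
      (area (2 * n) f : ℝ) ∧ FarU n (r * n) E' (δ / 3) f}.ncard : ℕ) : ℝ) := by exact_mod_cast h1
  refine h2.trans (b1.trans ?_)
  rw [← mul_assoc]
  apply mul_le_mul_of_nonneg_right _ hln.le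
  have h3 := ar7 (C1 := C1) (C2 := C2) (C := C) (L := L) (X := X) (A := A)
    (Ax := n * rho ((1 + e') * r)) (nE := n * E') (η := η) (e' := e') hAX hbig hη
    (by linarith) hCb (by linarith) (by
      rw [hmax, hX]
      ring) hX0.le
  have e1 : 2 * (n : ℝ) * E' = 2 * (n * E') := by ring
  rw [e1, ← hA]
  refine (Real.exp_le_exp.2 h3).trans ?_
  rw [Real.exp_add]
  apply mul_le_mul_of_nonneg_left b2 (Real.exp_pos _).le

/-- **the region, uniformly** -/
theorem region_u {δ : ℝ} (hδ : 0 < δ) : ∃ δ1 : ℝ, 0 < δ1 ∧ ∀ T : Set (ℝ × ℝ), Cl T →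
    volume.real T = 1 → ∀ (w : ℝ × ℝ) (R C : Set (ℝ × ℝ)), MeasurableSet R → R ⊆ C →
    IsCompact C → hausdorffDist C ((fun x => x + w) '' T) < δ1 → 1 ≤ volume.real R →
    volume.real (symmDiff R ((fun x => x + w) '' T)) < δ := by
  obtain ⟨δ1, hδ1⟩ : ∃ δ1, δ1 = min 1 δ / 100 := ⟨_, rfl⟩
  have h0 : 0 < δ1 := by
    rw [hδ1]
    have : 0 < min 1 δ := lt_min one_pos hδ
    linarith
  have h1 : δ1 ≤ 1 / 100 := by
    rw [hδ1]
    have := min_le_left 1 δ
    linarith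
  have h2 : δ1 ≤ δ / 100 := by
    rw [hδ1]
    have := min_le_right 1 δ
    linarith
  refine ⟨δ1, h0, ?_⟩
  intro T hT hv w R C hRm hRC hC hdist hvR
  obtain ⟨hTv, hTc, -, -, hb, -⟩ := hT
  have hTn : T.Nonempty := ⟨0, hb (mem_closedBall_self (by norm_num))⟩
  have hTw := trans_compact hTc w
  obtain ⟨A, hA⟩ : ∃ A, A = (fun x => x + w) '' ((1 + δ1 / (1 / 4)) • T) := ⟨_, rfl⟩
  have hAc : IsCompact A := by
    rw [hA]
    exact trans_compact (hTc.smul _) w
  have hCA : C ⊆ A := by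
    intro x hx
    obtain ⟨_, ⟨t, ht, rfl⟩, hxy⟩ := near hC hTw (hTn.image _) hx
    rw [hA]
    refine ⟨x - w, ?_, by simp⟩
    apply fat hTv (by norm_num) hb ht
    have : dist (x - w) t = dist x (t + w) := by
      rw [dist_eq_norm, dist_eq_norm]
      congr 1
      abel
    rw [this]
    exact hxy.trans hdist.le
  have hTA : (fun x => x + w) '' T ⊆ A := by
    rw [hA]
    apply image_mono
    intro x hx
    exact fat hTv (by norm_num) hb hx (by rw [dist_self]; exact h0.le)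
  have hvA : volume.real A ≤ 1 + 24 * δ1 := by
    rw [hA, volr_trans, vol_smul, hv, mul_one]
    have e1 : (1 + δ1 / (1 / 4)) ^ 2 = 1 + 8 * δ1 + 16 * (δ1 * δ1) := by ring
    rw [e1]
    have : δ1 * δ1 ≤ 1 / 100 * δ1 := mul_le_mul_of_nonneg_right h1 h0.le
    linarith
  have g1 : volume.real (R \ (fun x => x + w) '' T) ≤ 24 * δ1 := by
    have h7 : volume.real (R \ (fun x => x + w) '' T) ≤
        volume.real (A \ (fun x => x + w) '' T) :=
      measureReal_mono (sdiff_subset_sdiff_left (hRC.trans hCA))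
        (ne_top_of_le_ne_top hAc.measure_lt_top.ne (measure_mono sdiff_subset))
    rw [measureReal_sdiff hTA hTw.measurableSet hAc.measure_lt_top.ne, volr_trans T, hv] at h7
    linarith
  have g2 : volume.real (((fun x => x + w) '' T) \ R) ≤ 24 * δ1 := by
    have h7 : volume.real (((fun x => x + w) '' T) \ R) ≤ volume.real (A \ R) :=
      measureReal_mono (sdiff_subset_sdiff_left hTA)
        (ne_top_of_le_ne_top hAc.measure_lt_top.ne (measure_mono sdiff_subset))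
    rw [measureReal_sdiff (hRC.trans hCA) hRm hAc.measure_lt_top.ne] at h7
    linarith
  have g3 : volume.real (symmDiff R ((fun x => x + w) '' T)) ≤
      volume.real (R \ (fun x => x + w) '' T) + volume.real (((fun x => x + w) '' T) \ R) := by
    rw [symmDiff_def]
    exact measureReal_union_le _ _
  linarith

end Pool.Agent.H26.UN
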