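import Pool.Agent.H26.UN.Cnd2
import Pool.Agent.H26.WS.Width

/-!
The mean width of the polygons given a large area, uniformly.
-/

set_option autoImplicit false

open MeasureTheory Set Filter Topology Metric
open scoped ENNReal Pointwise

namespace Pool.Agent.H26.UN

open Pool.Agent.T6.H44 Pool.Agent.T6.H44.PG
open Pool.Agent.T6.H44.AR (det Refl Swp sup)
open Pool.Agent.Y981.L2 H981 Pool.Agent.H26.WS
open Pool.Agent.Y981.L2X (M)
open Pool.Agent.H26.WF (Kc V g rho pr RR)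

theorem UE_sym {E : ℝ} (hE : 0 < E) : ∀ x ∈ UE E, -x ∈ UE E := by
  intro x hx
  have hR := (UE_cl hE).2.2.1
  have h1 := (hR x hx).1
  exact (hR _ h1).2

/-- the width of a good polygon -/
theorem good_width_u {n : ℕ} (hn1 : 1 ≤ n) {s E δ : ℝ} (hs : 0 < s) (hE : 0 < E)
    {f : ZMod (2 * n) → ℤ × ℤ} {w : ℝ × ℝ}
    (hw : hausdorffDist (convexHull ℝ (pts s f)) ((fun x => x + w) '' UE E) < δ) :
    |wd n f / s - 2 * (1 / g E) * M E (1, 0)| ≤ 2 * δ := by
  have : NeZero (2 * n) := ⟨by omega⟩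
  have hT := (UE_cl hE).2.1
  have hTn := UE_ne hE
  have hTs := UE_sym hE
  have hg := g_pos hE
  obtain ⟨h, hh, hhM, hmax⟩ := exists_M hE
  obtain ⟨lam, hlam⟩ : ∃ lam, lam = 1 / g E := ⟨_, rfl⟩
  have l1 : 0 < lam := by rw [hlam]; positivity
  rw [← hlam]
  have hC := hull_compact s f
  have hCn : (convexHull ℝ (pts s f)).Nonempty := ⟨_, subset_convexHull ℝ _ ⟨0, rfl⟩⟩
  have hTw := trans_compact hT w
  obtain ⟨w1, i0, j0, w2⟩ := wd_attained hn1 f
  rw [← hhM]
  -- points of `T`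
  have hb : ∀ t ∈ UE E, t.1 ≤ lam * h.1 := by
    rintro _ ⟨k, hk, rfl⟩
    rw [hlam]
    exact mul_le_mul_of_nonneg_left (hmax k hk) (by positivity)
  have hb' : ∀ t ∈ UE E, -(lam * h.1) ≤ t.1 := by
    intro t ht
    have := hb (-t) (hTs t ht)
    rw [Prod.fst_neg] at this
    linarith
  rw [abs_le]
  constructor
  · -- lower bound
    have t1 : lam • h ∈ UE E := by
      rw [hlam]
      exact smul_mem_smul_set hh
    obtain ⟨c, hc, hcd⟩ := near hTw hC hCn ⟨lam • h, t1, rfl⟩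
    obtain ⟨c', hc', hcd'⟩ := near hTw hC hCn ⟨-(lam • h), hTs _ t1, rfl⟩
    rw [hausdorffDist_comm] at hcd hcd'
    have e1 : |(lam • h + w).1 - c.1| ≤ dist (lam • h + w) c := by
      rw [← Real.dist_eq]
      exact le_max_left _ _
    have e2 : |(-(lam • h) + w).1 - c'.1| ≤ dist (-(lam • h) + w) c' := by
      rw [← Real.dist_eq]
      exact le_max_left _ _
    simp only [Prod.fst_add, Prod.smul_fst, smul_eq_mul, Prod.fst_neg] at e1 e2
    simp only at hcd hcd'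
    have f1 := abs_le.1 e1
    have f2 := abs_le.1 e2
    -- the coordinates of the hull
    have f3 : c.1 ≤ c'.1 + wd n f / s := by
      apply fst_hull _ c hc
      intro i
      have : ((f i).1 : ℝ) / s - wd n f / s ≤ c'.1 := by
        apply fst_hull' _ c' hc'
        intro j
        rw [← sub_div]
        apply div_le_div_of_nonneg_right _ hs.le
        have := w1 i j
        linarith
      linarith
    linarith [f1.1, f1.2, f2.1, f2.2]
  · -- upper bound
    have p1 : (((f i0).1 : ℝ) / s, ((f i0).2 : ℝ) / s) ∈ convexHull ℝ (pts s f) :=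
      subset_convexHull ℝ _ ⟨i0, rfl⟩
    have p2 : (((f j0).1 : ℝ) / s, ((f j0).2 : ℝ) / s) ∈ convexHull ℝ (pts s f) :=
      subset_convexHull ℝ _ ⟨j0, rfl⟩
    obtain ⟨_, ⟨t, ht, rfl⟩, hd⟩ := near hC hTw (hTn.image _) p1
    obtain ⟨_, ⟨t', ht', rfl⟩, hd'⟩ := near hC hTw (hTn.image _) p2
    have e1 : |((f i0).1 : ℝ) / s - (t + w).1| ≤
        dist (((f i0).1 : ℝ) / s, ((f i0).2 : ℝ) / s) (t + w) := by
      rw [← Real.dist_eq]
      exact le_max_left _ _
    have e2 : |((f j0).1 : ℝ) / s - (t' + w).1| ≤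
        dist (((f j0).1 : ℝ) / s, ((f j0).2 : ℝ) / s) (t' + w) := by
      rw [← Real.dist_eq]
      exact le_max_left _ _
    simp only [Prod.fst_add] at e1 e2
    simp only at hd hd'
    have f1 := abs_le.1 e1
    have f2 := abs_le.1 e2
    have g1 := hb t ht
    have g2 := hb' t' ht'
    rw [w2, sub_div]
    linarith [f1.1, f1.2, f2.1, f2.2]

theorem M_le {E : ℝ} (hE : 0 < E) : 0 ≤ M E (1, 0) ∧ M E (1, 0) ≤ g E := by
  obtain ⟨h, hh, hhM, hmax⟩ := exists_M hE
  rw [← hhM]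
  have h1 := WF.Kc_sub hh
  rw [mem_prod, mem_Icc, mem_Icc] at h1
  have hm := mass_le_g hE
  have h0 := hmax _ (Kc_sym hE).1
  have hmp := Y981.L2.mass_pos hE
  simp only at h0
  constructor
  · linarith
  · linarith [h1.1.2]

theorem ar8 {x ε : ℝ} (hx : 0 < x) (hε : 0 < ε) (h : 10 / ε ≤ x) : 5 * x * (1 / x ^ 2) ≤ ε / 2 := by
  have e : 5 * x * (1 / x ^ 2) = 5 / x := by field_simp
  rw [e, div_le_iff₀ hx]
  rw [div_le_iff₀ hε] at h
  linarith

/-- **the mean width, uniformly** -/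
theorem mean_u {δ κ r₁ : ℝ} (hδ : 0 < δ) (hκ : 0 < κ) (hr₁ : r₁ < 1 / 2) :
    ∃ (C : ℝ) (n₀ : ℕ), 0 < C ∧ 2 ≤ n₀ ∧ ∀ n : ℕ, n₀ ≤ n → ∀ r : ℝ, 0 < r → r ≤ r₁ →
      C * Real.log n ^ 2 ≤ n * rho r → ∀ E : ℝ, 0 < E → rho r = 2 * (r * g E) - 2 * E →
      ∀ S : Set ℝ, Ioo ((r * n) ^ 2) ((1 + κ) * (r * n) ^ 2) ⊆ S → S ⊆ Ici ((r * n) ^ 2) →
      |(∑ᶠ f ∈ {f : ZMod (2 * n) → ℤ × ℤ | IsLoop (2 * n) f ∧ (area (2 * n) f : ℝ) ∈ S},
        wd n f) / ({f : ZMod (2 * n) → ℤ × ℤ | IsLoop (2 * n) f ∧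
        (area (2 * n) f : ℝ) ∈ S}.ncard : ℝ) - 2 * (1 / g E) * M E (1, 0) * (r * n)| ≤
        δ * (r * n) := by
  obtain ⟨c, C0, n₀, hc, hC0, hn₀, hsh⟩ := shape_u (show 0 < δ / 4 by linarith) hκ hr₁
  obtain ⟨N, hN⟩ := exists_nat_ge (10 / δ)
  have hlm := WF.log_mu_nonneg
  obtain ⟨C, hC⟩ : ∃ C, C = C0 + 2 / c + 10 * (Real.log mu + 1) := ⟨_, rfl⟩
  have hCa : C0 ≤ C := by
    rw [hC]
    have : 0 ≤ 2 / c := by positivity
    linarith
  have hCb : 2 / c ≤ C := by
    rw [hC]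
    linarith
  have hCc : 10 * (Real.log mu + 1) ≤ C := by
    rw [hC]
    have : 0 ≤ 2 / c := by positivity
    linarith
  refine ⟨C, n₀ + N + 3, by linarith, by omega, ?_⟩
  intro n hn r hr hr1 hbig E hE hrE S hS1 hS2
  have hn3 : 3 ≤ n := by omega
  have hn1 : 1 ≤ n := by omega
  have hn0 : (0 : ℝ) < n := by exact_mod_cast hn1
  have hn3' : (3 : ℝ) ≤ n := by exact_mod_cast hn3
  have : NeZero (2 * n) := ⟨by omega⟩
  have hg := g_pos hE
  obtain ⟨hM0, hM1⟩ := M_le hE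
  have hlog1 : 1 ≤ Real.log n := by
    rw [Real.le_log_iff_exp_le hn0]
    have := Real.exp_one_lt_d9
    linarith
  have hL1 : 1 ≤ Real.log n ^ 2 := one_le_pow₀ hlog1
  have hLl : Real.log n ≤ Real.log n ^ 2 := by
    rw [sq]
    exact le_mul_of_one_le_left (by linarith) hlog1
  obtain ⟨hp, hln, hbadc⟩ := hsh n (by omega) r hr hr1
    ((mul_le_mul_of_nonneg_right hCa (by linarith)).trans hbig) E hE hrE S hS1 hS2
  -- the scale
  have hs1 : 1 ≤ r * n := by
    have h1 := WF.rho_scale (r := r) (s := 1 / 2) hr.le (by linarith) le_rfl (by norm_num)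
    rw [WF.rho_half] at h1
    have h2 : r / (1 / 2) * (2 * Real.log mu) = 4 * r * Real.log mu := by ring
    rw [h2] at h1
    have h3 := mul_le_mul_of_nonneg_left h1 hn0.le
    have h4 : 10 * (Real.log mu + 1) * 1 ≤ C * Real.log n ^ 2 :=
      mul_le_mul hCc hL1 (by norm_num) (by linarith)
    have h6 : 0 ≤ r * n := by positivity
    have h5 : 1 * (Real.log mu + 1) ≤ r * n * (Real.log mu + 1) := by linarith
    exact le_of_mul_le_mul_right h5 (by linarith)
  have hs0 : 0 < r * n := by linarith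
  obtain ⟨s, hsd⟩ : ∃ s, s = r * n := ⟨_, rfl⟩
  rw [← hsd] at hs1 hs0 hbadc ⊢
  have hns : (n : ℝ) / s ≤ n := by
    rw [div_le_iff₀ hs0]
    exact le_mul_of_one_le_right hn0.le hs1
  obtain ⟨A, hA⟩ : ∃ A : Set (ZMod (2 * n) → ℤ × ℤ), A = {f | IsLoop (2 * n) f ∧
        (area (2 * n) f : ℝ) ∈ S} := ⟨_, rfl⟩
  have hAfin : A.Finite := (loops_finite hn1).subset fun f hf => by rw [hA] at hf; exact hf.1
  have hprA : pr n S * ln n = A.ncard := by
    rw [hA]
    unfold pr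
    have : (({f : ZMod (2 * n) → ℤ × ℤ | IsLoop (2 * n) f}.ncard : ℕ) : ℝ) = ln n := rfl
    rw [this]
    field_simp
  rw [hprA] at hbadc
  have hA0 : (0 : ℝ) < A.ncard := by
    rw [← hprA]
    positivity
  rw [← hA]
  have hsum : (∑ᶠ (f : ZMod (2 * n) → ℤ × ℤ) (_ : f ∈ A), wd n f) =
      s * ∑ f ∈ hAfin.toFinset, wd n f / s := by
    rw [finsum_mem_eq_finite_toFinset_sum _ hAfin, Finset.mul_sum]
    apply Finset.sum_congr rfl
    intro f _
    field_simp
  rw [hsum]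
  have hcard : (A.ncard : ℝ) = ∑ i ∈ hAfin.toFinset, (1 : ℝ) := by
    rw [Finset.sum_const, nsmul_eq_mul, mul_one, Set.ncard_eq_toFinset_card A hAfin]
  have hZ : (0 : ℝ) < ∑ i ∈ hAfin.toFinset, (1 : ℝ) := by
    rw [← hcard]
    exact hA0
  obtain ⟨c0, hc0⟩ : ∃ c0, c0 = 2 * (1 / g E) * M E (1, 0) := ⟨_, rfl⟩
  have hc00 : 0 ≤ c0 := by rw [hc0]; positivity
  have hc02 : c0 ≤ 2 := by
    rw [hc0]
    have : 1 / g E * M E (1, 0) ≤ 1 := by
      rw [one_div_mul_eq_div, div_le_one hg]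
      exact hM1
    linarith
  have key := wmean hAfin.toFinset (fun _ => (1 : ℝ)) (fun f => wd n f / s)
    (fun f => FarU n s E (δ / 4) f) (c := c0) (ε := δ / 2) (B := 5 * n)
    (p := Real.exp (-(c * (n * rho r)))) (fun _ _ => zero_le_one) hZ (by linarith)
    (by
      intro f _ hg'
      unfold FarU at hg'
      push Not at hg'
      obtain ⟨w, hw⟩ := hg'
      have := good_width_u hn1 hs0 hE hw
      rw [hc0]
      linarith)
    (by positivity)
    (by
      intro f hf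
      rw [Set.Finite.mem_toFinset, hA] at hf
      have g1 := wd_le (by omega : 2 ≤ n) hf.1
      have g2 : 0 ≤ wd n f / s := div_nonneg (wd_nonneg hn1 f) hs0.le
      have g3 : wd n f / s ≤ 4 * n := by
        have e1 : wd n f / s = wd n f / n * (n / s) := by field_simp
        rw [e1]
        exact mul_le_mul g1 hns (by positivity) (by norm_num)
      refine (abs_sub _ _).trans ?_
      rw [abs_of_nonneg g2, abs_of_nonneg hc00]
      linarith)
    (by
      rw [← hcard]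
      refine le_trans (le_of_eq ?_) hbadc
      have e1 : {i | i ∈ hAfin.toFinset ∧ FarU n s E (δ / 4) i} =
          {f : ZMod (2 * n) → ℤ × ℤ | IsLoop (2 * n) f ∧ (area (2 * n) f : ℝ) ∈ S ∧
            FarU n s E (δ / 4) f} := by
        ext f
        simp only [Set.Finite.mem_toFinset, hA, mem_ofPred_eq]
        tauto
      rw [e1]
      have hfin : {f : ZMod (2 * n) → ℤ × ℤ | IsLoop (2 * n) f ∧ (area (2 * n) f : ℝ) ∈ S ∧
            FarU n s E (δ / 4) f}.Finite := (loops_finite hn1).subset fun f hf => hf.1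
      rw [finsum_mem_eq_finite_toFinset_sum _ hfin, Finset.sum_const, nsmul_eq_mul, mul_one,
        Set.ncard_eq_toFinset_card _ hfin])
  rw [← hcard] at key
  simp only [one_mul] at key
  -- the error
  have hexp : Real.exp (-(c * (n * rho r))) ≤ 1 / (n : ℝ) ^ 2 := by
    have h1 : 2 * Real.log n ≤ c * (n * rho r) := by
      have h2 : 2 / c * Real.log n ^ 2 ≤ n * rho r :=
        (mul_le_mul_of_nonneg_right hCb (by linarith)).trans hbig
      have h3 := mul_le_mul_of_nonneg_left h2 hc.le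
      have h4 : c * (2 / c * Real.log n ^ 2) = 2 * Real.log n ^ 2 := by field_simp
      rw [h4] at h3
      linarith
    have h2 : 1 / (n : ℝ) ^ 2 = Real.exp (-(2 * Real.log n)) := by
      rw [Real.exp_neg, two_mul, Real.exp_add, Real.exp_log hn0, one_div, sq]
    rw [h2]
    exact Real.exp_le_exp.2 (by linarith)
  have hfinal : 5 * (n : ℝ) * Real.exp (-(c * (n * rho r))) ≤ δ / 2 := by
    refine (mul_le_mul_of_nonneg_left hexp (by positivity)).trans ?_
    apply ar8 hn0 hδ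
    refine hN.trans ?_
    exact_mod_cast (by omega : N ≤ n)
  have e2 : s * (∑ f ∈ hAfin.toFinset, wd n f / s) / (A.ncard : ℝ) - c0 * s =
      s * ((∑ f ∈ hAfin.toFinset, wd n f / s) / (A.ncard : ℝ) - c0) := by ring
  rw [← hc0, e2, abs_mul, abs_of_pos hs0, mul_comm δ]
  apply mul_le_mul_of_nonneg_left _ hs0.le
  linarith

theorem max_small {r E : ℝ} (hr : 0 < r) (hr1 : r ≤ 1 / 4) (hE : 0 < E)
    (h : rho r = 2 * (r * g E) - 2 * E) : E ≤ 4 * r * Real.log mu := by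
  have h0 := WF.rho_nonneg hr.le (by linarith : r ≤ 1 / 2)
  have h1 := WF.g_le hE.le
  have h2 := mul_le_mul_of_nonneg_left h1 hr.le
  have h3 := mul_le_mul_of_nonneg_right hr1 hE.le
  linarith

end Pool.Agent.H26.UN
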