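import Pool.Agent.H26.HA.Upper

/-!
Wulff's inequality with errors.
-/

set_option autoImplicit false

open MeasureTheory Set Filter Topology Metric
open scoped ENNReal Pointwise

namespace Pool.Agent.H26.UN

open Pool.Agent.T6.H44
open Pool.Agent.T6.H44.AR (det Zn Refl Swp sup)
open Pool.Agent.H26.WS Pool.Agent.H26.HA

/-- **Wulff's inequality in terms of the widths**, with an error term -/
theorem wulff_w {K : Set (ℝ × ℝ)} (hc : Convex ℝ K) (hK : IsCompact K)
    (h0 : (0 : ℝ × ℝ) ∈ interior K) (hR : Refl K) (hS : Swp K) {mK : ℝ}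
    (hmK : sup K (1, 0) ≤ mK) (L : List (ℝ × ℝ)) {C : Set (ℝ × ℝ)} (hCv : Convex ℝ C)
    (hC : IsCompact C) (hCn : C.Nonempty) {η : ℝ} (hη : 0 ≤ η)
    (hw : ∀ v, ∀ x ∈ C, ∀ x' ∈ C,
      2 * det v (x - x') ≤ (L.map (fun l => |det v l|)).sum + η * ‖v‖) :
    2 * √(volume.real K * volume.real C) ≤ (L.map (sup K)).sum + 2 * η * mK := by
  have hKn : K.Nonempty := ⟨0, interior_subset h0⟩
  have hswap : sup K (0, 1) = sup K (1, 0) := by
    unfold sup
    congr 1
    ext t
    constructor
    · rintro ⟨h, hh, rfl⟩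
      exact ⟨_, hS h hh, by simp⟩
    · rintro ⟨h, hh, rfl⟩
      exact ⟨_, hS h hh, by simp⟩
  have hT0 : 0 ≤ sup K (1, 0) := by
    have := le_sup hK (1, 0) (interior_subset h0)
    simpa using this
  have hmK0 : 0 ≤ mK := hT0.trans hmK
  have key : ∀ κ : ℝ, 0 < κ → κ < 1 → 2 * √(volume.real K * volume.real C) ≤
      (1 + κ) * ((L.map (sup K)).sum + 2 * η * mK) + κ * volume.real K := by
    intro κ hκ hκ1
    obtain ⟨N, y, hy1, hy2, hy3⟩ := zk hc hK h0 hR hS hκ hκ1
    have hmax : ∀ j, ∃ p ∈ C ×ˢ C, ∀ p' ∈ C ×ˢ C, det (y j) (p'.1 - p'.2) ≤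
        det (y j) (p.1 - p.2) := by
      intro j
      obtain ⟨p, hp, hpm⟩ := (hC.prod hC).exists_isMaxOn (hCn.prod hCn)
        (f := fun p : (ℝ × ℝ) × (ℝ × ℝ) => det (y j) (p.1 - p.2))
        (((AR.det_cont (y j)).comp (by fun_prop)).continuousOn)
      exact ⟨p, hp, fun p' hp' => hpm hp'⟩
    choose p hp hpm using hmax
    obtain ⟨w, hwd⟩ : ∃ w : Fin N → ℝ, w = fun j => det (y j) ((p j).1 - (p j).2) := ⟨_, rfl⟩
    have hw0 : ∀ j, 0 ≤ w j := by
      intro j
      have := hpm j ((p j).1, (p j).1) ⟨(hp j).1, (hp j).1⟩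
      rw [hwd]
      simpa [det] using this
    have hS1 : ∑ j, ‖y j‖ ≤ (1 + κ) * (2 * mK) := by
      have h1 := hy3 (1, 0)
      have h2 := hy3 (0, 1)
      rw [hswap] at h2
      have h3 : ∑ j, ‖y j‖ ≤ ∑ j, (|det (y j) (1, 0)| + |det (y j) (0, 1)|) := by
        apply Finset.sum_le_sum
        intro j _
        simp only [det, mul_zero, mul_one, zero_sub, sub_zero, abs_neg]
        rw [Prod.norm_def, Real.norm_eq_abs, Real.norm_eq_abs]
        apply max_le
        · exact le_add_of_nonneg_left (abs_nonneg _)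
        · exact le_add_of_nonneg_right (abs_nonneg _)
      rw [Finset.sum_add_distrib] at h3
      have h4 : (1 + κ) * sup K (1, 0) ≤ (1 + κ) * mK := mul_le_mul_of_nonneg_left hmK (by linarith)
      linarith
    have hwsum : 2 * ∑ j, w j ≤ (1 + κ) * ((L.map (sup K)).sum + 2 * η * mK) := by
      calc 2 * ∑ j, w j = ∑ j, 2 * w j := by rw [Finset.mul_sum]
        _ ≤ ∑ j, ((L.map (fun l => |det (y j) l|)).sum + η * ‖y j‖) := by
            apply Finset.sum_le_sum
            intro j _
            rw [hwd]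
            exact hw (y j) _ (hp j).1 _ (hp j).2
        _ = (L.map (fun l => ∑ j, |det (y j) l|)).sum + η * ∑ j, ‖y j‖ := by
            rw [Finset.sum_add_distrib, sum_swap, ← Finset.mul_sum]
        _ ≤ (1 + κ) * (L.map (sup K)).sum + η * ((1 + κ) * (2 * mK)) := by
            have h1 := list_sum_le L (fun l => ∑ j, |det (y j) l|) (sup K) (1 + κ) hy3
            have h2 := mul_le_mul_of_nonneg_left hS1 hη
            linarith
        _ = _ := by ring
    have h1 := add_Zn_width hC hCv y w hw0 (by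
      intro j x hx x' hx'
      have h2 := hpm j (x, x') ⟨hx, hx'⟩
      rw [hwd]
      exact h2)
    have hZ := vol_Zn_real y
    have hDS := AR.DS_nonneg y
    have hW : 0 ≤ ∑ j, w j := Finset.sum_nonneg fun j _ => hw0 j
    have h2 : volume.real (C + K) ≤ volume.real C + (2 * (∑ j, w j) + 2 * AR.DS y) := by
      have h3 : volume (C + K) ≤ ENNReal.ofReal (volume.real C +
          (2 * (∑ j, w j) + 2 * AR.DS y)) := by
        rw [ENNReal.ofReal_add measureReal_nonneg (by positivity)]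
        have h4 : ENNReal.ofReal (volume.real C) = volume C := by
          unfold Measure.real
          rw [ENNReal.ofReal_toReal hC.measure_lt_top.ne]
        rw [h4]
        exact (measure_mono (add_subset_add_left hy1)).trans h1
      have h4 : 0 ≤ volume.real C := measureReal_nonneg
      exact ENNReal.toReal_le_of_le_ofReal (by positivity) h3
    have h5 := bm_real hC hK hCn hKn
    rw [add_sq, Real.sq_sqrt measureReal_nonneg, Real.sq_sqrt measureReal_nonneg] at h5
    have h6 : √(volume.real K * volume.real C) = √(volume.real C) * √(volume.real K) := by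
      rw [Real.sqrt_mul measureReal_nonneg, mul_comm]
    rw [h6]
    linarith
  -- `κ → 0`
  have hlim : Tendsto (fun κ : ℝ => (1 + κ) * ((L.map (sup K)).sum + 2 * η * mK) +
      κ * volume.real K) (𝓝[>] 0) (𝓝 ((1 + 0) * ((L.map (sup K)).sum + 2 * η * mK) +
      0 * volume.real K)) :=
    (Continuous.tendsto (by fun_prop) _).mono_left nhdsWithin_le_nhds
  rw [add_zero, one_mul, zero_mul, add_zero] at hlim
  refine ge_of_tendsto hlim ?_
  filter_upwards [Ioo_mem_nhdsGT (show (0 : ℝ) < 1 by norm_num)] with κ hκ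
  exact key κ hκ.1 hκ.2

theorem hull_add_D {P : Set (ℝ × ℝ)} (hc : IsCompact P) (hv : Convex ℝ P) {D : ℝ} (hD : 0 ≤ D)
    (hb : ∀ x ∈ P, ‖x‖ ≤ D) {η : ℝ} (hη : 0 ≤ η) :
    volume (P + AR.Zn (bz η)) ≤ volume P + ENNReal.ofReal (8 * (η * D) + 4 * η ^ 2) := by
  have h := H26.AR.add_Zn_le hc hv (bz η) (fun _ => η * D) (fun _ => mul_nonneg hη hD) (by
    intro j x hx
    have h1 := hb x hx
    have h2 : |x.1| ≤ D := (norm_fst_le x).trans h1
    have h3 : |x.2| ≤ D := (norm_snd_le x).trans h1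
    fin_cases j
    · simp only [bz, det, Fin.zero_eta, Matrix.cons_val_zero, zero_mul, sub_zero, abs_mul,
        abs_of_nonneg hη]
      exact mul_le_mul_of_nonneg_left h3 hη
    · simp only [bz, det, Fin.mk_one, Matrix.cons_val_one, Matrix.cons_val_zero, zero_mul,
        zero_sub, abs_neg, abs_mul, abs_of_nonneg hη]
      exact mul_le_mul_of_nonneg_left h2 hη)
  refine h.trans (add_le_add le_rfl (ENNReal.ofReal_le_ofReal (le_of_eq ?_)))
  unfold H26.AR.DS
  simp only [Fin.sum_univ_two, bz, det, Matrix.cons_val_zero, Matrix.cons_val_one]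
  rw [show η * 0 - 0 * η = 0 by ring, show η * η - 0 * 0 = η ^ 2 by ring,
    show (0 : ℝ) * 0 - η * η = -η ^ 2 by ring, show 0 * η - η * 0 = (0 : ℝ) by ring, abs_zero,
    abs_neg, abs_of_nonneg (sq_nonneg η)]
  ring

end Pool.Agent.H26.UN
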