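import Pool.Graph.R_pool_sql_team_seeded_47a924f7.T6.H44.AR.R1

/-!
Grouping of the edges of a polygon: a polygon with arbitrarily many timed edges may be replaced by
one with few edges, at no cost and with a small loss of area.
-/

set_option autoImplicit false

namespace Pool.Agent.H26.UN

open Pool.Agent.T6.H44 Pool.Agent.T6.H44.AR

/-- the horizontal and the vertical variation -/
def XX (L : List (ℝ × ℝ)) : ℝ := (L.map fun v => |v.1|).sum
def YY (L : List (ℝ × ℝ)) : ℝ := (L.map fun v => |v.2|).sum

@[simp] theorem XX_nil : XX [] = 0 := rfl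
@[simp] theorem YY_nil : YY [] = 0 := rfl
@[simp] theorem XX_cons (v : ℝ × ℝ) (L : List (ℝ × ℝ)) : XX (v :: L) = |v.1| + XX L := by
  simp [XX]
@[simp] theorem YY_cons (v : ℝ × ℝ) (L : List (ℝ × ℝ)) : YY (v :: L) = |v.2| + YY L := by
  simp [YY]
@[simp] theorem XX_append (L M : List (ℝ × ℝ)) : XX (L ++ M) = XX L + XX M := by simp [XX]
@[simp] theorem YY_append (L M : List (ℝ × ℝ)) : YY (L ++ M) = YY L + YY M := by simp [YY]

theorem XX_nonneg (L : List (ℝ × ℝ)) : 0 ≤ XX L := by
  induction L with
  | nil => simp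
  | cons v L ih => rw [XX_cons]; positivity

theorem YY_nonneg (L : List (ℝ × ℝ)) : 0 ≤ YY L := by
  induction L with
  | nil => simp
  | cons v L ih => rw [YY_cons]; positivity

theorem sum_XX (L : List (ℝ × ℝ)) : |L.sum.1| ≤ XX L := by
  induction L with
  | nil => simp
  | cons v L ih =>
    rw [List.sum_cons, XX_cons, Prod.fst_add]
    exact (abs_add_le _ _).trans (by linarith)

theorem sum_YY (L : List (ℝ × ℝ)) : |L.sum.2| ≤ YY L := by
  induction L with
  | nil => simp
  | cons v L ih =>
    rw [List.sum_cons, YY_cons, Prod.snd_add]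
    exact (abs_add_le _ _).trans (by linarith)

/-- the area is at most the product of the variations -/
theorem S2_le (L : List (ℝ × ℝ)) : |S2 L| ≤ XX L * YY L := by
  induction L with
  | nil => simp [S2]
  | cons v L ih =>
    rw [S2, XX_cons, YY_cons]
    have h1 := sum_XX L
    have h2 := sum_YY L
    have h3 : |det L.sum v| ≤ |v.1| * YY L + |v.2| * XX L := by
      unfold det
      refine (abs_sub _ _).trans ?_
      rw [abs_mul, abs_mul]
      have e1 := mul_le_mul_of_nonneg_right h1 (abs_nonneg v.2)
      have e2 := mul_le_mul_of_nonneg_right h2 (abs_nonneg v.1)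
      linarith
    refine (abs_add_le _ _).trans ?_
    have h4 := mul_nonneg (abs_nonneg v.1) (abs_nonneg v.2)
    nlinarith

/-- timed edges -/
def Fm (E : List (ℝ × (ℝ × ℝ))) : Prop := ∀ e ∈ E, 0 < e.1 ∧ |e.2.1| + |e.2.2| ≤ e.1

variable {I : ℝ × ℝ → ℝ}

theorem mem_dia {e : ℝ × (ℝ × ℝ)} (h : 0 < e.1 ∧ |e.2.1| + |e.2.2| ≤ e.1) :
    (e.2.1 / e.1, e.2.2 / e.1) ∈ Dia := by
  show |e.2.1 / e.1| + |e.2.2 / e.1| ≤ 1
  rw [abs_div, abs_div, abs_of_pos h.1, ← add_div, div_le_one h.1]
  exact h.2

/-- subadditivity of the perspective of a convex function -/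
theorem persp (hI : ConvexOn ℝ Dia I) {s t : ℝ} {v w : ℝ × ℝ} (hs : 0 < s) (ht : 0 < t)
    (hv : |v.1| + |v.2| ≤ s) (hw : |w.1| + |w.2| ≤ t) :
    (s + t) * I ((v.1 + w.1) / (s + t), (v.2 + w.2) / (s + t)) ≤
      s * I (v.1 / s, v.2 / s) + t * I (w.1 / t, w.2 / t) := by
  have hst : 0 < s + t := by linarith
  have h := hI.2 (mem_dia (e := (s, v)) ⟨hs, hv⟩) (mem_dia (e := (t, w)) ⟨ht, hw⟩)
    (show 0 ≤ s / (s + t) by positivity) (show 0 ≤ t / (s + t) by positivity)
    (by rw [← add_div, div_self hst.ne'])
  simp only [smul_eq_mul, Prod.smul_mk, Prod.mk_add_mk] at h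
  have e1 : s / (s + t) * (v.1 / s) + t / (s + t) * (w.1 / t) = (v.1 + w.1) / (s + t) := by
    field_simp
  have e2 : s / (s + t) * (v.2 / s) + t / (s + t) * (w.2 / t) = (v.2 + w.2) / (s + t) := by
    field_simp
  rw [e1, e2] at h
  have h2 := mul_le_mul_of_nonneg_left h hst.le
  refine h2.trans (le_of_eq ?_)
  field_simp

/-- merging of edges -/
theorem merge (hI : ConvexOn ℝ Dia I) : ∀ P : List (ℝ × (ℝ × ℝ)), P ≠ [] → Fm P →
    0 < (P.map Prod.fst).sum ∧
    |(P.map Prod.snd).sum.1| + |(P.map Prod.snd).sum.2| ≤ (P.map Prod.fst).sum ∧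
    (P.map Prod.fst).sum * I ((P.map Prod.snd).sum.1 / (P.map Prod.fst).sum,
      (P.map Prod.snd).sum.2 / (P.map Prod.fst).sum) ≤ cost I P := by
  intro P
  induction P with
  | nil => intro h; exact absurd rfl h
  | cons e P ih =>
    intro _ hF
    have he := hF e (by simp)
    rcases P.eq_nil_or_concat with h0 | _
    · subst h0
      simp only [List.map_cons, List.map_nil, List.sum_cons, List.sum_nil, add_zero, cost]
      exact ⟨he.1, he.2, le_rfl⟩
    · by_cases hP : P = []
      · subst hP
        simp only [List.map_cons, List.map_nil, List.sum_cons, List.sum_nil, add_zero, cost]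
        exact ⟨he.1, he.2, le_rfl⟩
      · obtain ⟨h1, h2, h3⟩ := ih hP (fun e' he' => hF e' (by simp [he']))
        rw [List.map_cons, List.map_cons, List.sum_cons, List.sum_cons, Prod.fst_add, Prod.snd_add]
        refine ⟨by linarith [he.1], ?_, ?_⟩
        · have a1 := abs_add_le e.2.1 (P.map Prod.snd).sum.1
          have a2 := abs_add_le e.2.2 (P.map Prod.snd).sum.2
          linarith [he.2]
        · have h4 := persp hI he.1 h1 he.2 h2
          have h5 : cost I (e :: P) = e.1 * I (e.2.1 / e.1, e.2.2 / e.1) + cost I P := by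
            simp [cost]
          rw [h5]
          linarith

/-- a first edge where the vertical variation exceeds `d` -/
theorem split (E : List (ℝ × (ℝ × ℝ))) : ∀ d : ℝ, 0 ≤ d → YY (E.map Prod.snd) ≤ d ∨
    ∃ P f Q, E = P ++ f :: Q ∧ YY (P.map Prod.snd) ≤ d ∧
      d < YY (P.map Prod.snd) + |f.2.2| := by
  induction E with
  | nil =>
    intro d hd
    left
    simpa using hd
  | cons e E ih =>
    intro d hd
    by_cases h : d < |e.2.2|
    · right
      exact ⟨[], e, E, rfl, by simpa using hd, by simpa using h⟩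
    · rcases ih (d - |e.2.2|) (by linarith) with h1 | ⟨P, f, Q, h1, h2, h3⟩
      · left
        rw [List.map_cons, YY_cons]
        linarith
      · right
        refine ⟨e :: P, f, Q, by rw [h1]; rfl, ?_, ?_⟩
        · rw [List.map_cons, YY_cons]
          linarith
        · rw [List.map_cons, YY_cons]
          linarith

/-- a list of at most one edge with the same sum -/
theorem one (hI : ConvexOn ℝ Dia I) (P : List (ℝ × (ℝ × ℝ))) (hF : Fm P) :
    ∃ G : List (ℝ × (ℝ × ℝ)), G.length ≤ 1 ∧ Fm G ∧
      (G.map Prod.fst).sum = (P.map Prod.fst).sum ∧ (G.map Prod.snd).sum = (P.map Prod.snd).sum ∧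
      cost I G ≤ cost I P ∧ S2 (G.map Prod.snd) = 0 := by
  by_cases hP : P = []
  · subst hP
    exact ⟨[], by simp, hF, rfl, rfl, le_rfl, rfl⟩
  · obtain ⟨h1, h2, h3⟩ := merge hI P hP hF
    refine ⟨[((P.map Prod.fst).sum, (P.map Prod.snd).sum)], by simp, ?_, by simp, by simp, ?_, ?_⟩
    · intro e he
      rw [List.mem_singleton] at he
      subst he
      exact ⟨h1, h2⟩
    · simpa [cost] using h3
    · simp [S2, det]

/-- **grouping** -/
theorem group (hI : ConvexOn ℝ Dia I) {d : ℝ} (hd : 0 < d) : ∀ (k : ℕ) (E : List (ℝ × (ℝ × ℝ))),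
    E.length ≤ k → Fm E → ∃ G : List (ℝ × (ℝ × ℝ)), Fm G ∧
      (G.map Prod.fst).sum = (E.map Prod.fst).sum ∧ (G.map Prod.snd).sum = (E.map Prod.snd).sum ∧
      cost I G ≤ cost I E ∧
      S2 (E.map Prod.snd) ≤ S2 (G.map Prod.snd) + d * XX (E.map Prod.snd) ∧
      (G.length : ℝ) ≤ 2 * YY (E.map Prod.snd) / d + 1 := by
  intro k
  induction k with
  | zero =>
    intro E hE _
    have : E = [] := List.length_eq_zero_iff.1 (by omega)
    subst this
    exact ⟨[], by intro e he; simp at he, rfl, rfl, le_rfl, by simp [S2], by simp⟩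
  | succ k ih =>
    intro E hE hF
    rcases split E d hd.le with h | ⟨P, f, Q, h1, h2, h3⟩
    · obtain ⟨G, g1, g2, g3, g4, g5, g6⟩ := one hI E hF
      refine ⟨G, g2, g3, g4, g5, ?_, ?_⟩
      · rw [g6]
        have h4 := S2_le (E.map Prod.snd)
        have h5 := mul_le_mul_of_nonneg_left h (XX_nonneg (E.map Prod.snd))
        have h6 := le_abs_self (S2 (E.map Prod.snd))
        linarith
      · have h4 : (G.length : ℝ) ≤ 1 := by exact_mod_cast g1
        have h5 : 0 ≤ 2 * YY (E.map Prod.snd) / d :=
          div_nonneg (mul_nonneg (by norm_num) (YY_nonneg _)) hd.le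
        linarith
    · subst h1
      have hFP : Fm P := fun e he => hF e (by simp [he])
      have hFf := hF f (by simp)
      have hFQ : Fm Q := fun e he => hF e (by simp [he])
      obtain ⟨G, g1, g2, g3, g4, g5, g6⟩ := one hI P hFP
      obtain ⟨H, k1, k2, k3, k4, k5, k6⟩ := ih Q (by
        rw [List.length_append, List.length_cons] at hE
        omega) hFQ
      refine ⟨G ++ f :: H, ?_, ?_, ?_, ?_, ?_, ?_⟩
      · intro e he
        rw [List.mem_append, List.mem_cons] at he
        rcases he with he | rfl | he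
        · exact g2 e he
        · exact hFf
        · exact k1 e he
      · simp only [List.map_append, List.map_cons, List.sum_append, List.sum_cons]
        rw [g3, k2]
      · simp only [List.map_append, List.map_cons, List.sum_append, List.sum_cons]
        rw [g4, k3]
      · have e1 : ∀ A B : List (ℝ × (ℝ × ℝ)), cost I (A ++ f :: B) = cost I A +
            (f.1 * I (f.2.1 / f.1, f.2.2 / f.1) + cost I B) := by
          intro A B
          simp [cost]
        rw [e1, e1]
        linarith
      · simp only [List.map_append, List.map_cons, ModR1.S2_append, S2, List.sum_cons, XX_append,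
          XX_cons]
        rw [g4, k3, g6]
        have h4 := S2_le (P.map Prod.snd)
        have h5 := mul_le_mul_of_nonneg_left h2 (XX_nonneg (P.map Prod.snd))
        have h6 := le_abs_self (S2 (P.map Prod.snd))
        have h7 := mul_nonneg hd.le (abs_nonneg f.2.1)
        linarith
      · have e1 : ((G ++ f :: H).length : ℝ) = G.length + H.length + 1 := by
          rw [List.length_append, List.length_cons]
          push_cast
          ring
        have h4 : (G.length : ℝ) ≤ 1 := by exact_mod_cast g1
        rw [e1]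
        simp only [List.map_append, List.map_cons, YY_append, YY_cons]
        have h5 : 2 ≤ 2 * (YY (P.map Prod.snd) + |f.2.2|) / d := by
          rw [le_div_iff₀ hd]
          linarith
        have h6 : 2 * (YY (P.map Prod.snd) + (|f.2.2| + YY (Q.map Prod.snd))) / d =
            2 * (YY (P.map Prod.snd) + |f.2.2|) / d + 2 * YY (Q.map Prod.snd) / d := by
          ring
        rw [h6]
        linarith

end Pool.Agent.H26.UN
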