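import Pool.Agent.H26.UN.Up
import Pool.Agent.H26.WS.GT

/-!
Stability of Wulff's inequality, uniformly in the body.
-/

set_option autoImplicit false

open MeasureTheory Set Filter Topology Metric
open scoped ENNReal Pointwise

namespace Pool.Agent.H26.UN

open Pool.Agent.T6.H44
open Pool.Agent.T6.H44.AR (det Refl Swp sup)
open Pool.Agent.H26.WS

/-- the class of the normalised bodies -/
def Cl (K : Set (ℝ × ℝ)) : Prop :=
  Convex ℝ K ∧ IsCompact K ∧ Refl K ∧ Swp K ∧ closedBall (0 : ℝ × ℝ) (1 / 4) ⊆ K ∧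
    K ⊆ closedBall 0 1

theorem fat {D : Set (ℝ × ℝ)} (hc : Convex ℝ D) {ρ : ℝ} (hρ : 0 < ρ)
    (hb : closedBall (0 : ℝ × ℝ) ρ ⊆ D) {x y : ℝ × ℝ} (hy : y ∈ D) {ε : ℝ} (h : dist x y ≤ ε) :
    x ∈ (1 + ε / ρ) • D := by
  have hε : 0 ≤ ε := dist_nonneg.trans h
  rw [hc.add_smul zero_le_one (by positivity), one_smul]
  refine ⟨y, hy, x - y, ?_, by simp⟩
  rw [dist_eq_norm] at h
  rcases hε.eq_or_lt with h0 | h0
  · refine ⟨0, hb (mem_closedBall_self hρ.le), ?_⟩
    have h1 : x - y = 0 := norm_le_zero_iff.1 (by rw [h0]; exact h)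
    simp only [smul_zero]
    exact h1.symm
  · refine ⟨(ρ / ε) • (x - y), hb ?_, ?_⟩
    · rw [mem_closedBall_zero_iff, norm_smul, Real.norm_of_nonneg (by positivity)]
      have h1 : ρ / ε * ‖x - y‖ ≤ ρ / ε * ε := mul_le_mul_of_nonneg_left h (by positivity)
      have h2 : ρ / ε * ε = ρ := by field_simp
      linarith
    · simp only [smul_smul]
      have h2 : ε / ρ * (ρ / ε) = 1 := by field_simp
      rw [h2, one_smul]

theorem sup_sub {D K : Set (ℝ × ℝ)} (hD : D.Nonempty) (hK : IsCompact K) {c : ℝ} (hc : 0 ≤ c)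
    (h : D ⊆ c • K) (v : ℝ × ℝ) : sup D v ≤ c * sup K v := by
  have h1 : sup D v = sSup ((fun h : ℝ × ℝ => h.1 * v.1 + h.2 * v.2) '' D) := rfl
  rw [h1]
  apply csSup_le (hD.image _)
  rintro _ ⟨x, hx, rfl⟩
  obtain ⟨k, hk, rfl⟩ := h hx
  have h2 := mul_le_mul_of_nonneg_left (le_sup hK v hk) hc
  simp only [Prod.smul_fst, Prod.smul_snd, smul_eq_mul]
  linarith

/-- points which are limits -/
theorem mem_lim {K : ℕ → Set (ℝ × ℝ)} {D : Set (ℝ × ℝ)} (hK : ∀ k, IsCompact (K k))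
    (hD : IsCompact D) (hDn : D.Nonempty)
    (hlim : Tendsto (fun k => hausdorffDist (K k) D) atTop (𝓝 0)) {x : ℝ × ℝ}
    (h : ∀ k, ∃ y ∈ K k, dist x y ≤ hausdorffDist (K k) D) : x ∈ D := by
  have hcl : x ∈ closure D := by
    rw [mem_closure_iff_infDist_zero hDn]
    apply le_antisymm _ infDist_nonneg
    have h1 : Tendsto (fun k => 2 * hausdorffDist (K k) D) atTop (𝓝 (2 * 0)) := hlim.const_mul 2
    rw [mul_zero] at h1
    refine ge_of_tendsto' h1 ?_
    intro k
    obtain ⟨y, hy, hxy⟩ := h k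
    obtain ⟨z, hz, hyz⟩ := near (hK k) hD hDn hy
    have h2 := infDist_le_dist_of_mem (x := x) hz
    have h3 := dist_triangle x y z
    linarith
  rwa [hD.isClosed.closure_eq] at hcl

theorem cl_lim {K : ℕ → Set (ℝ × ℝ)} {D : Set (ℝ × ℝ)} (hK : ∀ k, Cl (K k))
    (hD : IsCompact D) (hDn : D.Nonempty)
    (hlim : Tendsto (fun k => hausdorffDist (K k) D) atTop (𝓝 0)) : Cl D := by
  have hKc : ∀ k, IsCompact (K k) := fun k => (hK k).2.1
  have hKn : ∀ k, (K k).Nonempty := fun k => ⟨0, (hK k).2.2.2.2.1 (mem_closedBall_self (by norm_num))⟩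
  have hn1 : ∀ k, ∀ x ∈ D, ∃ y ∈ K k, dist x y ≤ hausdorffDist (K k) D := by
    intro k x hx
    obtain ⟨y, hy, h⟩ := near hD (hKc k) (hKn k) hx
    exact ⟨y, hy, by rwa [hausdorffDist_comm] at h⟩
  refine ⟨?_, hD, ?_, ?_, ?_, ?_⟩
  · intro x hx y hy a b ha hb hab
    apply mem_lim hKc hD hDn hlim
    intro k
    obtain ⟨x', hx', hxx⟩ := hn1 k x hx
    obtain ⟨y', hy', hyy⟩ := hn1 k y hy
    refine ⟨_, (hK k).1 hx' hy' ha hb hab, ?_⟩
    rw [dist_eq_norm] at hxx hyy ⊢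
    have e : a • x + b • y - (a • x' + b • y') = a • (x - x') + b • (y - y') := by
      rw [smul_sub, smul_sub]
      abel
    rw [e]
    refine (norm_add_le _ _).trans ?_
    rw [norm_smul, norm_smul, Real.norm_of_nonneg ha, Real.norm_of_nonneg hb]
    have h3 := mul_le_mul_of_nonneg_left hxx ha
    have h4 := mul_le_mul_of_nonneg_left hyy hb
    calc a * ‖x - x'‖ + b * ‖y - y'‖ ≤ a * hausdorffDist (K k) D + b * hausdorffDist (K k) D :=
          add_le_add h3 h4
      _ = hausdorffDist (K k) D := by rw [← add_mul, hab, one_mul]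
  · intro x hx
    have hd : ∀ (y : ℝ × ℝ), dist ((-x.1, x.2) : ℝ × ℝ) (-y.1, y.2) = dist x y := by
      intro y
      simp only [Prod.dist_eq, Real.dist_eq]
      congr 1
      rw [← abs_neg]
      congr 1
      ring
    have hd' : ∀ (y : ℝ × ℝ), dist ((x.1, -x.2) : ℝ × ℝ) (y.1, -y.2) = dist x y := by
      intro y
      simp only [Prod.dist_eq, Real.dist_eq]
      congr 1
      rw [← abs_neg]
      congr 1
      ring
    constructor
    · apply mem_lim hKc hD hDn hlim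
      intro k
      obtain ⟨y, hy, h⟩ := hn1 k x hx
      exact ⟨_, ((hK k).2.2.1 y hy).1, by rw [hd]; exact h⟩
    · apply mem_lim hKc hD hDn hlim
      intro k
      obtain ⟨y, hy, h⟩ := hn1 k x hx
      exact ⟨_, ((hK k).2.2.1 y hy).2, by rw [hd']; exact h⟩
  · intro x hx
    apply mem_lim hKc hD hDn hlim
    intro k
    obtain ⟨y, hy, h⟩ := hn1 k x hx
    refine ⟨_, (hK k).2.2.2.1 y hy, ?_⟩
    have : dist ((x.2, x.1) : ℝ × ℝ) (y.2, y.1) = dist x y := by
      simp only [Prod.dist_eq]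
      exact max_comm _ _
    rw [this]
    exact h
  · intro x hx
    apply mem_lim hKc hD hDn hlim
    intro k
    exact ⟨x, (hK k).2.2.2.2.1 hx, by rw [dist_self]; exact hausdorffDist_nonneg⟩
  · intro x hx
    rw [mem_closedBall_zero_iff]
    have h1 : Tendsto (fun k => 1 + hausdorffDist (K k) D) atTop (𝓝 (1 + 0)) := hlim.const_add 1
    rw [add_zero] at h1
    refine ge_of_tendsto' h1 ?_
    intro k
    obtain ⟨y, hy, h⟩ := hn1 k x hx
    have h2 : ‖y‖ ≤ 1 := mem_closedBall_zero_iff.1 ((hK k).2.2.2.2.2 hy)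
    have h3 : ‖x‖ ≤ ‖x - y‖ + ‖y‖ := by
      have := norm_add_le (x - y) y
      rwa [sub_add_cancel] at this
    rw [dist_eq_norm] at h
    linarith

/-- **stability of Wulff's inequality, uniformly in the body** -/
theorem gtu {δ : ℝ} (hδ : 0 < δ) (Rad : ℝ) :
    ∃ η : ℝ, 0 < η ∧ ∀ K : Set (ℝ × ℝ), Cl K → ∀ (L : List (ℝ × ℝ)) (C : Set (ℝ × ℝ)),
      Convex ℝ C → IsCompact C → C.Nonempty → C ⊆ closedBall 0 Rad →
      volume.real K ≤ volume.real C → (L.map (sup K)).sum ≤ 2 * volume.real K + η →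
      (∀ v, ∀ x ∈ C, ∀ x' ∈ C,
        2 * det v (x - x') ≤ (L.map (fun l => |det v l|)).sum + η * ‖v‖) →
      ∃ w, hausdorffDist C ((fun x => x + w) '' K) < δ := by
  by_contra hcon
  push Not at hcon
  have hex : ∀ k : ℕ, ∃ K : Set (ℝ × ℝ), Cl K ∧ ∃ (L : List (ℝ × ℝ)) (C : Set (ℝ × ℝ)),
      Convex ℝ C ∧ IsCompact C ∧ C.Nonempty ∧ C ⊆ closedBall 0 Rad ∧
      volume.real K ≤ volume.real C ∧
      (L.map (sup K)).sum ≤ 2 * volume.real K + 1 / ((k : ℝ) + 1) ∧
      (∀ v, ∀ x ∈ C, ∀ x' ∈ C,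
        2 * det v (x - x') ≤ (L.map (fun l => |det v l|)).sum + 1 / ((k : ℝ) + 1) * ‖v‖) ∧
      ∀ w, δ ≤ hausdorffDist C ((fun x => x + w) '' K) := by
    intro k
    obtain ⟨K, g0, L, C, g1, g2, g3, g4, g5, g6, g7, g8⟩ := hcon (1 / ((k : ℝ) + 1)) (by positivity)
    exact ⟨K, g0, L, C, g1, g2, g3, g4, g5, g6, g7, g8⟩
  choose K hK L C hCv hCc hCn hCb hCvol hL hw hfar using hex
  have hKn : ∀ k, (K k).Nonempty := fun k => ⟨0, (hK k).2.2.2.2.1 (mem_closedBall_self (by norm_num))⟩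
  obtain ⟨D, hD, hDn, φ, hφ, hlim⟩ := sel K (fun k => (hK k).2.1) hKn (fun k => (hK k).2.2.2.2.2)
  have hDC : Cl D := cl_lim (K := fun k => K (φ k)) (fun k => hK (φ k)) hD hDn hlim
  have hint : (0 : ℝ × ℝ) ∈ interior D := by
    rw [mem_interior_iff_mem_nhds]
    exact Filter.mem_of_superset (closedBall_mem_nhds 0 (by norm_num)) hDC.2.2.2.2.1
  obtain ⟨η, hη, hgt⟩ := gt hDC.1 hD hint hDC.2.2.1 hDC.2.2.2.1 (lam := 1) one_pos
    (show 0 < δ / 2 by linarith) Rad
  rw [one_pow, one_smul] at hgt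
  simp only [one_mul, mul_one] at hgt
  have hη' : Tendsto (fun k : ℕ => 1 / ((φ k : ℝ) + 1)) atTop (𝓝 0) :=
    tendsto_one_div_add_atTop_nhds_zero_nat.comp hφ.tendsto_atTop
  -- the factor
  have hc : Tendsto (fun k => 1 + hausdorffDist (K (φ k)) D / (1 / 4)) atTop (𝓝 (1 + 0 / (1 / 4))) :=
    (hlim.div_const _).const_add 1
  rw [zero_div, add_zero] at hc
  have ev1 : ∀ᶠ k in atTop, (1 + hausdorffDist (K (φ k)) D / (1 / 4)) ^ 2 *
      (volume.real D - η) < volume.real D := by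
    have h1 : Tendsto (fun k => (1 + hausdorffDist (K (φ k)) D / (1 / 4)) ^ 2 *
      (volume.real D - η)) atTop (𝓝 (1 ^ 2 * (volume.real D - η))) := (hc.pow 2).mul_const _
    apply h1.eventually_lt_const
    linarith
  have ev2 : ∀ᶠ k in atTop, (1 + hausdorffDist (K (φ k)) D / (1 / 4)) *
      (2 * ((1 + hausdorffDist (K (φ k)) D / (1 / 4)) ^ 2 * volume.real D) +
        1 / ((φ k : ℝ) + 1)) < 2 * volume.real D + η := by
    have h1 : Tendsto (fun k => (1 + hausdorffDist (K (φ k)) D / (1 / 4)) *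
      (2 * ((1 + hausdorffDist (K (φ k)) D / (1 / 4)) ^ 2 * volume.real D) +
        1 / ((φ k : ℝ) + 1))) atTop (𝓝 (1 * (2 * (1 ^ 2 * volume.real D) + 0))) :=
      hc.mul ((((hc.pow 2).mul_const _).const_mul 2).add hη')
    apply h1.eventually_lt_const
    linarith
  have ev3 := hη'.eventually_lt_const hη
  have ev4 := hlim.eventually_lt_const (show 0 < δ / 2 by linarith)
  obtain ⟨k, e1, e2, e3, e4⟩ := (ev1.and (ev2.and (ev3.and ev4))).exists
  obtain ⟨c, hcd⟩ : ∃ c, c = 1 + hausdorffDist (K (φ k)) D / (1 / 4) := ⟨_, rfl⟩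
  have hh0 : 0 ≤ hausdorffDist (K (φ k)) D := hausdorffDist_nonneg
  have hc1 : 1 ≤ c := by
    rw [hcd]
    have : 0 ≤ hausdorffDist (K (φ k)) D / (1 / 4) := by positivity
    linarith
  rw [← hcd] at e1 e2
  have hKD : K (φ k) ⊆ c • D := by
    intro x hx
    obtain ⟨y, hy, h⟩ := near (hK (φ k)).2.1 hD hDn hx
    rw [hcd]
    exact fat hDC.1 (by norm_num) hDC.2.2.2.2.1 hy h
  have hDK : D ⊆ c • K (φ k) := by
    intro x hx
    obtain ⟨y, hy, h⟩ := near hD (hK (φ k)).2.1 (hKn _) hx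
    rw [hausdorffDist_comm] at h
    rw [hcd]
    exact fat (hK (φ k)).1 (by norm_num) (hK (φ k)).2.2.2.2.1 hy h
  have hvKD : volume.real (K (φ k)) ≤ c ^ 2 * volume.real D := by
    rw [← vol_smul]
    exact measureReal_mono hKD (hD.smul c).measure_lt_top.ne
  have hvDK : volume.real D ≤ c ^ 2 * volume.real (K (φ k)) := by
    rw [← vol_smul]
    exact measureReal_mono hDK ((hK (φ k)).2.1.smul c).measure_lt_top.ne
  have hcp : 0 < c ^ 2 := by positivity
  obtain ⟨w, hwd⟩ := hgt (L (φ k)) (C (φ k)) (hCv _) (hCc _) (hCn _) (hCb _)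
    (by
      have h1 := hCvol (φ k)
      have h2 : c ^ 2 * (volume.real D - η) < c ^ 2 * volume.real (K (φ k)) := by linarith
      have h3 := lt_of_mul_lt_mul_left h2 hcp.le
      linarith)
    (by
      have h1 := list_sum_le (L (φ k)) (sup D) (sup (K (φ k))) c
        (fun l => sup_sub hDn (hK (φ k)).2.1 (by linarith) hDK l)
      have h2 := mul_le_mul_of_nonneg_left (hL (φ k)) (show 0 ≤ c by linarith)
      have h3 : c * (2 * volume.real (K (φ k)) + 1 / ((φ k : ℝ) + 1)) ≤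
          c * (2 * (c ^ 2 * volume.real D) + 1 / ((φ k : ℝ) + 1)) := by
        apply mul_le_mul_of_nonneg_left _ (by linarith)
        linarith
      linarith)
    (by
      intro v x hx x' hx'
      have h1 := hw (φ k) v x hx x' hx'
      have h2 := mul_le_mul_of_nonneg_right e3.le (norm_nonneg v)
      linarith)
  have h1 := hfar (φ k) w
  have h2 : hausdorffDist ((fun x => x + w) '' D) ((fun x => x + w) '' K (φ k)) =
      hausdorffDist D (K (φ k)) := hausdorffDist_image (isometry_add_right w)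
  have h3 : hausdorffDist (C (φ k)) ((fun x => x + w) '' K (φ k)) ≤
      hausdorffDist (C (φ k)) ((fun x => x + w) '' D) +
        hausdorffDist ((fun x => x + w) '' D) ((fun x => x + w) '' K (φ k)) := by
    apply hausdorffDist_triangle
    have hDw : IsCompact ((fun x => x + w) '' D) := hD.image (by fun_prop)
    exact hausdorffEDist_ne_top_of_nonempty_of_bounded (hCn _) (hDn.image _)
      (hCc _).isBounded hDw.isBounded
  rw [h2, hausdorffDist_comm (s := D)] at h3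
  linarith

end Pool.Agent.H26.UN
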