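import Pool.Agent.H26.UN.Lat
import Pool.Agent.H26.AR.Ldp

/-!
The tail of the area from below, uniformly.
-/

set_option autoImplicit false

namespace Pool.Agent.H26.UN

open Pool.Agent.T6.H44 Pool.Agent.T6.H44.PG
open Pool.Agent.TH795.EP (a)
open Pool.Agent.TH795.EP2 (q q_pos q_mul q_mono)
open Pool.Agent.Y981.L2 (Lam Rate par ln an ln_le)
open H981 (mu)
open Pool.Agent.H26.WF (g rho)

theorem low_F : ∃ K : ℝ, 0 ≤ K ∧ ∀ n : ℕ, 2 ≤ n → ∀ F : List (ℕ × (ℤ × ℤ)),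
    (∀ e ∈ F, e.2 ≠ 0 ∧ 2 ≤ e.1 ∧ (e.2.1 + e.2.2 - e.1) % 2 = 0 ∧
      |e.2.1| + |e.2.2| ≤ (e.1 : ℤ)) →
    (F.map Prod.fst).sum ≤ 2 * n → (F.map Prod.snd).sum = 0 → ∀ A : ℝ, 0 < A →
    A ≤ ((AR.S2 (F.map Prod.snd) : ℤ) : ℝ) / 2 - 2 * (((F.map Prod.snd).map AR.l1).sum : ℤ) →
    0 < par n A ∧
    -(F.map (fun e => (e.1 : ℝ) * Rate ((e.2.1 : ℝ) / e.1, (e.2.2 : ℝ) / e.1))).sum -
      K * (F.length + 1) * Real.log ((2 * n : ℕ) : ℝ) ^ 2 ≤ Real.log (par n A) := by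
  obtain ⟨K1, hK1, h1⟩ := low_geo
  obtain ⟨K2, hK2, h2⟩ := a_lower
  obtain ⟨K3, hK3, h3⟩ := ln_le
  refine ⟨K1 + K2 + K3, by positivity, ?_⟩
  intro n hn2 F hF2 hF3 hF4 A hA hF5
  have hnpos : (0 : ℝ) < n := by exact_mod_cast (by omega : 0 < n)
  have hmu := H981.mu_pos
  have g1 := h1 n hn2 F (fun e he => (hF2 e he).1) hF3 hF4 _ hA hF5
  have g2 := prod_lower h2 (2 * n) F (fun e he => by
    obtain ⟨f1, f2, f3, f4⟩ := hF2 e he
    refine ⟨?_, f1, f2, f3, f4⟩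
    have : e.1 ≤ (F.map Prod.fst).sum := List.single_le_sum (by simp) _ (List.mem_map_of_mem he)
    omega)
  obtain ⟨g3, g4⟩ := h3 n hn2
  obtain ⟨G, hG⟩ : ∃ G, G = (F.map (fun e => (a e.1 e.2.1 e.2.2 : ℝ) / mu ^ e.1)).prod := ⟨_, rfl⟩
  rw [← hG] at g1 g2
  obtain ⟨X, hX⟩ : ∃ X : ℝ, X = (an n ⌈A⌉₊ : ℝ) := ⟨_, rfl⟩
  rw [← hX] at g1
  obtain ⟨c1, hc1⟩ : ∃ c1, c1 = (F.map (fun e => (e.1 : ℝ) *
    Rate ((e.2.1 : ℝ) / e.1, (e.2.2 : ℝ) / e.1))).sum := ⟨_, rfl⟩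
  rw [← hc1] at g2 ⊢
  have hX0 : 0 ≤ X := by rw [hX]; exact Nat.cast_nonneg _
  have q1 := q_pos (2 * n) (K2 * F.length)
  have q3 := q_pos (2 * n) (K2 * F.length + K1 * (F.length + 1))
  have hkey : Real.exp (-c1) * mu ^ (2 * n) ≤
      q (2 * n) (K2 * F.length + K1 * (F.length + 1)) * X := by
    calc Real.exp (-c1) * mu ^ (2 * n) ≤ (q (2 * n) (K2 * F.length) * G) * mu ^ (2 * n) :=
          mul_le_mul_of_nonneg_right g2 (pow_pos hmu _).le
      _ = q (2 * n) (K2 * F.length) * (G * mu ^ (2 * n)) := by ring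
      _ ≤ q (2 * n) (K2 * F.length) * (q (2 * n) (K1 * (F.length + 1)) * X) :=
          mul_le_mul_of_nonneg_left g1 q1.le
      _ = q (2 * n) (K2 * F.length + K1 * (F.length + 1)) * X := by rw [← mul_assoc, q_mul]
  have hXpos : 0 < X := by
    by_contra hcon
    have hX' : X = 0 := le_antisymm (not_lt.1 hcon) hX0
    rw [hX', mul_zero] at hkey
    have : 0 < Real.exp (-c1) * mu ^ (2 * n) := by positivity
    linarith
  have hpar : par n A = X / ln n := by rw [par_real, hX]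
  have hpos : 0 < par n A := by
    rw [hpar]
    exact div_pos hXpos g3
  refine ⟨hpos, ?_⟩
  rw [hpar, Real.log_div hXpos.ne' g3.ne']
  have l1 : -c1 + (2 * n : ℕ) * Real.log mu ≤
      (K2 * F.length + K1 * (F.length + 1)) * Real.log ((2 * n : ℕ) : ℝ) ^ 2 + Real.log X := by
    have := Real.log_le_log (by positivity) hkey
    rw [Real.log_mul (Real.exp_pos _).ne' (pow_pos hmu _).ne', Real.log_exp, Real.log_pow,
      Real.log_mul q3.ne' hXpos.ne'] at this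
    unfold q at this
    rwa [Real.log_exp] at this
  have l2 : Real.log (ln n) ≤ (2 * n : ℕ) * Real.log mu + K3 * Real.log ((2 * n : ℕ) : ℝ) ^ 2 := by
    have := Real.log_le_log g3 g4
    rw [Real.log_mul (pow_pos hmu _).ne' (q_pos _ _).ne', Real.log_pow] at this
    unfold q at this
    rw [Real.log_exp] at this
    refine this.trans ?_
    have f1 : Real.log (n : ℝ) ≤ Real.log ((2 * n : ℕ) : ℝ) := by
      apply Real.log_le_log hnpos
      push_cast
      linarith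
    have f2 : 0 ≤ Real.log (n : ℝ) := Real.log_nonneg (by exact_mod_cast (by omega : 1 ≤ n))
    have f3 := mul_le_mul_of_nonneg_left (pow_le_pow_left₀ f2 f1 2) hK3
    linarith
  obtain ⟨L, hL⟩ : ∃ L, L = Real.log ((2 * n : ℕ) : ℝ) ^ 2 := ⟨_, rfl⟩
  rw [← hL] at l1 l2 ⊢
  have hL0 : 0 ≤ L := by rw [hL]; positivity
  obtain ⟨m, hm⟩ : ∃ m : ℝ, m = F.length := ⟨_, rfl⟩
  rw [← hm] at l1 ⊢
  have hm0 : 0 ≤ m := by rw [hm]; exact Nat.cast_nonneg _
  have e1 : 0 ≤ K3 * m * L := by positivity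
  have e2 : 0 ≤ K2 * L := by positivity
  have e3 : (K1 + K2 + K3) * (m + 1) * L = (K2 * m + K1 * (m + 1)) * L + K3 * m * L + K2 * L +
    K3 * L := by ring
  rw [e3]
  linarith

theorem par_anti' {n : ℕ} (hn : 1 ≤ n) {A B : ℝ} (h : A ≤ B) : par n B ≤ par n A := by
  rw [← WF.pr_Ici, ← WF.pr_Ici]
  exact WF.pr_mono hn (Set.Ici_subset_Ici.2 h)

/-- **the uniform lower bound** -/
theorem low {ε : ℝ} (hε : 0 < ε) (hε1 : ε ≤ 1) : ∃ (C : ℝ) (n₀ : ℕ), 0 < C ∧ 2 ≤ n₀ ∧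
    ∀ n : ℕ, n₀ ≤ n → ∀ r : ℝ, 0 < r → (1 + ε) * r < 1 / 2 →
    0 < par n ((r * n) ^ 2) ∧
    -(n * rho ((1 + ε) * r)) - C * Real.log n ^ 2 ≤ Real.log (par n ((r * n) ^ 2)) := by
  obtain ⟨K, hK, hlow⟩ := low_F
  obtain ⟨N, C0, hC0, hlat⟩ := lat hε hε1
  obtain ⟨n₀, hn₀⟩ := exists_nat_ge (4 * C0 + 3)
  have hmu := WF.log_mu_nonneg
  obtain ⟨C, hC⟩ : ∃ C, C = 4 * (K * (N + 1)) + C0 + 8 * C0 * Real.log mu + 1 := ⟨_, rfl⟩
  have hN0 : (0 : ℝ) ≤ N := Nat.cast_nonneg N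
  have hn₀3 : 3 ≤ n₀ := by
    have : (3 : ℝ) ≤ n₀ := by linarith
    exact_mod_cast this
  refine ⟨C, n₀, by rw [hC]; positivity, by omega, ?_⟩
  have key : ∀ n : ℕ, n₀ ≤ n → ∀ r : ℝ, 0 < r → (1 + ε) * r < 1 / 2 → C0 ≤ r * n →
      0 < par n ((r * n) ^ 2) ∧ -(n * rho ((1 + ε) * r)) -
        (4 * (K * (N + 1)) + C0) * Real.log n ^ 2 ≤ Real.log (par n ((r * n) ^ 2)) := by
    intro n hn r hr hr1 hrn
    have hn3 : 3 ≤ n := by omega
    have hn3' : (3 : ℝ) ≤ n := by exact_mod_cast hn3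
    obtain ⟨F, f1, f2, f3, f4, f5, f6⟩ := hlat n r hr hr1 hrn
    have hA : 0 < (r * n) ^ 2 := by positivity
    obtain ⟨p1, p2⟩ := hlow n (by omega) F f2 f3 f4 _ hA f5
    refine ⟨p1, ?_⟩
    have hlog1 : 1 ≤ Real.log n := by
      rw [Real.le_log_iff_exp_le (by linarith)]
      have := Real.exp_one_lt_d9
      linarith
    have hlog2 : Real.log ((2 * n : ℕ) : ℝ) ^ 2 ≤ 4 * Real.log n ^ 2 := by
      have h1 : Real.log ((2 * n : ℕ) : ℝ) ≤ 2 * Real.log n := by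
        push_cast
        rw [Real.log_mul (by norm_num) (by linarith)]
        have : Real.log 2 ≤ Real.log n := Real.log_le_log (by norm_num) (by linarith)
        linarith
      have h0 : 0 ≤ Real.log ((2 * n : ℕ) : ℝ) := Real.log_nonneg (by
        push_cast
        linarith)
      have h2 := pow_le_pow_left₀ h0 h1 2
      have e : (2 * Real.log n) ^ 2 = 4 * Real.log n ^ 2 := by ring
      linarith
    have hlen : (F.length : ℝ) ≤ N := by exact_mod_cast f1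
    have h1 : K * (F.length + 1) * Real.log ((2 * n : ℕ) : ℝ) ^ 2 ≤
        K * (N + 1) * (4 * Real.log n ^ 2) := by
      apply mul_le_mul _ hlog2 (by positivity) (by positivity)
      apply mul_le_mul_of_nonneg_left _ hK
      linarith
    have h2 : C0 ≤ C0 * Real.log n ^ 2 := by
      have : 1 ≤ Real.log n ^ 2 := one_le_pow₀ hlog1
      have := mul_le_mul_of_nonneg_left this hC0.le
      linarith
    linarith
  intro n hn r hr hr1
  have hn3 : 3 ≤ n := by omega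
  have hn3' : (3 : ℝ) ≤ n := by exact_mod_cast hn3
  have hnC : 4 * C0 + 3 ≤ n := hn₀.trans (by exact_mod_cast hn)
  have hlog1 : 1 ≤ Real.log n := by
    rw [Real.le_log_iff_exp_le (by linarith)]
    have := Real.exp_one_lt_d9
    linarith
  have hL1 : 1 ≤ Real.log n ^ 2 := one_le_pow₀ hlog1
  have hCm : 0 ≤ 8 * C0 * Real.log mu * Real.log n ^ 2 := by positivity
  rcases le_or_gt C0 (r * n) with h | h
  · obtain ⟨p1, p2⟩ := key n hn r hr hr1 h
    refine ⟨p1, ?_⟩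
    rw [hC]
    linarith
  · obtain ⟨s, hs⟩ : ∃ s, s = C0 / n := ⟨_, rfl⟩
    have hs0 : 0 < s := by rw [hs]; positivity
    have hsn : s * n = C0 := by rw [hs]; field_simp
    have hs4 : 4 * s ≤ 1 := by
      have : 4 * s * n ≤ 1 * n := by
        have e : 4 * s * n = 4 * C0 := by rw [← hsn]; ring
        linarith
      exact le_of_mul_le_mul_right this (by linarith)
    have hs1 : (1 + ε) * s < 1 / 2 ∨ (1 + ε) * s = 1 / 2 := by
      have h1 : (1 + ε) * s ≤ 2 * s := by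
        have := mul_le_mul_of_nonneg_right hε1 hs0.le
        linarith
      rcases (show (1 + ε) * s ≤ 1 / 2 by linarith).lt_or_eq with h2 | h2
      · exact Or.inl h2
      · exact Or.inr h2
    have hs1' : (1 + ε) * s < 1 / 2 := by
      have h1 : (1 + ε) * s ≤ 2 * s := by
        have := mul_le_mul_of_nonneg_right hε1 hs0.le
        linarith
      have h2 : 4 * s * n < 1 * n := by
        have e : 4 * s * n = 4 * C0 := by rw [← hsn]; ring
        linarith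
      have h3 : 4 * s < 1 := lt_of_mul_lt_mul_right h2 (by linarith)
      linarith
    obtain ⟨p1, p2⟩ := key n hn s hs0 hs1' hsn.ge
    have hle : (r * n) ^ 2 ≤ (s * n) ^ 2 := by
      apply pow_le_pow_left₀ (by positivity)
      rw [hsn]
      exact h.le
    have hpar := par_anti' (show 1 ≤ n by omega) hle
    refine ⟨p1.trans_le hpar, ?_⟩
    have h3 := Real.log_le_log p1 hpar
    have h4 : n * rho ((1 + ε) * s) ≤ 8 * C0 * Real.log mu := by
      have h5 := WF.rho_scale (r := (1 + ε) * s) (s := 1 / 2) (by positivity) hs1'.le le_rfl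
        (by norm_num)
      rw [WF.rho_half] at h5
      have h6 : (1 + ε) * s / (1 / 2) * (2 * Real.log mu) = 4 * (1 + ε) * Real.log mu * s := by
        ring
      rw [h6] at h5
      have h7 := mul_le_mul_of_nonneg_left h5 (Nat.cast_nonneg (α := ℝ) n)
      have h8 : (n : ℝ) * (4 * (1 + ε) * Real.log mu * s) = 4 * (1 + ε) * (Real.log mu * C0) := by
        rw [← hsn]
        ring
      rw [h8] at h7
      have h9 : 4 * (1 + ε) * (Real.log mu * C0) ≤ 4 * (1 + 1) * (Real.log mu * C0) := by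
        apply mul_le_mul_of_nonneg_right _ (by positivity)
        linarith
      linarith
    have h10 := WF.rho_nonneg (r := (1 + ε) * r) (by positivity) hr1.le
    have h11 : 0 ≤ (n : ℝ) * rho ((1 + ε) * r) := by positivity
    have h12 : 8 * C0 * Real.log mu * 1 ≤ 8 * C0 * Real.log mu * Real.log n ^ 2 :=
      mul_le_mul_of_nonneg_left hL1 (by positivity)
    rw [hC]
    linarith

end Pool.Agent.H26.UN
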