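import Pool.Agent.H26.UN.Low

/-!
Explicit lower bound of the rate function: the scales at which the uniform bounds are sharp.
-/

set_option autoImplicit false

open Filter Topology Set

namespace Pool.Agent.H26.UN

open Pool.Agent.T6.H53.WL (Yv)
open Pool.Agent.H26.WF (rho RR)
open Pool.Agent.Y981.L2 (Rate)

theorem rho_ge : ∃ C : ℝ, 1 ≤ C ∧ ∀ s : ℝ, 0 < s → s < 1 / 2 → Real.exp (-(C * Yv s)) ≤ rho s := by
  obtain ⟨C, hC, h⟩ := T6.H53.WL.R_lower
  refine ⟨C, hC, ?_⟩
  intro s hs hs1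
  have hu : 0 < s ^ 2 := by positivity
  have hu4 : s ^ 2 < 1 / 4 := by nlinarith
  have ht := WF.tendsto_par hu hu4
  have hle : 2 * Rate (s, s) ≤ RR (s ^ 2) := by
    apply le_of_forall_pos_le_add
    intro ε hε
    have h2 := le_of_tendsto ht (by
      filter_upwards [Pool.Agent.T6.H53.AL.area_rate hu hu4 hε] with n hn
      exact hn.2)
    rw [Real.sqrt_sq hs.le] at h2
    linarith
  have hd : ((s, s) : ℝ × ℝ) ∈ Y981.L2.Dia := by
    show |s| + |s| ≤ 1
    rw [abs_of_pos hs]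
    linarith
  have h3 := Y981.L2.R_le_rate hd
  simp only [abs_of_pos hs] at h3
  have h4 := h s hs (by linarith)
  have h5 := (Real.exp_pos (-(C * Yv s))).le
  rw [WF.rho_eq hs.le]
  linarith

theorem scale_ok : ∃ a : ℝ, 0 < a ∧ ∀ᶠ n : ℕ in atTop, ∀ u : ℝ, 0 < u → u < 1 / 4 →
    (n : ℝ) ^ (-(a / Real.log (Real.log n))) ≤ u → √(n : ℝ) ≤ n * RR u := by
  obtain ⟨C, hC, h⟩ := rho_ge
  obtain ⟨a, ha⟩ : ∃ a, a = 1 / (4 * C) := ⟨_, rfl⟩
  have ha0 : 0 < a := by rw [ha]; positivity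
  have ha1 : a ≤ 1 := by
    rw [ha, div_le_one (by positivity)]
    linarith
  have haC : a * (4 * C) = 1 := by
    rw [ha]
    field_simp
  refine ⟨a, ha0, ?_⟩
  have hl : Tendsto (fun n : ℕ => Real.log (n : ℝ)) atTop atTop :=
    Real.tendsto_log_atTop.comp tendsto_natCast_atTop_atTop
  have hll : Tendsto (fun n : ℕ => Real.log (Real.log (n : ℝ))) atTop atTop :=
    Real.tendsto_log_atTop.comp hl
  have hq : Tendsto (fun n : ℕ => Real.log (Real.log (n : ℝ)) / Real.log n) atTop (𝓝 0) :=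
    (Real.isLittleO_log_id_atTop.tendsto_div_nhds_zero).comp hl
  filter_upwards [hll.eventually_ge_atTop 1, hl.eventually_ge_atTop 1,
    hq.eventually_lt_const (show 0 < a / 2 by linarith), eventually_ge_atTop 2]
    with n h1 h2 h3 hn u hu hu4 hnu
  have hn0 : (0 : ℝ) < n := by exact_mod_cast (by omega : 0 < n)
  obtain ⟨l, hld⟩ : ∃ l, l = Real.log (n : ℝ) := ⟨_, rfl⟩
  rw [← hld] at h1 h2 h3 hnu
  obtain ⟨k, hkd⟩ : ∃ k, k = Real.log l := ⟨_, rfl⟩
  rw [← hkd] at h1 h3 hnu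
  have hl0 : 0 < l := by linarith
  have hk0 : 0 < k := by linarith
  rw [div_lt_iff₀ hl0] at h3
  have hs0 : 0 < √u := Real.sqrt_pos.2 hu
  have hs1 : √u < 1 / 2 := by
    rw [Real.sqrt_lt' (by norm_num)]
    linarith
  have h4 := h √u hs0 hs1
  rw [← WF.RR_eq hu.le] at h4
  -- the logarithm
  have h5 : Real.log (1 / u) ≤ a * l / k := by
    have h6 : Real.log ((n : ℝ) ^ (-(a / k))) ≤ Real.log u := Real.log_le_log (by positivity) hnu
    rw [Real.log_rpow hn0, ← hld] at h6
    rw [one_div, Real.log_inv]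
    have h7 : -(a / k) * l = -(a * l / k) := by ring
    rw [h7] at h6
    linarith
  have h6 : Real.log (1 / √u) ≤ a * l / k / 2 := by
    have : Real.log (1 / √u) = Real.log (1 / u) / 2 := by
      rw [one_div, one_div, Real.log_inv, Real.log_inv, Real.log_sqrt hu.le]
      ring
    rw [this]
    linarith
  have h0 := T6.H53.WL.log_inv_nonneg hs0 (by linarith : √u ≤ 1)
  obtain ⟨t, ht⟩ : ∃ t, t = Real.log (1 / √u) := ⟨_, rfl⟩
  rw [← ht] at h0 h6
  have h7 : 1 ≤ a * l / k / 2 := by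
    rw [le_div_iff₀ (by norm_num), le_div_iff₀ hk0]
    linarith
  have h8 : 1 + t ≤ a * l / k := by linarith
  have h9 : a * l / k ≤ l := by
    rw [div_le_iff₀ hk0]
    have e1 : a * l ≤ 1 * l := mul_le_mul_of_nonneg_right ha1 hl0.le
    have e2 : l * 1 ≤ l * k := mul_le_mul_of_nonneg_left h1 hl0.le
    linarith
  have h10 : Real.log (1 + t) ≤ k := by
    rw [hkd]
    exact Real.log_le_log (by linarith) (h8.trans h9)
  have h11 : Yv √u ≤ 2 * a * l := by
    unfold Yv
    rw [← ht]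
    have e1 : (1 + t) * (1 + Real.log (1 + t)) ≤ a * l / k * (1 + k) := by
      apply mul_le_mul h8 (by linarith) _ (by positivity)
      have := Real.log_nonneg (show 1 ≤ 1 + t by linarith)
      linarith
    have e2 : a * l / k * (1 + k) = a * l / k + a * l := by field_simp
    have e3 : a * l / k ≤ a * l := by
      rw [div_le_iff₀ hk0]
      exact le_mul_of_one_le_right (by positivity) h1
    linarith
  have h12 : C * Yv √u ≤ l / 2 := by
    have e1 := mul_le_mul_of_nonneg_left h11 (show 0 ≤ C by linarith)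
    have e2 : C * (2 * a * l) = a * (4 * C) * l / 2 := by ring
    rw [e2, haC] at e1
    linarith
  have h13 : Real.exp (-(l / 2)) ≤ RR u := le_trans (Real.exp_le_exp.2 (by linarith)) h4
  have h14 : √(n : ℝ) = n * Real.exp (-(l / 2)) := by
    have e1 : Real.exp (l / 2) = √(n : ℝ) := by
      rw [← Real.exp_log (Real.sqrt_pos.2 hn0), Real.log_sqrt hn0.le, ← hld]
    rw [Real.exp_neg, e1]
    have e2 : (n : ℝ) = √n * √n := (Real.mul_self_sqrt hn0.le).symm
    have e3 : 0 < √(n : ℝ) := Real.sqrt_pos.2 hn0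
    conv_rhs => rw [e2]
    rw [Real.sqrt_mul_self e3.le]
    field_simp
  rw [h14]
  exact mul_le_mul_of_nonneg_left h13 hn0.le

end Pool.Agent.H26.UN
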