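import Pool.Agent.H26.UN.Rnd
import Pool.Agent.H26.WS.Max

/-!
Uniform lattice approximation of nearly optimal polygons.
-/

set_option autoImplicit false

namespace Pool.Agent.H26.UN

open Pool.Agent.T6.H44 Pool.Agent.T6.H44.AR
open Pool.Agent.Y981.L2 (Lam Rate psi mass)
open H981 (mu)
open Pool.Agent.H26.WF (g rho)

theorem cost_cons (I : ℝ × ℝ → ℝ) (e : ℝ × (ℝ × ℝ)) (L : List (ℝ × (ℝ × ℝ))) :
    cost I (e :: L) = e.1 * I (e.2.1 / e.1, e.2.2 / e.1) + cost I L := by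
  simp [cost]

/-- the extreme points in the directions of the axes -/
theorem mass_mem {E : ℝ} (hE : 0 < E) : ((mass E, 0) : ℝ × ℝ) ∈ WF.Kc E := by
  have hm := Y981.L2.mass_pos hE
  have hc : IsClosed {h : ℝ | ((h, 0) : ℝ × ℝ) ∈ WF.Kc E} :=
    (WF.Kc_props hE).2.1.isClosed.preimage (by fun_prop)
  have hsub : Set.Ico 0 (mass E) ⊆ {h : ℝ | ((h, 0) : ℝ × ℝ) ∈ WF.Kc E} := by
    intro h hh
    exact Y981.L2.psi_le_of_lt hE.le hh.1 hh.2
  have h2 := hc.closure_subset_iff.2 hsub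
  rw [closure_Ico hm.ne] at h2
  exact h2 ⟨hm.le, le_rfl⟩

theorem mass_var {E : ℝ} (hE : 0 < E) (L : List (ℝ × (ℝ × ℝ))) : Fm L →
    mass E * XX (L.map Prod.snd) ≤ cost Rate L + E * (L.map Prod.fst).sum ∧
    mass E * YY (L.map Prod.snd) ≤ cost Rate L + E * (L.map Prod.fst).sum := by
  have hm := Y981.L2.mass_pos hE
  have key : ∀ h : ℝ × ℝ, Lam h ≤ E → ∀ e : ℝ × (ℝ × ℝ), 0 < e.1 ∧ |e.2.1| + |e.2.2| ≤ e.1 →
      h.1 * e.2.1 + h.2 * e.2.2 ≤ e.1 * Rate (e.2.1 / e.1, e.2.2 / e.1) + E * e.1 := by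
    intro h hh e he
    have h1 := Y981.L2.le_rate (mem_dia he) h
    simp only at h1
    have h2 := mul_le_mul_of_nonneg_left h1 he.1.le
    have h3 := mul_le_mul_of_nonneg_left hh he.1.le
    have h4 : e.1 * (h.1 * (e.2.1 / e.1) + h.2 * (e.2.2 / e.1) - Lam h) =
        h.1 * e.2.1 + h.2 * e.2.2 - e.1 * Lam h := by
      have := he.1.ne'
      field_simp
    rw [h4] at h2
    linarith
  have k1 : Lam (mass E, 0) ≤ E := mass_mem hE
  have k2 : Lam (-mass E, 0) ≤ E := by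
    have := Y981.L2.Lam_sg (mass E, 0)
    simp only at this
    rw [this]
    exact k1
  have k3 : Lam (0, mass E) ≤ E := by
    have := Y981.L2X.Lam_sw (mass E, 0)
    simp only at this
    rw [this]
    exact k1
  have k4 : Lam (0, -mass E) ≤ E := by
    have := Y981.L2.Lam_ng (0, mass E)
    simp only at this
    rw [this]
    exact k3
  induction L with
  | nil => intro _; simp [cost]
  | cons e L ih =>
    intro hF
    have he := hF e (by simp)
    obtain ⟨i1, i2⟩ := ih (fun e' he' => hF e' (by simp [he']))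
    rw [cost_cons, List.map_cons, List.map_cons, List.sum_cons, XX_cons, YY_cons, mul_add, mul_add,
      mul_add]
    have a1 := key _ k1 e he
    have a2 := key _ k2 e he
    have a3 := key _ k3 e he
    have a4 := key _ k4 e he
    simp only [zero_mul, add_zero, zero_add] at a1 a2 a3 a4
    have b1 : mass E * |e.2.1| ≤ e.1 * Rate (e.2.1 / e.1, e.2.2 / e.1) + E * e.1 := by
      rcases abs_cases e.2.1 with h | h
      · rw [h.1]; exact a1
      · rw [h.1]; linarith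
    have b2 : mass E * |e.2.2| ≤ e.1 * Rate (e.2.1 / e.1, e.2.2 / e.1) + E * e.1 := by
      rcases abs_cases e.2.2 with h | h
      · rw [h.1]; exact a3
      · rw [h.1]; linarith
    exact ⟨by linarith, by linarith⟩

/-! ### arithmetic -/

theorem ar1 {ε : ℝ} (h0 : 0 < ε) (h1 : ε ≤ 1) :
    1 + ε / 2 ≤ (1 - ε / 8) ^ 2 * (1 - ε / 8) * (1 + ε) ^ 2 := by
  have e2 : 1 - 3 * (ε / 8) ≤ (1 - ε / 8) ^ 2 * (1 - ε / 8) := by
    have : 0 ≤ (ε / 8) ^ 2 * (3 - ε / 8) := mul_nonneg (sq_nonneg _) (by linarith)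
    have e : (1 - ε / 8) ^ 2 * (1 - ε / 8) = 1 - 3 * (ε / 8) + (ε / 8) ^ 2 * (3 - ε / 8) := by ring
    linarith
  have e3 : 1 + 2 * ε ≤ (1 + ε) ^ 2 := by
    have e : (1 + ε) ^ 2 = 1 + 2 * ε + ε ^ 2 := by ring
    have := sq_nonneg ε
    linarith
  have e4 := mul_le_mul e2 e3 (by linarith) (le_trans (by linarith) e2)
  have e5 : (1 - 3 * (ε / 8)) * (1 + 2 * ε) = 1 + ε / 2 + ε * (9 / 8 - 3 / 4 * ε) := by ring
  have e6 : 0 ≤ ε * (9 / 8 - 3 / 4 * ε) := mul_nonneg h0.le (by linarith)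
  linarith

theorem ar2 {ε N X S T l : ℝ} (hN : 0 ≤ N) (hX : 1 ≤ X) (hXC : 48 * N + 160 ≤ ε * X)
    (h1 : -(N * (20 * X + 2)) ≤ S - T) (h2 : (1 + ε / 2) * (2 * X ^ 2) ≤ T)
    (h3 : l ≤ 20 * X + 2 * N) : X ^ 2 ≤ S / 2 - 2 * l := by
  have a1 : (48 * N + 160) * X ≤ ε * X * X := mul_le_mul_of_nonneg_right hXC (by linarith)
  have a2 : N * 1 ≤ N * X := mul_le_mul_of_nonneg_left hX hN
  have e1 : ε * X * X = ε * X ^ 2 := by ring
  have e2 : (1 + ε / 2) * (2 * X ^ 2) = 2 * X ^ 2 + ε * X ^ 2 := by ring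
  have e3 : N * (20 * X + 2) = 20 * (N * X) + 2 * N := by ring
  have e4 : (48 * N + 160) * X = 48 * (N * X) + 160 * X := by ring
  have a3 : 0 ≤ N * X := mul_nonneg hN (by linarith)
  rw [e1, e4] at a1
  rw [e2] at h2
  rw [e3] at h1
  linarith

/-- **uniform lattice approximation** -/
theorem lat {ε : ℝ} (hε : 0 < ε) (hε1 : ε ≤ 1) : ∃ (N : ℕ) (C : ℝ), 0 < C ∧ ∀ n : ℕ, ∀ r : ℝ,
    0 < r → (1 + ε) * r < 1 / 2 → C ≤ r * n →
    ∃ F : List (ℕ × (ℤ × ℤ)), F.length ≤ N ∧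
      (∀ e ∈ F, e.2 ≠ 0 ∧ 2 ≤ e.1 ∧ (e.2.1 + e.2.2 - e.1) % 2 = 0 ∧
        |e.2.1| + |e.2.2| ≤ (e.1 : ℤ)) ∧
      (F.map Prod.fst).sum ≤ 2 * n ∧ (F.map Prod.snd).sum = 0 ∧
      (r * n) ^ 2 ≤ ((S2 (F.map Prod.snd) : ℤ) : ℝ) / 2 -
        2 * (((F.map Prod.snd).map l1).sum : ℤ) ∧
      (F.map (fun e => (e.1 : ℝ) * Rate ((e.2.1 : ℝ) / e.1, (e.2.2 : ℝ) / e.1))).sum ≤
        n * rho ((1 + ε) * r) + C := by
  obtain ⟨δ, hδ⟩ : ∃ δ, δ = ε / 20 := ⟨_, rfl⟩
  have hδ0 : 0 < δ := by rw [hδ]; linarith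
  obtain ⟨N, hN⟩ := exists_nat_ge (10 / δ + 1)
  obtain ⟨B, hB⟩ : ∃ B, B = Real.log mu := ⟨_, rfl⟩
  have hB0 : 0 ≤ B := by rw [hB]; exact WF.log_mu_nonneg
  have hN0 : (0 : ℝ) ≤ N := Nat.cast_nonneg N
  obtain ⟨C, hC⟩ : ∃ C : ℝ, C = 1 + 2 * B * N + 32 * N / ε + 4 * (12 * N + 40) / ε + 16 * N / ε + 1 :=
    ⟨_, rfl⟩
  have c1 : 0 ≤ 32 * N / ε := by positivity
  have c2 : 0 ≤ 4 * (12 * N + 40) / ε := by positivity
  have c3 : 0 ≤ 2 * B * N := by positivity
  have c4 : 0 ≤ 16 * N / ε := by positivity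
  refine ⟨N, C, by rw [hC]; linarith, ?_⟩
  intro n r hr hr1 hCr
  have hn0 : (0 : ℝ) < n := by
    by_contra hcon
    have : (n : ℝ) = 0 := le_antisymm (not_lt.1 hcon) (Nat.cast_nonneg n)
    rw [this, mul_zero] at hCr
    linarith
  have hr12 : r < 1 / 2 := by
    have : 0 < ε * r := by positivity
    linarith
  obtain ⟨r', hr'⟩ : ∃ r', r' = (1 + ε) * r := ⟨_, rfl⟩
  rw [← hr'] at hr1 ⊢
  have hr'0 : 0 < r' := by rw [hr']; positivity
  obtain ⟨E, hE, hEmax⟩ := WF.exists_max hr'0 hr1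
  have hmE := Y981.L2.mass_pos hE
  have hu : 0 < r' ^ 2 := by positivity
  have hu4 : r' ^ 2 < 1 / 4 := by
    have : r' ^ 2 < (1 / 2) ^ 2 := pow_lt_pow_left₀ hr1 hr'0.le (by norm_num)
    linarith
  have hPhi : PG.Phi (r' ^ 2) = rho r' := by
    rw [WF.rho_eq hr'0.le]
    exact (WF.wulff hu hu4).2
  obtain ⟨η, hη⟩ : ∃ η : ℝ, η = min (1 / (n : ℝ)) (r' * mass E) := ⟨_, rfl⟩
  have hη0 : 0 < η := by rw [hη]; exact lt_min (by positivity) (by positivity)
  have hη1 : η ≤ 1 / (n : ℝ) := by rw [hη]; exact min_le_left _ _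
  have hη2 : η ≤ r' * mass E := by rw [hη]; exact min_le_right _ _
  obtain ⟨E0, hE0, hE0c⟩ := PG.exists_near hu4.le hη0
  rw [hPhi] at hE0c
  obtain ⟨a1, a2, a3, a4⟩ := hE0
  have hF0 : Fm E0 := a1
  have hgm := WF.g_le_mass hE
  -- the variations
  have hvar : ∀ L : List (ℝ × (ℝ × ℝ)), Fm L → (L.map Prod.fst).sum = 2 →
      cost Rate L ≤ rho r' + η → XX (L.map Prod.snd) ≤ 5 * r' ∧ YY (L.map Prod.snd) ≤ 5 * r' := by
    intro L hL hL2 hLc
    obtain ⟨b1, b2⟩ := mass_var hE L hL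
    rw [hL2] at b1 b2
    have b3 : cost Rate L + E * 2 ≤ mass E * (5 * r') := by
      have h1 : r' * g E ≤ r' * (2 * mass E) := mul_le_mul_of_nonneg_left hgm hr'0.le
      have h2 : r' * (2 * mass E) = 2 * (r' * mass E) := by ring
      have h3 : mass E * (5 * r') = 5 * (r' * mass E) := by ring
      rw [h3]
      linarith
    exact ⟨le_of_mul_le_mul_left (b1.trans b3) hmE, le_of_mul_le_mul_left (b2.trans b3) hmE⟩
  obtain ⟨b1, b2⟩ := hvar E0 hF0 a2 hE0c
  -- grouping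
  obtain ⟨G, g1, g2, g3, g4, g5, g6⟩ := group Y981.L2.convex_rate (d := δ * r') (by positivity)
    E0.length E0 le_rfl hF0
  rw [a2] at g2
  rw [a3] at g3
  obtain ⟨b3, b4⟩ := hvar G g1 g2 (g4.trans hE0c)
  have hGlen : (G.length : ℝ) ≤ N := by
    refine g6.trans (le_trans ?_ hN)
    have : 2 * YY (E0.map Prod.snd) / (δ * r') ≤ 10 / δ := by
      rw [div_le_div_iff₀ (by positivity) hδ0]
      have := mul_le_mul_of_nonneg_right b2 hδ0.le
      linarith
    linarith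
  have hGlen' : G.length ≤ N := by exact_mod_cast hGlen
  have hS : (2 - 5 * δ) * r' ^ 2 ≤ S2 (G.map Prod.snd) := by
    have h1 : δ * r' * XX (E0.map Prod.snd) ≤ δ * r' * (5 * r') :=
      mul_le_mul_of_nonneg_left b1 (by positivity)
    have h2 : δ * r' * (5 * r') = 5 * δ * r' ^ 2 := by ring
    linarith
  -- rounding
  obtain ⟨lam, hlam⟩ : ∃ lam, lam = 1 - ε / 8 := ⟨_, rfl⟩
  have hlam0 : 0 < lam := by rw [hlam]; linarith
  have hσ : 0 < lam * n := by positivity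
  obtain ⟨p1, p2, p3, p4, p5, p6, p7⟩ := rd_props (I := Rate) Y981.L2.convex_rate
    Y981.L2.R_zero (fun _ hv => PG.rate_nonneg hv) (B := B)
    (fun _ hv => by rw [hB]; exact Y981.L2.rate_le hv) hσ G g1 (0, 0)
  obtain ⟨F, hF⟩ : ∃ F, F = rd (lam * n) (0, 0) G := ⟨_, rfl⟩
  rw [← hF] at p1 p2 p3 p4 p5 p6 p7
  have hCr2 : C ≤ n := by
    have := mul_le_mul_of_nonneg_right hr12.le hn0.le
    linarith
  have v1 : lam * n * (XX (G.map Prod.snd) + YY (G.map Prod.snd)) ≤ 10 * (r' * n) := by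
    have h1 : XX (G.map Prod.snd) + YY (G.map Prod.snd) ≤ 10 * r' := by linarith
    have h2 := mul_le_mul_of_nonneg_left h1 hσ.le
    have h3 : lam * n * (10 * r') ≤ 10 * (r' * n) := by
      have h4 : 0 ≤ ε * (r' * n) := by positivity
      have h5 : lam * n * (10 * r') = 10 * (r' * n) - 10 / 8 * (ε * (r' * n)) := by
        rw [hlam]
        ring
      linarith
    linarith
  have hr'2 : r' * n ≤ 2 * (r * n) := by
    have h1 : 0 < r * n := by positivity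
    have h2 : r' * n = r * n + ε * (r * n) := by rw [hr']; ring
    have h3 : ε * (r * n) ≤ 1 * (r * n) := mul_le_mul_of_nonneg_right hε1 h1.le
    linarith
  refine ⟨F, by omega, p1, ?_, ?_, ?_, ?_⟩
  · -- the length
    rw [g2] at p4
    have h1 : (((F.map Prod.fst).sum : ℕ) : ℝ) ≤ 2 * n := by
      have h2 : 16 * (N : ℝ) / ε ≤ n := by
        have : 16 * (N : ℝ) / ε ≤ C := by rw [hC]; linarith
        linarith
      rw [div_le_iff₀ hε] at h2
      have h3 : lam * n * 2 = 2 * n - n * ε / 4 := by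
        rw [hlam]
        ring
      rw [h3] at p4
      linarith
    exact_mod_cast h1
  · rw [p3, g3]
    simp [fd]
  · -- the area
    have h1 := (abs_le.1 p5).1
    have h2 : (G.length : ℝ) * (lam * n * (XX (G.map Prod.snd) + YY (G.map Prod.snd)) + 2) ≤
        N * (10 * (r' * n) + 2) := by
      apply mul_le_mul hGlen (by linarith) _ hN0
      have := mul_nonneg hσ.le (add_nonneg (XX_nonneg (G.map Prod.snd)) (YY_nonneg (G.map Prod.snd)))
      linarith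
    have h3 : (lam * n) ^ 2 * ((2 - 5 * δ) * r' ^ 2) ≤ (lam * n) ^ 2 * S2 (G.map Prod.snd) :=
      mul_le_mul_of_nonneg_left hS (by positivity)
    obtain ⟨X, hX⟩ : ∃ X, X = r * n := ⟨_, rfl⟩
    have hX1 : 1 ≤ X := by rw [hX]; linarith
    have hXC : C ≤ X := by rw [hX]; exact hCr
    have h4 : (1 + ε / 2) * (2 * X ^ 2) ≤ (lam * n) ^ 2 * ((2 - 5 * δ) * r' ^ 2) := by
      have e1 : (lam * n) ^ 2 * ((2 - 5 * δ) * r' ^ 2) =
          (lam ^ 2 * (1 - ε / 8) * (1 + ε) ^ 2) * (2 * X ^ 2) := by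
        rw [hX, hr', hδ]
        ring
      rw [e1]
      apply mul_le_mul_of_nonneg_right _ (by positivity)
      rw [hlam]
      exact ar1 hε hε1
    rw [← hX]
    have hr'X : r' * n ≤ 2 * X := by rw [hX]; exact hr'2
    have h5 : ((((F.map Prod.snd).map l1).sum : ℤ) : ℝ) ≤ 20 * X + 2 * N := by
      refine p7.trans ?_
      linarith
    have h6 : (N : ℝ) * (10 * (r' * n) + 2) ≤ N * (20 * X + 2) := by
      apply mul_le_mul_of_nonneg_left _ hN0
      linarith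
    have h7 : 48 * (N : ℝ) + 160 ≤ ε * X := by
      have h8 : 4 * (12 * (N : ℝ) + 40) / ε ≤ X := by
        have : 4 * (12 * (N : ℝ) + 40) / ε ≤ C := by rw [hC]; linarith
        linarith
      rw [div_le_iff₀ hε] at h8
      linarith
    exact ar2 hN0 hX1 h7 (by linarith) (h4.trans h3) h5
  · -- the cost
    have h1 : 2 * B * (G.length : ℝ) ≤ 2 * B * N := mul_le_mul_of_nonneg_left hGlen (by positivity)
    have h2 : lam * n * cost Rate G ≤ n * (rho r' + η) := by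
      have h3 := PG.cost_nonneg (u := S2 (G.map Prod.snd) / 2) (E := G)
        ⟨g1, g2, g3, by linarith⟩
      have h4 := g4.trans hE0c
      have h5 : lam * cost Rate G ≤ rho r' + η := by
        have h6 : lam * cost Rate G ≤ 1 * cost Rate G := by
          apply mul_le_mul_of_nonneg_right _ h3
          rw [hlam]
          linarith
        linarith
      have := mul_le_mul_of_nonneg_left h5 hn0.le
      linarith
    have h3 : (n : ℝ) * η ≤ 1 := by
      have := mul_le_mul_of_nonneg_left hη1 hn0.le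
      rwa [mul_one_div_cancel hn0.ne'] at this
    rw [mul_add] at h2
    rw [hC]
    linarith

end Pool.Agent.H26.UN
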