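import Pool.Agent.H26.UN.Skel

/-!
The exponential moment of the length of the skeleton.
-/

set_option autoImplicit false

namespace Pool.Agent.H26.UN

open Pool.Agent.T6.H44 Pool.Agent.T6.H44.PG
open Pool.Agent.TH795.EP Pool.Agent.TH795.EP2 Pool.Agent.TH795.SE2 Pool.Agent.TH262.SawL
  Pool.Agent.Y981.L2 H981 Finset
open Pool.Agent.H26.WF (Kc)

/-- the length of the skeleton in the norm with the dual ball `Kc E` -/
noncomputable def tl (E : ℝ) (L : List (ℤ × ℤ)) : ℝ := (L.map (ta E)).sum

/-- the exponential moment -/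
noncomputable def Zs (E θ : ℝ) (l : ℤ) (M : ℕ) : ℝ :=
  ∑ w ∈ fs Saw M, Real.exp (θ * tl E (sk l (0, 0) w))

theorem Zs_nonneg (E θ : ℝ) (l : ℤ) (M : ℕ) : 0 ≤ Zs E θ l M :=
  Finset.sum_nonneg fun _ _ => (Real.exp_pos _).le

open Classical in
theorem Zs_rec {E θ : ℝ} {l : ℤ} (hl : 1 ≤ l) (M : ℕ) :
    Zs E θ l M ≤ ∑ w ∈ fs Saw M, Real.exp (θ * ta E (dx w, dy w)) +
      ∑ m ∈ Finset.Icc 1 M, (∑ u ∈ (fs Saw m).filter (fun u => l ≤ max |dx u| |dy u|),
        Real.exp (θ * ta E (dx u, dy u))) * Zs E θ l (M - m) := by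
  obtain ⟨f, hf⟩ : ∃ f : List St → ℝ, f = fun w => Real.exp (θ * tl E (sk l (0, 0) w)) := ⟨_, rfl⟩
  have hf0 : ∀ w, 0 ≤ f w := fun w => by rw [hf]; exact (Real.exp_pos _).le
  -- the classes
  obtain ⟨A, hA⟩ : ∃ A : ℕ → Finset (List St), A = fun m => (fs Saw M).filter (fun w =>
    1 ≤ m ∧ m ≤ w.length ∧ sk l (0, 0) w = (dx (w.take m), dy (w.take m)) ::
      sk l (0, 0) (w.drop m) ∧ l ≤ max |dx (w.take m)| |dy (w.take m)|) := ⟨_, rfl⟩
  have hcover : ∀ w ∈ fs Saw M, f w ≤ Real.exp (θ * ta E (dx w, dy w)) +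
      ∑ m ∈ Finset.Icc 1 M, if w ∈ A m then f w else 0 := by
    intro w hw
    rcases sk_first w (0, 0) (l := l) (by simp; omega) (by simp; omega) with h | ⟨m, h1, h2, h3, h4⟩
    · have e1 : f w = Real.exp (θ * ta E (dx w, dy w)) := by
        rw [hf]
        simp only
        rw [h]
        simp [tl]
      rw [e1]
      have : 0 ≤ ∑ m ∈ Finset.Icc 1 M, if w ∈ A m then Real.exp (θ * ta E (dx w, dy w)) else 0 := by
        apply Finset.sum_nonneg
        intro m _
        split_ifs
        · exact (Real.exp_pos _).le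
        · exact le_rfl
      linarith
    · simp only [zero_add] at h3 h4
      have hwl := (mem_fs.1 hw).2
      have hm : m ∈ Finset.Icc 1 M := by
        rw [Finset.mem_Icc]
        omega
      have hwA : w ∈ A m := by
        rw [hA]
        simp only
        rw [Finset.mem_filter]
        exact ⟨hw, h1, h2, h3, h4⟩
      have h5 : f w ≤ ∑ m ∈ Finset.Icc 1 M, if w ∈ A m then f w else 0 := by
        have h6 := Finset.single_le_sum (f := fun m => if w ∈ A m then f w else 0)
          (s := Finset.Icc 1 M) (fun i _ => by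
            split_ifs
            · exact hf0 w
            · exact le_rfl) hm
        simp only [if_pos hwA] at h6
        exact h6
      have := (Real.exp_pos (θ * ta E (dx w, dy w))).le
      linarith
  have h1 : Zs E θ l M ≤ ∑ w ∈ fs Saw M, Real.exp (θ * ta E (dx w, dy w)) +
      ∑ w ∈ fs Saw M, ∑ m ∈ Finset.Icc 1 M, if w ∈ A m then f w else 0 := by
    rw [← Finset.sum_add_distrib]
    unfold Zs
    have e : ∀ w, Real.exp (θ * tl E (sk l (0, 0) w)) = f w := fun w => by rw [hf]
    simp only [e]
    exact Finset.sum_le_sum hcover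
  refine h1.trans (add_le_add le_rfl ?_)
  rw [Finset.sum_comm]
  apply Finset.sum_le_sum
  intro m hm
  rw [← Finset.sum_filter]
  have hsub : (fs Saw M).filter (fun w => w ∈ A m) = A m := by
    ext w
    rw [Finset.mem_filter]
    refine ⟨fun h => h.2, fun h => ⟨?_, h⟩⟩
    rw [hA] at h
    exact (Finset.mem_filter.1 h).1
  rw [hsub]
  obtain ⟨U, hU⟩ : ∃ U, U = (fs Saw m).filter (fun u => l ≤ max |dx u| |dy u|) := ⟨_, rfl⟩
  rw [← hU]
  unfold Zs
  rw [Finset.sum_mul_sum, ← Finset.sum_product']
  have hAm : ∀ w ∈ A m, (Saw w ∧ w.length = M) ∧ 1 ≤ m ∧ m ≤ w.length ∧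
      sk l (0, 0) w = (dx (w.take m), dy (w.take m)) :: sk l (0, 0) (w.drop m) ∧
      l ≤ max |dx (w.take m)| |dy (w.take m)| := by
    intro w hw
    rw [hA] at hw
    have := Finset.mem_filter.1 hw
    exact ⟨mem_fs.1 this.1, this.2⟩
  have hinj : Set.InjOn (fun w : List St => (w.take m, w.drop m)) (A m : Set (List St)) := by
    intro w _ w' _ h
    simp only [Prod.mk.injEq] at h
    rw [← List.take_append_drop m w, ← List.take_append_drop m w', h.1, h.2]
  have e1 : ∑ w ∈ A m, f w = ∑ w ∈ A m,
      (fun p : List St × List St => Real.exp (θ * ta E (dx p.1, dy p.1)) *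
        Real.exp (θ * tl E (sk l (0, 0) p.2))) (w.take m, w.drop m) := by
    apply Finset.sum_congr rfl
    intro w hw
    obtain ⟨-, -, -, h3, -⟩ := hAm w hw
    rw [hf]
    simp only
    rw [h3, ← Real.exp_add]
    congr 1
    unfold tl
    rw [List.map_cons, List.sum_cons]
    ring
  have e2 := Finset.sum_image (s := A m) (g := fun w : List St => (w.take m, w.drop m))
    (f := fun p : List St × List St => Real.exp (θ * ta E (dx p.1, dy p.1)) *
      Real.exp (θ * tl E (sk l (0, 0) p.2))) hinj
  rw [e1]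
  refine (le_of_eq e2.symm).trans ?_
  apply Finset.sum_le_sum_of_subset_of_nonneg
  · intro p hp
    rw [Finset.mem_image] at hp
    obtain ⟨w, hw, rfl⟩ := hp
    obtain ⟨⟨g1, g2⟩, -, h2, -, h4⟩ := hAm w hw
    rw [Finset.mem_product, hU, Finset.mem_filter, mem_fs, mem_fs]
    refine ⟨⟨⟨fun v hv => g1 v (hv.trans (List.take_prefix m w).isInfix), ?_⟩, h4⟩,
      fun v hv => g1 v (hv.trans (List.drop_suffix m w).isInfix), ?_⟩
    · simp only [List.length_take]
      omega
    · simp only [List.length_drop]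
      omega
  · intro p _ _
    positivity

/-- **the exponential moment of the length of the skeleton** -/
theorem expmom : ∃ K : ℝ, 0 ≤ K ∧ ∀ E : ℝ, 0 < E → ∀ θ : ℝ, 0 ≤ θ → θ ≤ 1 → ∀ N : ℕ, 2 ≤ N →
    ∀ l : ℤ, 1 ≤ l → K * Real.log N ^ 2 ≤ (1 - θ) * (mass E * l) → ∀ M : ℕ, M ≤ N →
    Zs E θ l M ≤ Real.exp (K * Real.log N ^ 2) * (mu ^ M * Real.exp (E * M)) := by
  classical
  obtain ⟨K, hK, hta⟩ := a_ta
  obtain ⟨K', hK'⟩ : ∃ K', K' = K + 20 := ⟨_, rfl⟩
  refine ⟨K', by rw [hK']; linarith, ?_⟩
  intro E hE θ hθ0 hθ1 N hN l hl hKl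
  have hmu := mu_pos
  have hmass := Y981.L2.mass_pos hE
  have hN2 : (2 : ℝ) ≤ N := by exact_mod_cast hN
  have hlog2 : 0.69 < Real.log 2 := by have := Real.log_two_gt_d9; linarith
  have hlogN : Real.log 2 ≤ Real.log N := Real.log_le_log (by norm_num) hN2
  obtain ⟨G, hG⟩ : ∃ G, G = Real.log N := ⟨_, rfl⟩
  rw [← hG] at hlogN hKl ⊢
  have hG0 : 0.69 < G := by linarith
  have hNe : (N : ℝ) = Real.exp G := by rw [hG, Real.exp_log (by linarith)]
  -- the number of the ends
  have hB : ((2 * N + 1 : ℝ)) ^ 2 ≤ Real.exp (8 * G) := by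
    have h1 : (2 * N + 1 : ℝ) ≤ (N : ℝ) ^ 3 := by
      have e : (N : ℝ) ^ 3 = N * N * N := by ring
      have a1 : 2 * (N : ℝ) ≤ N * N := by nlinarith
      have a2 : 2 * (N * N) ≤ (N : ℝ) * N * N := by nlinarith
      rw [e]
      linarith
    have h2 : (N : ℝ) ^ 3 ≤ Real.exp (4 * G) := by
      rw [hNe, ← Real.exp_nat_mul]
      apply Real.exp_le_exp.2
      push_cast
      linarith
    have h3 : (0 : ℝ) ≤ 2 * N + 1 := by positivity
    have h4 := pow_le_pow_left₀ h3 (h1.trans h2) 2
    rw [← Real.exp_nat_mul] at h4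
    refine h4.trans (Real.exp_le_exp.2 ?_)
    push_cast
    linarith
  have hGG : 0.69 * G ≤ G ^ 2 := by
    rw [sq]
    exact mul_le_mul_of_nonneg_right hG0.le (by linarith)
  -- sums over the ends
  have hsum : ∀ m : ℕ, 1 ≤ m → m ≤ N → ∀ F : ℤ × ℤ → ℝ, ∀ c : ℝ, 0 ≤ c →
      (∀ z, F z ≤ c * Real.exp (ta E z)) → (∑ w ∈ fs Saw m, F (dx w, dy w)) ≤
        Real.exp (8 * G) * (c * (Real.exp (K * G ^ 2) * (mu ^ m * Real.exp (E * m)))) := by
    intro m hm hmN F c hc hF
    rw [sum_ends F m]
    have h1 : ∀ z ∈ Bx m, (a m z.1 z.2 : ℝ) * F z ≤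
        c * (Real.exp (K * G ^ 2) * (mu ^ m * Real.exp (E * m))) := by
      intro z _
      have h2 := hta E hE N m hN hm hmN z
      rw [← hG] at h2
      have h3 := mul_le_mul_of_nonneg_left (hF z) (Nat.cast_nonneg (α := ℝ) (a m z.1 z.2))
      have h4 := mul_le_mul_of_nonneg_left h2 hc
      have e : (a m z.1 z.2 : ℝ) * (c * Real.exp (ta E z)) =
          c * ((a m z.1 z.2 : ℝ) * Real.exp (ta E z)) := by ring
      rw [e] at h3
      exact h3.trans h4
    refine (Finset.sum_le_card_nsmul _ _ _ h1).trans ?_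
    rw [card_Bx, nsmul_eq_mul]
    apply mul_le_mul_of_nonneg_right _ (by positivity)
    refine le_trans ?_ hB
    push_cast
    apply pow_le_pow_left₀ (by positivity)
    have : (m : ℝ) ≤ N := by exact_mod_cast hmN
    linarith
  -- the induction
  intro M
  induction M using Nat.strong_induction_on with
  | _ M ih =>
    intro hMN
    obtain ⟨B, hBd⟩ : ∃ B, B = Real.exp (K' * G ^ 2) := ⟨_, rfl⟩
    rw [← hBd]
    have hBpos : 0 < B := by rw [hBd]; exact Real.exp_pos _
    rcases Nat.eq_zero_or_pos M with h0 | h0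
    · subst h0
      have h1 : fs Saw 0 ⊆ {[]} := by
        intro w hw
        rw [Finset.mem_singleton]
        exact List.length_eq_zero_iff.1 (mem_fs.1 hw).2
      have hd1 : dx ([] : List St) = 0 := rfl
      have hd2 : dy ([] : List St) = 0 := rfl
      have hta0 : ta E (0, 0) = 0 := by
        unfold ta AR.sup
        simp only [Int.cast_zero, mul_zero, add_zero]
        have hne : (Kc E).Nonempty := ⟨_, mass_mem hE⟩
        rw [Set.Nonempty.image_const hne, csSup_singleton]
      unfold Zs
      refine (Finset.sum_le_sum_of_subset_of_nonneg h1 fun _ _ _ => (Real.exp_pos _).le).trans ?_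
      rw [Finset.sum_singleton]
      have e1 : tl E (sk l (0, 0) []) = 0 := by
        simp [sk, tl, hta0]
      rw [e1, mul_zero, Real.exp_zero, pow_zero, Nat.cast_zero, mul_zero, Real.exp_zero, mul_one,
        mul_one, hBd]
      have hK'0 : 0 ≤ K' := by rw [hK']; linarith
      exact Real.one_le_exp (by positivity)
    · refine (Zs_rec hl M).trans ?_
      have hT : 0 < mu ^ M * Real.exp (E * M) := by positivity
      have p1 : (∑ w ∈ fs Saw M, Real.exp (θ * ta E (dx w, dy w))) ≤
          Real.exp (8 * G) * (1 * (Real.exp (K * G ^ 2) * (mu ^ M * Real.exp (E * M)))) := by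
        apply hsum M h0 hMN (fun z => Real.exp (θ * ta E z)) 1 zero_le_one
        intro z
        rw [one_mul]
        apply Real.exp_le_exp.2
        have := ta_nonneg hE z
        have := mul_le_mul_of_nonneg_right hθ1 this
        linarith
      have p2 : ∀ m ∈ Finset.Icc 1 M,
          (∑ u ∈ (fs Saw m).filter (fun u => l ≤ max |dx u| |dy u|),
            Real.exp (θ * ta E (dx u, dy u))) * Zs E θ l (M - m) ≤
          Real.exp (8 * G) * (Real.exp (-(K' * G ^ 2)) * Real.exp (K * G ^ 2)) *
            (B * (mu ^ M * Real.exp (E * M))) := by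
        intro m hm
        rw [Finset.mem_Icc] at hm
        have q1 : (∑ u ∈ (fs Saw m).filter (fun u => l ≤ max |dx u| |dy u|),
            Real.exp (θ * ta E (dx u, dy u))) ≤ Real.exp (8 * G) *
              (Real.exp (-(K' * G ^ 2)) * (Real.exp (K * G ^ 2) *
                (mu ^ m * Real.exp (E * m)))) := by
          rw [Finset.sum_filter]
          refine le_trans (le_of_eq ?_) (hsum m hm.1 (hm.2.trans hMN)
            (fun z => if l ≤ max |z.1| |z.2| then Real.exp (θ * ta E z) else 0)
            (Real.exp (-(K' * G ^ 2))) (Real.exp_pos _).le ?_)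
          · rfl
          · intro z
            split_ifs with hz
            · rw [← Real.exp_add]
              apply Real.exp_le_exp.2
              have h1 := ta_ge hE z
              have h2 : (l : ℝ) ≤ ((max |z.1| |z.2| : ℤ) : ℝ) := by exact_mod_cast hz
              have h3 := mul_le_mul_of_nonneg_left h2 hmass.le
              have h4 := mul_le_mul_of_nonneg_left (h3.trans h1) (show 0 ≤ 1 - θ by linarith)
              linarith
            · positivity
        have q2 := ih (M - m) (by omega) (by omega)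
        rw [← hBd] at q2
        have q3 := mul_le_mul q1 q2 (Zs_nonneg _ _ _ _) (by positivity)
        refine q3.trans (le_of_eq ?_)
        have e1 : mu ^ M = mu ^ m * mu ^ (M - m) := by
          rw [← pow_add]
          congr 1
          omega
        have e2 : Real.exp (E * M) = Real.exp (E * m) * Real.exp (E * ((M - m : ℕ) : ℝ)) := by
          rw [← Real.exp_add]
          congr 1
          rw [Nat.cast_sub hm.2]
          ring
        rw [e1, e2]
        ring
      have p3 := Finset.sum_le_card_nsmul _ _ _ p2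
      rw [Nat.card_Icc, nsmul_eq_mul, add_tsub_cancel_right] at p3
      -- each part is at most one half
      have r1 : Real.exp (8 * G) * (1 * (Real.exp (K * G ^ 2) * (mu ^ M * Real.exp (E * M)))) ≤
          1 / 2 * (B * (mu ^ M * Real.exp (E * M))) := by
        have e : Real.exp (8 * G) * Real.exp (K * G ^ 2) ≤ 1 / 2 * B := by
          have h2 : (1 / 2 : ℝ) = Real.exp (-Real.log 2) := by
            rw [Real.exp_neg, Real.exp_log (by norm_num)]
            norm_num
          rw [hBd, h2, ← Real.exp_add, ← Real.exp_add]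
          apply Real.exp_le_exp.2
          rw [hK']
          have : (K + 20) * G ^ 2 = K * G ^ 2 + 20 * G ^ 2 := by ring
          rw [this]
          linarith
        have := mul_le_mul_of_nonneg_right e hT.le
        linarith
      have r2 : (M : ℝ) * (Real.exp (8 * G) * (Real.exp (-(K' * G ^ 2)) * Real.exp (K * G ^ 2)) *
          (B * (mu ^ M * Real.exp (E * M)))) ≤ 1 / 2 * (B * (mu ^ M * Real.exp (E * M))) := by
        have e : (M : ℝ) * (Real.exp (8 * G) * (Real.exp (-(K' * G ^ 2)) *
            Real.exp (K * G ^ 2))) ≤ 1 / 2 := by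
          have hM' : (M : ℝ) ≤ Real.exp G := by
            rw [← hNe]
            exact_mod_cast hMN
          have h2 : (1 / 2 : ℝ) = Real.exp (-Real.log 2) := by
            rw [Real.exp_neg, Real.exp_log (by norm_num)]
            norm_num
          refine (mul_le_mul_of_nonneg_right hM' (by positivity)).trans ?_
          rw [h2, ← Real.exp_add, ← Real.exp_add, ← Real.exp_add]
          apply Real.exp_le_exp.2
          rw [hK']
          have : -((K + 20) * G ^ 2) + K * G ^ 2 = -(20 * G ^ 2) := by ring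
          rw [this]
          linarith
        have := mul_le_mul_of_nonneg_right e (mul_nonneg hBpos.le hT.le)
        linarith
      linarith

end Pool.Agent.H26.UN
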