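import Pool.Agent.H26.UN.Grp

/-!
Rounding of a polygon to the lattice.
-/

set_option autoImplicit false

namespace Pool.Agent.H26.UN

open Pool.Agent.T6.H44 Pool.Agent.T6.H44.AR

/-- a time with the right parity -/
noncomputable def tm (x : ℝ) (z : ℤ × ℤ) : ℕ :=
  if (z.1 + z.2 - ((⌈x⌉₊ + 2 : ℕ) : ℤ)) % 2 = 0 then ⌈x⌉₊ + 2 else ⌈x⌉₊ + 3

theorem tm_par (x : ℝ) (z : ℤ × ℤ) : (z.1 + z.2 - (tm x z : ℤ)) % 2 = 0 := by
  unfold tm
  split_ifs with h
  · exact h
  · push_cast at h ⊢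
    omega

theorem tm_ge (x : ℝ) (z : ℤ × ℤ) : x + 2 ≤ tm x z := by
  have h := Nat.le_ceil x
  unfold tm
  split_ifs
  · push_cast
    linarith
  · push_cast
    linarith

theorem tm_two (x : ℝ) (z : ℤ × ℤ) : 2 ≤ tm x z := by
  unfold tm
  split_ifs <;> omega

theorem tm_le {x : ℝ} (hx : 0 ≤ x) (z : ℤ × ℤ) : (tm x z : ℝ) ≤ x + 4 := by
  have h := Nat.ceil_lt_add_one hx
  unfold tm
  split_ifs
  · push_cast
    linarith
  · push_cast
    linarith

/-- difference of two integer parts -/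
noncomputable def fd (c s : ℝ) : ℤ := ⌊c + s⌋ - ⌊c⌋

theorem fd_err (c s : ℝ) : |(fd c s : ℝ) - s| ≤ 1 := by
  unfold fd
  push_cast
  rw [abs_le]
  have h1 := Int.floor_le (c + s)
  have h2 := Int.lt_floor_add_one (c + s)
  have h3 := Int.floor_le c
  have h4 := Int.lt_floor_add_one c
  constructor <;> linarith

/-- the rounded list -/
noncomputable def rd (σ : ℝ) : ℝ × ℝ → List (ℝ × (ℝ × ℝ)) → List (ℕ × (ℤ × ℤ))
  | _, [] => []
  | c, e :: L =>
    let z : ℤ × ℤ := (fd c.1 (σ * e.2.1), fd c.2 (σ * e.2.2))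
    if z = 0 then rd σ (c.1 + σ * e.2.1, c.2 + σ * e.2.2) L
    else (tm (σ * e.1) z, z) :: rd σ (c.1 + σ * e.2.1, c.2 + σ * e.2.2) L

variable {I : ℝ × ℝ → ℝ}

theorem I_le (hI : ConvexOn ℝ Dia I) (h0 : I 0 = 0) {B : ℝ} (hB : ∀ v ∈ Dia, I v ≤ B)
    {v : ℝ × ℝ} (hv : v ∈ Dia) : I v ≤ B * (|v.1| + |v.2|) := by
  have hv' : |v.1| + |v.2| ≤ 1 := hv
  obtain ⟨l, hl⟩ : ∃ l, l = |v.1| + |v.2| := ⟨_, rfl⟩
  rw [← hl] at hv' ⊢
  have hl0 : 0 ≤ l := by rw [hl]; positivity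
  rcases hl0.eq_or_lt with h | h
  · have h1 : v.1 = 0 := by
      have := abs_nonneg v.1
      have := abs_nonneg v.2
      exact abs_eq_zero.1 (by linarith)
    have h2 : v.2 = 0 := by
      have := abs_nonneg v.1
      have := abs_nonneg v.2
      exact abs_eq_zero.1 (by linarith)
    have : v = 0 := Prod.ext h1 h2
    rw [this, h0, ← h, mul_zero]
  · have hw : (v.1 / l, v.2 / l) ∈ Dia := mem_dia (e := (l, v)) ⟨h, hl.ge⟩
    have hz : (0 : ℝ × ℝ) ∈ Dia := by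
      show |(0 : ℝ)| + |(0 : ℝ)| ≤ 1
      simp
    have h1 := hI.2 hw hz hl0 (show 0 ≤ 1 - l by linarith) (by ring)
    simp only [smul_eq_mul, h0, mul_zero, add_zero, smul_zero, Prod.smul_mk] at h1
    have e1 : l * (v.1 / l) = v.1 := by field_simp
    have e2 : l * (v.2 / l) = v.2 := by field_simp
    rw [e1, e2] at h1
    have h2 := mul_le_mul_of_nonneg_left (hB _ hw) hl0
    linarith

theorem t_le (hI : ConvexOn ℝ Dia I) (h0 : I 0 = 0) {B : ℝ} (hB : ∀ v ∈ Dia, I v ≤ B) {t : ℝ}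
    (ht : 0 < t) {r : ℝ × ℝ} (hr : |r.1| + |r.2| ≤ t) :
    t * I (r.1 / t, r.2 / t) ≤ B * (|r.1| + |r.2|) := by
  have h1 := I_le hI h0 hB (mem_dia (e := (t, r)) ⟨ht, hr⟩)
  have h2 := mul_le_mul_of_nonneg_left h1 ht.le
  refine h2.trans (le_of_eq ?_)
  simp only
  rw [abs_div, abs_div, abs_of_pos ht]
  field_simp

/-- the properties of the rounded list -/
theorem rd_props (hI : ConvexOn ℝ Dia I) (h0 : I 0 = 0) (hn : ∀ v ∈ Dia, 0 ≤ I v) {B : ℝ}
    (hB : ∀ v ∈ Dia, I v ≤ B) {σ : ℝ} (hσ : 0 < σ) (L : List (ℝ × (ℝ × ℝ))) : Fm L →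
    ∀ c : ℝ × ℝ,
    (∀ e ∈ rd σ c L, e.2 ≠ 0 ∧ 2 ≤ e.1 ∧ (e.2.1 + e.2.2 - e.1) % 2 = 0 ∧
      |e.2.1| + |e.2.2| ≤ (e.1 : ℤ)) ∧
    (rd σ c L).length ≤ L.length ∧
    ((rd σ c L).map Prod.snd).sum = (fd c.1 (σ * (L.map Prod.snd).sum.1),
      fd c.2 (σ * (L.map Prod.snd).sum.2)) ∧
    ((((rd σ c L).map Prod.fst).sum : ℕ) : ℝ) ≤ σ * (L.map Prod.fst).sum + 4 * L.length ∧
    |((S2 ((rd σ c L).map Prod.snd) : ℤ) : ℝ) - σ ^ 2 * S2 (L.map Prod.snd)| ≤
      L.length * (σ * (XX (L.map Prod.snd) + YY (L.map Prod.snd)) + 2) ∧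
    ((rd σ c L).map (fun e => (e.1 : ℝ) * I ((e.2.1 : ℝ) / e.1, (e.2.2 : ℝ) / e.1))).sum ≤
      σ * cost I L + 2 * B * L.length ∧
    ((((rd σ c L).map Prod.snd).map l1).sum : ℝ) ≤
      σ * (XX (L.map Prod.snd) + YY (L.map Prod.snd)) + 2 * L.length := by
  have hB0 : 0 ≤ B := by
    have hz : (0 : ℝ × ℝ) ∈ Dia := by
      show |(0 : ℝ)| + |(0 : ℝ)| ≤ 1
      simp
    have := hB 0 hz
    rwa [h0] at this
  induction L with
  | nil =>
    intro _ c
    refine ⟨by intro e he; simp [rd] at he, by simp [rd], ?_, by simp [rd], by simp [rd, S2],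
      by simp [rd, cost], by simp [rd]⟩
    simp [rd, fd]
    rfl
  | cons e L ih =>
    intro hF c
    have he := hF e (by simp)
    obtain ⟨g1, g2, g3, g4, g5, g6, g7⟩ := ih (fun e' he' => hF e' (by simp [he']))
      (c.1 + σ * e.2.1, c.2 + σ * e.2.2)
    obtain ⟨R, hR⟩ : ∃ R, R = rd σ (c.1 + σ * e.2.1, c.2 + σ * e.2.2) L := ⟨_, rfl⟩
    rw [← hR] at g1 g2 g3 g4 g5 g6 g7
    obtain ⟨z, hz⟩ : ∃ z : ℤ × ℤ, z = (fd c.1 (σ * e.2.1), fd c.2 (σ * e.2.2)) := ⟨_, rfl⟩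
    obtain ⟨m, hm⟩ : ∃ m, m = tm (σ * e.1) z := ⟨_, rfl⟩
    have hrd : rd σ c (e :: L) = if z = 0 then R else (m, z) :: R := by
      rw [hm, hR, hz]
      rfl
    have r1 : |(z.1 : ℝ) - σ * e.2.1| ≤ 1 := by rw [hz]; exact fd_err _ _
    have r2 : |(z.2 : ℝ) - σ * e.2.2| ≤ 1 := by rw [hz]; exact fd_err _ _
    have m1 : σ * e.1 + 2 ≤ m := by rw [hm]; exact tm_ge _ _
    have m2 : (m : ℝ) ≤ σ * e.1 + 4 := by
      rw [hm]
      exact tm_le (mul_nonneg hσ.le he.1.le) _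
    have m3 : (z.1 + z.2 - (m : ℤ)) % 2 = 0 := by rw [hm]; exact tm_par _ _
    have m4 : 2 ≤ m := by rw [hm]; exact tm_two _ _
    have hσe : 0 < σ * e.1 := mul_pos hσ he.1
    have z1 : |(z.1 : ℝ)| ≤ σ * |e.2.1| + 1 := by
      have := abs_add_le ((z.1 : ℝ) - σ * e.2.1) (σ * e.2.1)
      rw [sub_add_cancel, abs_mul, abs_of_pos hσ] at this
      linarith
    have z2 : |(z.2 : ℝ)| ≤ σ * |e.2.2| + 1 := by
      have := abs_add_le ((z.2 : ℝ) - σ * e.2.2) (σ * e.2.2)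
      rw [sub_add_cancel, abs_mul, abs_of_pos hσ] at this
      linarith
    have hzl : |(z.1 : ℝ)| + |(z.2 : ℝ)| ≤ m := by
      have := mul_le_mul_of_nonneg_left he.2 hσ.le
      rw [mul_add] at this
      linarith
    have hzl' : |z.1| + |z.2| ≤ (m : ℤ) := by exact_mod_cast hzl
    have hsum : (z + (R.map Prod.snd).sum) = (fd c.1 (σ * (e.2.1 + (L.map Prod.snd).sum.1)),
        fd c.2 (σ * (e.2.2 + (L.map Prod.snd).sum.2))) := by
      rw [g3, hz]
      unfold fd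
      refine Prod.ext ?_ ?_
      · simp only [Prod.fst_add]
        rw [mul_add, ← add_assoc]
        ring
      · simp only [Prod.snd_add]
        rw [mul_add, ← add_assoc]
        ring
    have q1 : |(((R.map Prod.snd).sum.1 : ℤ) : ℝ) - σ * (L.map Prod.snd).sum.1| ≤ 1 := by
      rw [g3]
      exact fd_err _ _
    have q2 : |(((R.map Prod.snd).sum.2 : ℤ) : ℝ) - σ * (L.map Prod.snd).sum.2| ≤ 1 := by
      rw [g3]
      exact fd_err _ _
    obtain ⟨S, hS⟩ : ∃ S, S = (R.map Prod.snd).sum := ⟨_, rfl⟩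
    obtain ⟨Sg, hSg⟩ : ∃ T, T = (L.map Prod.snd).sum := ⟨_, rfl⟩
    rw [← hS, ← hSg] at q1 q2
    have x1 : |Sg.1| ≤ XX (L.map Prod.snd) := by rw [hSg]; exact sum_XX _
    have x2 : |Sg.2| ≤ YY (L.map Prod.snd) := by rw [hSg]; exact sum_YY _
    -- the change of the area
    have hdet : |((det S z : ℤ) : ℝ) - σ ^ 2 * det Sg e.2| ≤
        σ * (XX ((e :: L).map Prod.snd) + YY ((e :: L).map Prod.snd)) + 2 := by
      rw [List.map_cons, XX_cons, YY_cons]
      unfold det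
      push_cast
      obtain ⟨r, hr⟩ : ∃ r, r = (z.1 : ℝ) - σ * e.2.1 := ⟨_, rfl⟩
      obtain ⟨r', hr'⟩ : ∃ r, r = (z.2 : ℝ) - σ * e.2.2 := ⟨_, rfl⟩
      obtain ⟨p, hp⟩ : ∃ p, p = (S.1 : ℝ) - σ * Sg.1 := ⟨_, rfl⟩
      obtain ⟨p', hp'⟩ : ∃ p, p = (S.2 : ℝ) - σ * Sg.2 := ⟨_, rfl⟩
      rw [← hr] at r1
      rw [← hr'] at r2
      rw [← hp] at q1
      rw [← hp'] at q2
      have e1 : (S.1 : ℝ) * z.2 - S.2 * z.1 - σ ^ 2 * (Sg.1 * e.2.2 - Sg.2 * e.2.1) =
          σ * Sg.1 * r' - σ * Sg.2 * r + σ * e.2.2 * p - σ * e.2.1 * p' + (p * r' - p' * r) := by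
        rw [hr, hr', hp, hp']
        ring
      rw [e1]
      have hb : ∀ a b : ℝ, |b| ≤ 1 → |σ * a * b| ≤ σ * |a| := by
        intro a b hb
        rw [abs_mul, abs_mul, abs_of_pos hσ]
        have := mul_nonneg hσ.le (abs_nonneg a)
        nlinarith
      have b1 := hb Sg.1 r' r2
      have b2 := hb Sg.2 r r1
      have b3 := hb e.2.2 p q1
      have b4 := hb e.2.1 p' q2
      have b5 : |p * r'| ≤ 1 := by
        rw [abs_mul]
        exact mul_le_one₀ q1 (abs_nonneg _) r2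
      have b6 : |p' * r| ≤ 1 := by
        rw [abs_mul]
        exact mul_le_one₀ q2 (abs_nonneg _) r1
      have b7 := mul_le_mul_of_nonneg_left x1 hσ.le
      have b8 := mul_le_mul_of_nonneg_left x2 hσ.le
      rw [abs_le] at b1 b2 b3 b4 b5 b6 ⊢
      constructor <;> linarith [b1.1, b1.2, b2.1, b2.2, b3.1, b3.2, b4.1, b4.2, b5.1, b5.2, b6.1, b6.2]
    have hS2 : |((det S z + S2 (R.map Prod.snd) : ℤ) : ℝ) -
        σ ^ 2 * S2 ((e :: L).map Prod.snd)| ≤ ((e :: L).length : ℝ) *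
          (σ * (XX ((e :: L).map Prod.snd) + YY ((e :: L).map Prod.snd)) + 2) := by
      have e1 : ((det S z + S2 (R.map Prod.snd) : ℤ) : ℝ) - σ ^ 2 * S2 ((e :: L).map Prod.snd) =
          (((det S z : ℤ) : ℝ) - σ ^ 2 * det Sg e.2) +
          (((S2 (R.map Prod.snd) : ℤ) : ℝ) - σ ^ 2 * S2 (L.map Prod.snd)) := by
        rw [List.map_cons, S2, ← hSg]
        push_cast
        ring
      rw [e1]
      refine (abs_add_le _ _).trans ?_
      have e2 : ((e :: L).length : ℝ) = L.length + 1 := by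
        rw [List.length_cons]
        push_cast
        ring
      rw [e2]
      have e3 : (L.length : ℝ) * (σ * (XX (L.map Prod.snd) + YY (L.map Prod.snd)) + 2) ≤
          L.length * (σ * (XX ((e :: L).map Prod.snd) + YY ((e :: L).map Prod.snd)) + 2) := by
        apply mul_le_mul_of_nonneg_left _ (Nat.cast_nonneg _)
        rw [List.map_cons, XX_cons, YY_cons]
        have := mul_nonneg hσ.le (abs_nonneg e.2.1)
        have := mul_nonneg hσ.le (abs_nonneg e.2.2)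
        nlinarith
      linarith
    -- the cost
    have hcost : (m : ℝ) * I ((z.1 : ℝ) / m, (z.2 : ℝ) / m) ≤
        σ * (e.1 * I (e.2.1 / e.1, e.2.2 / e.1)) + 2 * B := by
      have ht : 0 < (m : ℝ) - σ * e.1 := by linarith
      have hv : |σ * e.2.1| + |σ * e.2.2| ≤ σ * e.1 := by
        rw [abs_mul, abs_mul, abs_of_pos hσ, ← mul_add]
        exact mul_le_mul_of_nonneg_left he.2 hσ.le
      have hw : |(z.1 : ℝ) - σ * e.2.1| + |(z.2 : ℝ) - σ * e.2.2| ≤ (m : ℝ) - σ * e.1 := by linarith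
      have h1 := persp hI (v := (σ * e.2.1, σ * e.2.2))
        (w := ((z.1 : ℝ) - σ * e.2.1, (z.2 : ℝ) - σ * e.2.2)) hσe ht hv hw
      simp only [add_sub_cancel] at h1
      have h2 := t_le hI h0 hB ht (r := ((z.1 : ℝ) - σ * e.2.1, (z.2 : ℝ) - σ * e.2.2)) hw
      simp only at h2
      have h3 : B * (|(z.1 : ℝ) - σ * e.2.1| + |(z.2 : ℝ) - σ * e.2.2|) ≤ 2 * B := by
        have := mul_le_mul_of_nonneg_left (show |(z.1 : ℝ) - σ * e.2.1| +
          |(z.2 : ℝ) - σ * e.2.2| ≤ 2 by linarith) hB0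
        linarith
      have h4 : (σ * e.2.1 / (σ * e.1), σ * e.2.2 / (σ * e.1)) = (e.2.1 / e.1, e.2.2 / e.1) := by
        rw [mul_div_mul_left _ _ hσ.ne', mul_div_mul_left _ _ hσ.ne']
      rw [h4] at h1
      linarith
    have hl1 : (0 : ℤ) ≤ l1 z := by
      unfold l1
      positivity
    have hcons : cost I (e :: L) = e.1 * I (e.2.1 / e.1, e.2.2 / e.1) + cost I L := by
      simp [cost]
    have hI0 := hn _ (mem_dia he)
    have hlen : ((e :: L).length : ℝ) = L.length + 1 := by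
      rw [List.length_cons]
      push_cast
      ring
    by_cases h : z = 0
    · rw [hrd, if_pos h]
      have hz1 : z.1 = 0 := by rw [h]; rfl
      have hz2 : z.2 = 0 := by rw [h]; rfl
      refine ⟨g1, ?_, ?_, ?_, ?_, ?_, ?_⟩
      · rw [List.length_cons]
        omega
      · rw [List.map_cons, List.sum_cons, Prod.fst_add, Prod.snd_add, ← hSg, ← hS]
        rw [← hS, ← hSg, h, zero_add] at hsum
        exact hsum
      · rw [List.map_cons, List.sum_cons, hlen]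
        linarith
      · have : det S z = 0 := by
          unfold det
          rw [hz1, hz2]
          ring
        rw [this, zero_add] at hS2
        exact hS2
      · rw [hcons, hlen]
        have := mul_nonneg hσ.le (mul_nonneg he.1.le hI0)
        linarith
      · rw [List.map_cons, XX_cons, YY_cons, hlen]
        have := mul_nonneg hσ.le (abs_nonneg e.2.1)
        have := mul_nonneg hσ.le (abs_nonneg e.2.2)
        linarith
    · rw [hrd, if_neg h]
      refine ⟨?_, ?_, ?_, ?_, ?_, ?_, ?_⟩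
      · intro e' he'
        rw [List.mem_cons] at he'
        rcases he' with rfl | he'
        · exact ⟨h, m4, m3, hzl'⟩
        · exact g1 e' he'
      · rw [List.length_cons, List.length_cons]
        omega
      · rw [List.map_cons, List.map_cons, List.sum_cons, List.sum_cons, Prod.fst_add,
          Prod.snd_add]
        exact hsum
      · rw [List.map_cons, List.sum_cons, List.map_cons, List.sum_cons, hlen, Nat.cast_add]
        linarith
      · rw [List.map_cons, S2, ← hS]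
        exact hS2
      · rw [List.map_cons, List.sum_cons, hcons, hlen]
        linarith
      · rw [List.map_cons, List.map_cons, List.sum_cons, List.map_cons, XX_cons, YY_cons, hlen]
        have : ((l1 z : ℤ) : ℝ) = |(z.1 : ℝ)| + |(z.2 : ℝ)| := by
          unfold l1
          push_cast
          rfl
        rw [Int.cast_add, this]
        linarith

end Pool.Agent.H26.UN
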