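import Pool.Agent.H26.UN.Low

/-!
The skeleton of a word (cut points in space) and the exponential moment of its length.
-/

set_option autoImplicit false

namespace Pool.Agent.H26.UN

open Pool.Agent.T6.H44 Pool.Agent.T6.H44.PG
open Pool.Agent.TH795.EP Pool.Agent.TH795.EP2 Pool.Agent.TH795.SE2 Pool.Agent.TH262.SawL
  Pool.Agent.Y981.L2 H981 Finset
open Pool.Agent.H26.WF (Kc)

/-- the displacements between the cut points: a new cut point when the distance to the last one
reaches `l` -/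
def sk (l : ℤ) : ℤ × ℤ → List St → List (ℤ × ℤ)
  | z, [] => [z]
  | z, s :: w =>
    if l ≤ max |z.1 + s.x| |z.2 + s.y| then (z.1 + s.x, z.2 + s.y) :: sk l (0, 0) w
    else sk l (z.1 + s.x, z.2 + s.y) w

theorem sk_sum (l : ℤ) : ∀ (w : List St) (z : ℤ × ℤ), (sk l z w).sum = (z.1 + dx w, z.2 + dy w)
  | [], z => by
    have h1 : dx ([] : List St) = 0 := rfl
    have h2 : dy ([] : List St) = 0 := rfl
    simp [sk, h1, h2]
  | s :: w, z => by
    rw [sk]
    split_ifs with h
    · rw [List.sum_cons, sk_sum l w, dx_cons, dy_cons]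
      refine Prod.ext ?_ ?_
      · simp only [Prod.fst_add]
        ring
      · simp only [Prod.snd_add]
        ring
    · rw [sk_sum l w, dx_cons, dy_cons]
      refine Prod.ext ?_ ?_
      · simp only
        ring
      · simp only
        ring

/-- every vertex is close to a cut point -/
theorem sk_near {l : ℤ} (hl : 1 ≤ l) : ∀ (w : List St) (z : ℤ × ℤ), |z.1| ≤ l → |z.2| ≤ l →
    ∀ i, ∃ j, |z.1 + (path w i).1 - ((sk l z w).take j).sum.1| ≤ l ∧
      |z.2 + (path w i).2 - ((sk l z w).take j).sum.2| ≤ l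
  | [], z, h1, h2, i => by
    refine ⟨0, ?_, ?_⟩
    · have : path ([] : List St) i = (0, 0) := by
        unfold path
        rw [List.take_nil]
        rfl
      rw [this]
      simpa using h1
    · have : path ([] : List St) i = (0, 0) := by
        unfold path
        rw [List.take_nil]
        rfl
      rw [this]
      simpa using h2
  | s :: w, z, h1, h2, 0 => by
    refine ⟨0, ?_, ?_⟩
    · rw [path_zero']
      simpa using h1
    · rw [path_zero']
      simpa using h2
  | s :: w, z, h1, h2, i + 1 => by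
    rw [path_cons_succ, sk]
    split_ifs with h
    · obtain ⟨j, g1, g2⟩ := sk_near hl w (0, 0) (by simp; omega) (by simp; omega) i
      refine ⟨j + 1, ?_, ?_⟩
      · rw [List.take_succ_cons, List.sum_cons, Prod.fst_add]
        simp only [zero_add] at g1
        have e : z.1 + (s.x + (path w i).1) - (z.1 + s.x + ((sk l (0, 0) w).take j).sum.1) =
            (path w i).1 - ((sk l (0, 0) w).take j).sum.1 := by ring
        simp only
        rw [e]
        exact g1
      · rw [List.take_succ_cons, List.sum_cons, Prod.snd_add]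
        simp only [zero_add] at g2
        have e : z.2 + (s.y + (path w i).2) - (z.2 + s.y + ((sk l (0, 0) w).take j).sum.2) =
            (path w i).2 - ((sk l (0, 0) w).take j).sum.2 := by ring
        simp only
        rw [e]
        exact g2
    · rw [not_le, max_lt_iff] at h
      obtain ⟨j, g1, g2⟩ := sk_near hl w (z.1 + s.x, z.2 + s.y) h.1.le h.2.le i
      refine ⟨j, ?_, ?_⟩
      · simp only at g1 ⊢
        rw [← add_assoc]
        exact g1
      · simp only at g2 ⊢
        rw [← add_assoc]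
        exact g2

/-- the first cut point -/
theorem sk_first {l : ℤ} : ∀ (w : List St) (z : ℤ × ℤ), |z.1| < l → |z.2| < l →
    (sk l z w = [(z.1 + dx w, z.2 + dy w)]) ∨
    ∃ m, 1 ≤ m ∧ m ≤ w.length ∧
      sk l z w = (z.1 + dx (w.take m), z.2 + dy (w.take m)) :: sk l (0, 0) (w.drop m) ∧
      l ≤ max |z.1 + dx (w.take m)| |z.2 + dy (w.take m)|
  | [], z, h1, h2 => by
    left
    have h1 : dx ([] : List St) = 0 := rfl
    have h2 : dy ([] : List St) = 0 := rfl
    simp [sk, h1, h2]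
  | s :: w, z, h1, h2 => by
    rw [sk]
    split_ifs with h
    · right
      refine ⟨1, le_rfl, by simp, ?_, ?_⟩
      · rw [List.take_succ_cons, List.take_zero, List.drop_succ_cons, List.drop_zero, dx_cons,
          dy_cons]
        have h1 : dx ([] : List St) = 0 := rfl
        have h2 : dy ([] : List St) = 0 := rfl
        rw [h1, h2, add_zero, add_zero]
      · rw [List.take_succ_cons, List.take_zero, dx_cons, dy_cons]
        have h1 : dx ([] : List St) = 0 := rfl
        have h2 : dy ([] : List St) = 0 := rfl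
        rw [h1, h2, add_zero, add_zero]
        exact h
    · rw [not_le, max_lt_iff] at h
      rcases sk_first w (z.1 + s.x, z.2 + s.y) h.1 h.2 with g | ⟨m, g1, g2, g3, g4⟩
      · left
        rw [g, dx_cons, dy_cons]
        simp only
        rw [add_assoc, add_assoc]
      · right
        refine ⟨m + 1, by omega, by rw [List.length_cons]; omega, ?_, ?_⟩
        · rw [g3, List.take_succ_cons, List.drop_succ_cons, dx_cons, dy_cons]
          simp only
          rw [add_assoc, add_assoc]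
        · rw [List.take_succ_cons, dx_cons, dy_cons]
          simp only at g4
          rw [add_assoc, add_assoc] at g4
          exact g4

/-- sums over words of functions of the end point -/
theorem sum_ends (F : ℤ × ℤ → ℝ) (n : ℕ) :
    ∑ w ∈ fs Saw n, F (dx w, dy w) = ∑ z ∈ Bx n, (a n z.1 z.2 : ℝ) * F z := by
  classical
  rw [← Finset.sum_fiberwise_of_maps_to (s := fs Saw n) (t := Bx n)
    (g := fun w => (dx w, dy w)) (fun w hw => mem_Bx (mem_fs.1 hw).2)]
  apply Finset.sum_congr rfl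
  intro z _
  have e1 : ∀ w ∈ (fs Saw n).filter (fun w => (dx w, dy w) = z), F (dx w, dy w) = F z := by
    intro w hw
    rw [Finset.mem_filter] at hw
    rw [hw.2]
  rw [Finset.sum_congr rfl e1, Finset.sum_const, nsmul_eq_mul]
  congr 2
  unfold a
  congr 1
  ext w
  rw [Finset.mem_filter, mem_fs, mem_fs]
  constructor
  · rintro ⟨⟨h1, h2⟩, h3⟩
    rw [← h3]
    exact ⟨⟨h1, rfl, rfl⟩, h2⟩
  · rintro ⟨⟨h1, h4, h5⟩, h2⟩
    exact ⟨⟨h1, h2⟩, Prod.ext h4 h5⟩

/-- the support function of the Wulff shape at lattice points -/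
noncomputable def ta (E : ℝ) (z : ℤ × ℤ) : ℝ := AR.sup (Kc E) ((z.1 : ℝ), (z.2 : ℝ))

theorem ta_ge {E : ℝ} (hE : 0 < E) (z : ℤ × ℤ) : mass E * ((max |z.1| |z.2| : ℤ) : ℝ) ≤ ta E z := by
  obtain ⟨-, hc, -⟩ := WF.Kc_props hE
  have hbd : ∀ v : ℝ × ℝ, BddAbove ((fun h : ℝ × ℝ => h.1 * v.1 + h.2 * v.2) '' Kc E) :=
    fun v => (hc.image (by fun_prop)).bddAbove
  have k1 : ((mass E, 0) : ℝ × ℝ) ∈ Kc E := mass_mem hE
  have k2 : ((-mass E, 0) : ℝ × ℝ) ∈ Kc E := by
    show Lam (-mass E, 0) ≤ E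
    have := Y981.L2.Lam_sg (mass E, 0)
    simp only at this
    rw [this]
    exact k1
  have k3 : ((0, mass E) : ℝ × ℝ) ∈ Kc E := by
    show Lam (0, mass E) ≤ E
    have := Y981.L2X.Lam_sw (mass E, 0)
    simp only at this
    rw [this]
    exact k1
  have k4 : ((0, -mass E) : ℝ × ℝ) ∈ Kc E := by
    show Lam (0, -mass E) ≤ E
    have := Y981.L2.Lam_ng (0, mass E)
    simp only at this
    rw [this]
    exact k3
  have h1 := le_csSup (hbd ((z.1 : ℝ), (z.2 : ℝ))) ⟨_, k1, rfl⟩
  have h2 := le_csSup (hbd ((z.1 : ℝ), (z.2 : ℝ))) ⟨_, k2, rfl⟩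
  have h3 := le_csSup (hbd ((z.1 : ℝ), (z.2 : ℝ))) ⟨_, k3, rfl⟩
  have h4 := le_csSup (hbd ((z.1 : ℝ), (z.2 : ℝ))) ⟨_, k4, rfl⟩
  simp only [zero_mul, add_zero, zero_add] at h1 h2 h3 h4
  unfold ta AR.sup
  push_cast
  rcases max_cases |(z.1 : ℝ)| |(z.2 : ℝ)| with ⟨h, -⟩ | ⟨h, -⟩
  · rw [h]
    rcases abs_cases (z.1 : ℝ) with g | g
    · rw [g.1]; exact h1
    · rw [g.1]; linarith
  · rw [h]
    rcases abs_cases (z.2 : ℝ) with g | g
    · rw [g.1]; exact h3
    · rw [g.1]; linarith

theorem ta_nonneg {E : ℝ} (hE : 0 < E) (z : ℤ × ℤ) : 0 ≤ ta E z := by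
  have h1 := ta_ge hE z
  have h2 := Y981.L2.mass_pos hE
  have h3 : (0 : ℝ) ≤ ((max |z.1| |z.2| : ℤ) : ℝ) := by
    have : (0 : ℤ) ≤ max |z.1| |z.2| := le_max_of_le_left (abs_nonneg _)
    exact_mod_cast this
  have := mul_nonneg h2.le h3
  linarith

theorem ta_le {E : ℝ} (hE : 0 < E) {m : ℕ} (hm : 1 ≤ m) {x y : ℤ} (h : |x| + |y| ≤ m) :
    ta E (x, y) ≤ m * (Rate ((x : ℝ) / m, (y : ℝ) / m) + E) := by
  obtain ⟨-, -, -, -, -, h1⟩ := AR.kep Rate PG.rt_rate E hE
  rw [WF.KE_eq] at h1
  exact h1 m ((x : ℝ), (y : ℝ)) (by exact_mod_cast hm) (by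
    show |(x : ℝ)| + |(y : ℝ)| ≤ (m : ℝ)
    exact_mod_cast h)

/-- the bound for the number of words with given ends, tilted -/
theorem a_ta : ∃ K : ℝ, 0 ≤ K ∧ ∀ E : ℝ, 0 < E → ∀ N m : ℕ, 2 ≤ N → 1 ≤ m → m ≤ N →
    ∀ z : ℤ × ℤ, (a m z.1 z.2 : ℝ) * Real.exp (ta E z) ≤
      Real.exp (K * Real.log N ^ 2) * (mu ^ m * Real.exp (E * m)) := by
  obtain ⟨K, hK, h⟩ := Y981.L2.a_le
  refine ⟨K, hK, ?_⟩
  intro E hE N m hN hm hmN z
  have hmu := mu_pos
  rcases Nat.eq_zero_or_pos (a m z.1 z.2) with h0 | h0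
  · rw [h0, Nat.cast_zero, zero_mul]
    positivity
  · obtain ⟨w, -, g1, g2, g3⟩ := exists_of_a h0
    have g4 := abs_add_abs_le w
    rw [g1, g2, g3] at g4
    have h1 := ta_le hE hm (show |z.1| + |z.2| ≤ (m : ℤ) from g4)
    have ha : (0 : ℝ) < a m z.1 z.2 := by exact_mod_cast h0
    have hlogN : Real.log (m : ℝ) ^ 2 ≤ Real.log (N : ℝ) ^ 2 := by
      apply pow_le_pow_left₀ (Real.log_nonneg (by exact_mod_cast hm))
      exact Real.log_le_log (by exact_mod_cast hm) (by exact_mod_cast hmN)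
    have h2 : Real.log (a m z.1 z.2 : ℝ) ≤ m * Real.log mu -
        m * Rate ((z.1 : ℝ) / m, (z.2 : ℝ) / m) + K * Real.log N ^ 2 := by
      rcases Nat.lt_or_ge m 2 with h4 | h4
      · have h5 : m = 1 := by omega
        have h6 := a_le_one (l := m) (by omega) z.1 z.2
        have h7 : a m z.1 z.2 = 1 := by omega
        rw [h7, Nat.cast_one, Real.log_one]
        have h8 : ((z.1 : ℝ) / m, (z.2 : ℝ) / m) ∈ Dia := by
          show |(z.1 : ℝ) / m| + |(z.2 : ℝ) / m| ≤ 1
          have : (0 : ℝ) < m := by exact_mod_cast hm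
          rw [abs_div, abs_div, abs_of_pos this, ← add_div, div_le_one this]
          exact_mod_cast g4
        have h9 := rate_le h8
        have h10 : 0 ≤ K * Real.log (N : ℝ) ^ 2 := by positivity
        have h11 := mul_le_mul_of_nonneg_left h9 (Nat.cast_nonneg (α := ℝ) m)
        linarith
      · have h5 := h m h4 z.1 z.2 h0
        have := mul_le_mul_of_nonneg_left hlogN hK
        linarith
    have e1 : (a m z.1 z.2 : ℝ) * Real.exp (ta E z) =
        Real.exp (Real.log (a m z.1 z.2 : ℝ) + ta E z) := by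
      rw [Real.exp_add, Real.exp_log ha]
    have e2 : Real.exp (K * Real.log N ^ 2) * (mu ^ m * Real.exp (E * m)) =
        Real.exp (K * Real.log N ^ 2 + (m * Real.log mu + E * m)) := by
      rw [Real.exp_add, Real.exp_add, Real.exp_nat_mul, Real.exp_log hmu]
    rw [e1, e2]
    apply Real.exp_le_exp.2
    have e3 : (m : ℝ) * (Rate ((z.1 : ℝ) / m, (z.2 : ℝ) / m) + E) =
        m * Rate ((z.1 : ℝ) / m, (z.2 : ℝ) / m) + E * m := by ring
    rw [e3] at h1
    linarith

end Pool.Agent.H26.UN
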