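import Pool.Agent.H26.UN.Gtu
import Pool.Agent.H26.WS.Cond

/-!
Polygons of large area which are far from the Wulff shape are rare, uniformly.
-/

set_option autoImplicit false

open MeasureTheory Set Filter Topology Metric
open scoped ENNReal Pointwise

namespace Pool.Agent.H26.UN

open Pool.Agent.T6.H44 Pool.Agent.T6.H44.PG
open Pool.Agent.T6.H44.AR (det Refl Swp sup)
open Pool.Agent.TH795.EP Pool.Agent.TH795.EP2 Pool.Agent.TH795.SE2 Pool.Agent.TH262.SawL
  Pool.Agent.Y981.L2 H981 Pool.Agent.H26.WS Pool.Agent.H26.HA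
open Pool.Agent.H26.WF (Kc V g rho)

/-- the Wulff shape of area one -/
noncomputable def UE (E : ℝ) : Set (ℝ × ℝ) := (1 / g E) • Kc E

theorem g_pos {E : ℝ} (hE : 0 < E) : 0 < g E := Real.sqrt_pos.2 (V_pos hE)

theorem g_sq (E : ℝ) : g E ^ 2 = V E := Real.sq_sqrt (WF.V_nonneg E)

theorem UE_vol {E : ℝ} (hE : 0 < E) : volume.real (UE E) = 1 := by
  have hg := g_pos hE
  unfold UE
  rw [vol_smul]
  have : volume.real (Kc E) = V E := rfl
  rw [this, ← g_sq]
  field_simp

theorem box_sub {E : ℝ} (hE : 0 < E) : closedBall (0 : ℝ × ℝ) (mass E / 2) ⊆ Kc E := by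
  obtain ⟨k1, k2, k3, k4⟩ := Kc_sym hE
  have hm := Y981.L2.mass_pos hE
  obtain ⟨hcv, hK, -⟩ := WF.Kc_props hE
  obtain ⟨m, hmd⟩ : ∃ m, m = mass E := ⟨_, rfl⟩
  rw [← hmd] at k1 k2 k3 k4 hm ⊢
  have hmid : ∀ x ∈ Kc E, ∀ y ∈ Kc E, ((x.1 + y.1) / 2, (x.2 + y.2) / 2) ∈ Kc E := by
    intro x hx y hy
    have := hcv hx hy (show (0 : ℝ) ≤ 1 / 2 by norm_num) (show (0 : ℝ) ≤ 1 / 2 by norm_num)
      (by norm_num)
    have e : (1 / 2 : ℝ) • x + (1 / 2 : ℝ) • y = ((x.1 + y.1) / 2, (x.2 + y.2) / 2) := by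
      ext
      · simp only [Prod.fst_add, Prod.smul_fst, smul_eq_mul]
        ring
      · simp only [Prod.snd_add, Prod.smul_snd, smul_eq_mul]
        ring
    rwa [e] at this
  have c1 : ((-(m / 2), -(m / 2)) : ℝ × ℝ) ∈ Kc E := by
    have := hmid _ k2 _ k4
    simp only [add_zero, zero_add] at this
    have e : ((-(m / 2), -(m / 2)) : ℝ × ℝ) = (-m / 2, -m / 2) := by
      ext <;> simp only <;> ring
    rw [e]
    exact this
  have c2 : ((-(m / 2), m / 2) : ℝ × ℝ) ∈ Kc E := by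
    have := hmid _ k2 _ k3
    simp only [add_zero, zero_add] at this
    have e : ((-(m / 2), m / 2) : ℝ × ℝ) = (-m / 2, m / 2) := by
      ext <;> simp only <;> ring
    rw [e]
    exact this
  have c3 : ((m / 2, -(m / 2)) : ℝ × ℝ) ∈ Kc E := by
    have := hmid _ k1 _ k4
    simp only [add_zero, zero_add] at this
    have e : ((m / 2, -(m / 2)) : ℝ × ℝ) = (m / 2, -m / 2) := by
      ext <;> simp only <;> ring
    rw [e]
    exact this
  have c4 : ((m / 2, m / 2) : ℝ × ℝ) ∈ Kc E := by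
    have := hmid _ k1 _ k3
    simpa only [add_zero, zero_add] using this
  rintro ⟨s, t⟩ hx
  rw [mem_closedBall_zero_iff] at hx
  have h1 := abs_le.1 ((norm_fst_le _).trans hx)
  have h2 := abs_le.1 ((norm_snd_le _).trans hx)
  exact mem_seg_of hcv (by linarith) (by linarith) c1 c2 c3 c4 ⟨h1.1, h1.2⟩ ⟨h2.1, h2.2⟩

theorem UE_cl {E : ℝ} (hE : 0 < E) : Cl (UE E) := by
  obtain ⟨hcv, hK, -, hR, hS, -⟩ := AR.kep Rate PG.rt_rate E hE
  rw [WF.KE_eq] at hcv hK hR hS
  have hg := g_pos hE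
  have hm := Y981.L2.mass_pos hE
  have hgm := WF.g_le_mass hE
  have hmg := mass_le_g hE
  have hcv' : Convex ℝ (Kc E) := hcv
  have hK' : IsCompact (Kc E) := hK
  refine ⟨hcv'.smul _, hK'.smul _, ?_, ?_, ?_, ?_⟩
  · rintro _ ⟨k, hk, rfl⟩
    have h1 := hR k hk
    constructor
    · refine ⟨_, h1.1, ?_⟩
      ext <;> simp
    · refine ⟨_, h1.2, ?_⟩
      ext <;> simp
  · rintro _ ⟨k, hk, rfl⟩
    exact ⟨_, hS k hk, rfl⟩
  · intro x hx
    rw [mem_closedBall_zero_iff] at hx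
    refine ⟨g E • x, box_sub hE ?_, ?_⟩
    · rw [mem_closedBall_zero_iff, norm_smul, Real.norm_of_nonneg hg.le]
      have h1 := mul_le_mul_of_nonneg_left hx hg.le
      linarith
    · simp only [smul_smul]
      rw [one_div_mul_cancel hg.ne', one_smul]
  · rintro _ ⟨k, hk, rfl⟩
    have h1 := WF.Kc_sub hk
    rw [mem_prod, mem_Icc, mem_Icc, ← abs_le, ← abs_le] at h1
    simp only
    rw [mem_closedBall_zero_iff, norm_smul, Real.norm_of_nonneg (by positivity)]
    have h2 : ‖k‖ ≤ g E := by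
      rw [Prod.norm_def, Real.norm_eq_abs, Real.norm_eq_abs]
      exact max_le (h1.1.trans hmg) (h1.2.trans hmg)
    have h3 := mul_le_mul_of_nonneg_left h2 (show 0 ≤ 1 / g E by positivity)
    rwa [one_div_mul_cancel hg.ne'] at h3

theorem sup_sm {K : Set (ℝ × ℝ)} (hKn : K.Nonempty) (hK : IsCompact K) {a c : ℝ} (ha : 0 ≤ a)
    (hc : 0 ≤ c) (v : ℝ × ℝ) : sup (a • K) (c • v) ≤ a * c * sup K v := by
  have h1 : sup (a • K) (c • v) =
    sSup ((fun h : ℝ × ℝ => h.1 * (c • v).1 + h.2 * (c • v).2) '' (a • K)) := rfl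
  rw [h1]
  apply csSup_le (hKn.smul_set.image _)
  rintro _ ⟨_, ⟨k, hk, rfl⟩, rfl⟩
  have h2 := mul_le_mul_of_nonneg_left (le_sup hK v hk) (mul_nonneg ha hc)
  simp only [Prod.smul_fst, Prod.smul_snd, smul_eq_mul]
  linarith

theorem list_sm (L : List (ℝ × ℝ)) (f h : ℝ × ℝ → ℝ) (c a : ℝ) (hf : ∀ z, f (c • z) ≤ a * h z) :
    ((L.map (fun z => c • z)).map f).sum ≤ a * (L.map h).sum := by
  induction L with
  | nil => simp
  | cons z L ih =>
    simp only [List.map_cons, List.sum_cons]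
    have := hf z
    linarith

theorem hull_scale {m : ℕ} {s : ℝ} (hs : 0 < s) (f : ZMod m → ℤ × ℤ) :
    ∀ x ∈ convexHull ℝ (pts s f), s • x ∈ convexHull ℝ (pts 1 f) := by
  have h1 : pts s f = (1 / s) • pts 1 f := by
    ext x
    constructor
    · rintro ⟨k, rfl⟩
      refine ⟨_, ⟨k, rfl⟩, ?_⟩
      ext <;> simp <;> field_simp
    · rintro ⟨_, ⟨k, rfl⟩, rfl⟩
      refine ⟨k, ?_⟩
      ext <;> simp <;> field_simp
  intro x hx
  rw [h1, convexHull_smul] at hx
  obtain ⟨y, hy, rfl⟩ := hx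
  simp only [smul_smul]
  rw [mul_one_div_cancel hs.ne', one_smul]
  exact hy

/-- **the deterministic part** -/
theorem sk_stab {δ : ℝ} (hδ : 0 < δ) : ∃ η : ℝ, 0 < η ∧ η ≤ 1 ∧ ∀ E : ℝ, 0 < E → ∀ n : ℕ, 2 ≤ n →
    ∀ l : ℤ, 1 ≤ l → ∀ W : List St, W.length = 2 * n - 1 →
    IsLoop (2 * n) (fun i : ZMod (2 * n) => path W i.val) → ∀ s : ℝ, 0 < s → 8 * l ≤ η * s →
    s ^ 2 ≤ (area (2 * n) (fun i : ZMod (2 * n) => path W i.val) : ℝ) →
    tl E (sk l (0, 0) W) ≤ (2 + η / 2) * (s * g E) →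
    ∃ w, hausdorffDist (convexHull ℝ (pts s (fun i : ZMod (2 * n) => path W i.val)))
      ((fun x => x + w) '' UE E) < δ := by
  obtain ⟨η0, hη0, hgt⟩ := gtu hδ 7
  obtain ⟨η, hηd⟩ : ∃ η, η = min η0 1 := ⟨_, rfl⟩
  have hη : 0 < η := by rw [hηd]; exact lt_min hη0 one_pos
  have hη1 : η ≤ 1 := by rw [hηd]; exact min_le_right _ _
  have hηη : η ≤ η0 := by rw [hηd]; exact min_le_left _ _
  refine ⟨η, hη, hη1, ?_⟩
  intro E hE n hn l hl W hW hL s hs hls hA hT
  have : NeZero (2 * n) := ⟨by omega⟩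
  have hg := g_pos hE
  have hm := Y981.L2.mass_pos hE
  have hmg := mass_le_g hE
  have hl' : (1 : ℝ) ≤ l := by exact_mod_cast hl
  obtain ⟨hcv, hK, h0, hR, hS, -⟩ := AR.kep Rate PG.rt_rate E hE
  rw [WF.KE_eq] at hcv hK h0 hR hS
  have hK' : IsCompact (Kc E) := hK
  have hKn : (Kc E).Nonempty := ⟨0, interior_subset h0⟩
  have hcl := UE_cl hE
  obtain ⟨L, hLd⟩ : ∃ L, L = (cls l W).map (fun z => (1 / s) • z) := ⟨_, rfl⟩
  obtain ⟨C, hC⟩ : ∃ C, C = convexHull ℝ (pts s (fun i : ZMod (2 * n) => path W i.val)) :=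
    ⟨_, rfl⟩
  -- the sum
  have hsum : (L.map (sup (UE E))).sum ≤ 2 + η := by
    have h1 := list_sm (cls l W) (sup (UE E)) (sup (Kc E)) (1 / s) (1 / g E * (1 / s))
      (fun z => sup_sm hKn hK' (by positivity) (by positivity) z)
    rw [← hLd] at h1
    refine h1.trans ?_
    have h2 := cls_sup hE l (loop_adj hn hW hL)
    have h3 : mass E ≤ η / 2 * (s * g E) := by
      have h4 : 2 ≤ η * s := by linarith
      have h5 := mul_le_mul_of_nonneg_right h4 hg.le
      linarith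
    have h4 : ((cls l W).map (sup (Kc E))).sum ≤ (2 + η) * (s * g E) := by
      refine h2.trans ?_
      linarith
    have h5 := mul_le_mul_of_nonneg_left h4 (show 0 ≤ 1 / g E * (1 / s) by positivity)
    refine h5.trans (le_of_eq ?_)
    field_simp
  -- the widths
  have hwid : ∀ v, ∀ x ∈ C, ∀ x' ∈ C, 2 * det v (x - x') ≤
      (L.map (fun l => |det v l|)).sum + η * ‖v‖ := by
    intro v x hx x' hx'
    rw [hC] at hx hx'
    have h1 := sk_width (by omega : 0 < n) hl v _ (hull_scale hs _ x hx) _ (hull_scale hs _ x' hx')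
    have h2 : det v (s • x - s • x') = s * det v (x - x') := by
      simp only [det, Prod.fst_sub, Prod.snd_sub, Prod.smul_fst, Prod.smul_snd, smul_eq_mul]
      ring
    rw [h2] at h1
    have h3 := list_sm (cls l W) (fun z => -|det v z|) (fun z => |det v z|) (1 / s) (-(1 / s)) (by
      intro z
      have h4 : det v ((1 / s) • z) = (1 / s) * det v z := by
        simp only [det, Prod.smul_fst, Prod.smul_snd, smul_eq_mul]
        ring
      rw [h4, abs_mul, abs_of_pos (show 0 < 1 / s by positivity)]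
      linarith)
    rw [← hLd] at h3
    have h4 : (L.map (fun z => -|det v z|)).sum = -(L.map (fun z => |det v z|)).sum := by
      have : ∀ L : List (ℝ × ℝ), (L.map (fun z => -|det v z|)).sum =
          -(L.map (fun z => |det v z|)).sum := by
        intro L
        induction L with
        | nil => simp
        | cons z L ih =>
          simp only [List.map_cons, List.sum_cons, ih]
          ring
      exact this L
    rw [h4] at h3
    have h5 : 1 / s * ((cls l W).map (fun z => |det v z|)).sum ≤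
        (L.map (fun z => |det v z|)).sum := by linarith
    have h6 := mul_le_mul_of_nonneg_left h1 (show 0 ≤ 1 / s by positivity)
    have h7 : 1 / s * (2 * (s * det v (x - x'))) = 2 * det v (x - x') := by field_simp
    rw [h7] at h6
    have h8 : 1 / s * (8 * l * ‖v‖) ≤ η * ‖v‖ := by
      have h9 : 1 / s * (8 * l) ≤ η := by
        rw [one_div_mul_eq_div, div_le_iff₀ hs]
        exact hls
      have := mul_le_mul_of_nonneg_right h9 (norm_nonneg v)
      linarith
    linarith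
  -- the sums of the coordinates
  have hzero : (0 : ℝ × ℝ) ∈ C := by
    rw [hC]
    apply subset_convexHull
    refine ⟨0, ?_⟩
    simp [path_zero']
  have hq : ∀ l : ℝ × ℝ, |l.1| ≤ 4 * sup (UE E) l ∧ |l.2| ≤ 4 * sup (UE E) l := by
    intro l
    have hb : ∀ a b : ℝ, |a| ≤ 1 / 4 → |b| ≤ 1 / 4 → a * l.1 + b * l.2 ≤ sup (UE E) l := by
      intro a b ha hb
      refine le_sup hcl.2.1 l (h := (a, b)) (hcl.2.2.2.2.1 ?_)
      rw [mem_closedBall_zero_iff, Prod.norm_def, Real.norm_eq_abs, Real.norm_eq_abs]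
      exact max_le ha hb
    have q1 := hb (1 / 4) 0 (by norm_num) (by norm_num)
    have q2 := hb (-(1 / 4)) 0 (by norm_num) (by norm_num)
    have q3 := hb 0 (1 / 4) (by norm_num) (by norm_num)
    have q4 := hb 0 (-(1 / 4)) (by norm_num) (by norm_num)
    constructor
    · rw [abs_le]
      constructor <;> linarith
    · rw [abs_le]
      constructor <;> linarith
  have hball : C ⊆ closedBall 0 7 := by
    intro x hx
    have hs1 : (L.map (fun l => |det (1, 0) l|)).sum ≤ 4 * (L.map (sup (UE E))).sum := by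
      apply list_sum_le
      intro l
      simp only [det, one_mul, zero_mul, sub_zero]
      exact (hq l).2
    have hs2 : (L.map (fun l => |det (0, 1) l|)).sum ≤ 4 * (L.map (sup (UE E))).sum := by
      apply list_sum_le
      intro l
      simp only [det, one_mul, zero_mul, zero_sub, abs_neg]
      exact (hq l).1
    have w1 := hwid (1, 0) x hx 0 hzero
    have w2 := hwid (1, 0) 0 hzero x hx
    have w3 := hwid (0, 1) x hx 0 hzero
    have w4 := hwid (0, 1) 0 hzero x hx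
    have n1 : ‖((1, 0) : ℝ × ℝ)‖ = 1 := by simp [Prod.norm_def]
    have n2 : ‖((0, 1) : ℝ × ℝ)‖ = 1 := by simp [Prod.norm_def]
    rw [n1] at w1 w2
    rw [n2] at w3 w4
    simp only [det, one_mul, zero_mul, sub_zero, zero_sub, Prod.snd_neg, Prod.fst_neg] at w1 w2 w3 w4
    simp only [det, one_mul, zero_mul, sub_zero, zero_sub] at hs1 hs2
    rw [mem_closedBall_zero_iff, Prod.norm_def, Real.norm_eq_abs, Real.norm_eq_abs]
    apply max_le
    · rw [abs_le]
      constructor <;> linarith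
    · rw [abs_le]
      constructor <;> linarith
  have hCc : IsCompact C := by
    rw [hC]
    exact hull_compact _ _
  have hCv : Convex ℝ C := by
    rw [hC]
    exact convex_convexHull _ _
  rw [← hC]
  apply hgt (UE E) hcl L C hCv hCc ⟨0, hzero⟩ hball
  · rw [UE_vol hE]
    have h1 := area_le_hull hs (f := fun i : ZMod (2 * n) => path W i.val) hL.2.2
    rw [← hC] at h1
    refine le_trans ?_ h1
    rw [one_le_div (by positivity)]
    exact hA
  · rw [UE_vol hE]
    linarith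
  · intro v x hx x' hx'
    have h1 := hwid v x hx x' hx'
    have h2 := mul_le_mul_of_nonneg_right hηη (norm_nonneg v)
    linarith

/-- the polygon is far from the Wulff shape -/
def FarU (n : ℕ) (s E δ : ℝ) (f : ZMod (2 * n) → ℤ × ℤ) : Prop :=
  ∀ w : ℝ × ℝ, δ ≤ hausdorffDist (convexHull ℝ (pts s f)) ((fun x => x + w) '' UE E)

/-- **far polygons are rare** -/
theorem bad_sk {δ : ℝ} (hδ : 0 < δ) : ∃ η C : ℝ, 0 < η ∧ η ≤ 1 ∧ 0 < C ∧ ∀ E : ℝ, 0 < E →
    ∀ n : ℕ, 2 ≤ n → ∀ s : ℝ, C ≤ s → C * Real.log n ^ 2 ≤ s * g E →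
    ({f : ZMod (2 * n) → ℤ × ℤ | IsLoop (2 * n) f ∧ s ^ 2 ≤ (area (2 * n) f : ℝ) ∧
      FarU n s E δ f}.ncard : ℝ) ≤
      Real.exp (C * Real.log n ^ 2 - (2 + η) * (s * g E) + 2 * n * E) * mu ^ (2 * n) := by
  obtain ⟨η0, hη0, hη1, hst⟩ := sk_stab hδ
  obtain ⟨K, hK, hcount⟩ := count_sk
  obtain ⟨C, hC⟩ : ∃ C, C = 256 * K / η0 ^ 2 + 16 / η0 + K + 1 := ⟨_, rfl⟩
  have hCp : 0 < C := by rw [hC]; positivity
  refine ⟨η0 / 8, C, by linarith, by linarith, hCp, ?_⟩
  intro E hE n hn s hs hsg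
  have hmu := mu_pos
  have hg := g_pos hE
  have hm := Y981.L2.mass_pos hE
  have hgm := WF.g_le_mass hE
  obtain ⟨Lg, hLg⟩ : ∃ Lg, Lg = Real.log n ^ 2 := ⟨_, rfl⟩
  have hLg0 : 0 ≤ Lg := by rw [hLg]; positivity
  rw [← hLg] at hsg ⊢
  have hs0 : 0 < s := lt_of_lt_of_le hCp hs
  obtain ⟨l, hl1, hl2, hl3⟩ := exists_l (K := K) (θ := 1 - η0 / 8) (m := mass E) (L := Lg) hK
    (by linarith) hm hLg0
  have hls : 8 * (l : ℝ) ≤ η0 * s := by
    have e1 : K * Lg / (1 - (1 - η0 / 8)) = 8 * K / η0 * Lg := by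
      rw [show 1 - (1 - η0 / 8) = η0 / 8 by ring]
      field_simp
    rw [e1] at hl3
    have h1 : 256 * K / η0 ^ 2 * Lg ≤ s * (2 * mass E) := by
      have a1 : 256 * K / η0 ^ 2 * Lg ≤ C * Lg := by
        apply mul_le_mul_of_nonneg_right _ hLg0
        rw [hC]
        have : 0 ≤ 16 / η0 := by positivity
        linarith
      have a2 : s * g E ≤ s * (2 * mass E) := mul_le_mul_of_nonneg_left hgm hs0.le
      linarith
    have h2 : 16 / η0 ≤ s := by
      have : 0 ≤ 256 * K / η0 ^ 2 := by positivity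
      rw [hC] at hs
      linarith
    have h3 : 64 * K / η0 * Lg ≤ η0 / 2 * s * mass E := by
      have a1 := mul_le_mul_of_nonneg_left h1 (show 0 ≤ η0 / 4 by linarith)
      have a2 : η0 / 4 * (256 * K / η0 ^ 2 * Lg) = 64 * K / η0 * Lg := by
        field_simp
        ring
      rw [a2] at a1
      linarith
    have h4 : 8 * mass E ≤ η0 / 2 * s * mass E := by
      rw [div_le_iff₀ hη0] at h2
      have := mul_le_mul_of_nonneg_right h2 hm.le
      linarith
    have h5 : 8 * (l : ℝ) * mass E ≤ η0 * s * mass E := by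
      have e2 : 8 * (8 * K / η0 * Lg) = 64 * K / η0 * Lg := by ring
      linarith
    exact le_of_mul_le_mul_right h5 hm
  have h1 := hcount E hE (1 - η0 / 8) (by linarith) (by linarith) n hn l hl1
    (by rw [← hLg]; exact hl2)
    {f | IsLoop (2 * n) f ∧ s ^ 2 ≤ (area (2 * n) f : ℝ) ∧ FarU n s E δ f} (fun f hf => hf.1)
    ((2 + η0 / 2) * (s * g E)) (by
      intro W hW hWB
      obtain ⟨hloop, hA, hfar⟩ := hWB
      by_contra hcon
      push Not at hcon
      obtain ⟨w, hw⟩ := hst E hE n hn l hl1 W hW hloop s hs0 hls hA hcon.le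
      exact absurd hw (not_lt.2 (hfar w)))
  rw [← hLg] at h1
  refine h1.trans ?_
  apply mul_le_mul_of_nonneg_right _ (pow_pos hmu _).le
  apply Real.exp_le_exp.2
  have hX : 0 < s * g E := mul_pos hs0 hg
  have h2 : K * Lg ≤ C * Lg := by
    apply mul_le_mul_of_nonneg_right _ hLg0
    rw [hC]
    have : 0 ≤ 16 / η0 := by positivity
    have : 0 ≤ 256 * K / η0 ^ 2 := by positivity
    linarith
  have h3 : (2 + η0 / 8) * (s * g E) ≤ (1 - η0 / 8) * ((2 + η0 / 2) * (s * g E)) := by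
    rw [← mul_assoc (1 - η0 / 8)]
    apply mul_le_mul_of_nonneg_right _ hX.le
    have : η0 * η0 ≤ 1 * η0 := mul_le_mul_of_nonneg_right hη1 hη0.le
    linarith
  linarith

end Pool.Agent.H26.UN
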