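import Pool.Agent.H26.UN.UpP

/-!
The uniform upper bound for the area of polygons.
-/

set_option autoImplicit false

open MeasureTheory Set Filter Topology Metric
open scoped ENNReal Pointwise

namespace Pool.Agent.H26.UN

open Pool.Agent.T6.H44 Pool.Agent.T6.H44.PG
open Pool.Agent.TH795.EP Pool.Agent.TH795.EP2 Pool.Agent.TH795.SE2 Pool.Agent.TH262.SawL
  Pool.Agent.Y981.L2 H981 Pool.Agent.H26.WS Pool.Agent.H26.HA
open Pool.Agent.H26.WF (Kc V g rho)

theorem log_sq_ge {n : ℕ} (hn : 2 ≤ n) : 0.4 ≤ Real.log n ^ 2 := by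
  have h1 : Real.log 2 ≤ Real.log n := Real.log_le_log (by norm_num) (by exact_mod_cast hn)
  have h2 : 0.69 < Real.log 2 := by have := Real.log_two_gt_d9; linarith
  have h3 : (0.69 : ℝ) ^ 2 ≤ Real.log n ^ 2 := pow_le_pow_left₀ (by norm_num) (by linarith) 2
  norm_num at h3 ⊢
  linarith

theorem sqrt_VA {E r n : ℝ} (hrn : 0 ≤ r * n) : √(V E * (r * n) ^ 2) = r * n * g E := by
  rw [Real.sqrt_mul (WF.V_nonneg E), Real.sqrt_sq hrn, mul_comm]
  rfl

theorem ar3 {ε X m ml KL Q K2L A nE : ℝ} (hε : 0 < ε) (hml : 0 ≤ ml) (h1 : 17 * m ≤ ε * X)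
    (h2 : 17 * ml ≤ Q + 17 * m) (hA : 0 ≤ A) :
    KL - (1 - ε / 2) * (2 * X - 17 * ml) + nE ≤
      -(2 * X - 2 * ε * X - nE) + (A + (KL + Q + K2L)) - K2L := by
  have h3 : 0 ≤ ε / 2 * (17 * ml) := by positivity
  have e : (1 - ε / 2) * (2 * X - 17 * ml) = 2 * X - ε * X - 17 * ml + ε / 2 * (17 * ml) := by ring
  rw [e]
  linarith

theorem ar4 {C1 lm s r n L B : ℝ} (hlm : 0 ≤ lm) (hC1 : 0 ≤ C1) (hn : 0 ≤ n) (hsr : s ≤ r)
    (h : r * n ≤ C1) (hL : 0.4 ≤ L) (hB : 0 ≤ B) {rh : ℝ} (hrh : rh ≤ 4 * s * lm) :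
    0 ≤ -(n * rh) + (10 * C1 * lm + B + 1) * L := by
  have h3 := mul_le_mul_of_nonneg_left hrh hn
  have h4 : s * n ≤ C1 := (mul_le_mul_of_nonneg_right hsr hn).trans h
  have h5 : n * (4 * s * lm) = 4 * lm * (s * n) := by ring
  have h6 := mul_le_mul_of_nonneg_left h4 (show 0 ≤ 4 * lm by positivity)
  have h7 : 10 * C1 * lm * 0.4 ≤ 10 * C1 * lm * L :=
    mul_le_mul_of_nonneg_left hL (by positivity)
  have h8 : 0 ≤ B * L := mul_nonneg hB (by linarith)
  have e : (10 * C1 * lm + B + 1) * L = 10 * C1 * lm * L + B * L + L := by ring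
  rw [e]
  linarith

/-- **the uniform upper bound** -/
theorem up {ε : ℝ} (hε : 0 < ε) (hε1 : ε < 1) : ∃ C : ℝ, 0 < C ∧ ∀ n : ℕ, 2 ≤ n → ∀ r : ℝ, 0 < r →
    r ≤ 1 / 2 → par n ((r * n) ^ 2) ≤
      Real.exp (-(n * rho ((1 - ε) * r)) + C * Real.log n ^ 2) := by
  obtain ⟨K, hK, hcount⟩ := count_sk
  obtain ⟨K2, hK2, hln⟩ := T6.H53.AL.le_ln
  obtain ⟨C1, hC1⟩ : ∃ C1, C1 = 17 / ε := ⟨_, rfl⟩
  have hC10 : 0 < C1 := by rw [hC1]; positivity
  have hlm := WF.log_mu_nonneg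
  obtain ⟨C, hC⟩ : ∃ C, C = 10 * C1 * Real.log mu + (K + 34 * K / ε + K2) + 1 := ⟨_, rfl⟩
  refine ⟨C, by rw [hC]; positivity, ?_⟩
  intro n hn r hr hr1
  have hmu := mu_pos
  have hn0 : (0 : ℝ) < n := by exact_mod_cast (by omega : 0 < n)
  have hL4 := log_sq_ge hn
  obtain ⟨L, hL⟩ : ∃ L, L = Real.log n ^ 2 := ⟨_, rfl⟩
  rw [← hL] at hL4 ⊢
  obtain ⟨s, hs⟩ : ∃ s, s = (1 - ε) * r := ⟨_, rfl⟩
  have hs0 : 0 < s := by rw [hs]; exact mul_pos (by linarith) hr
  have hsr : s ≤ r := by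
    rw [hs]
    have := mul_pos hε hr
    linarith
  have hs1 : s < 1 / 2 := by
    have h1 := mul_pos hε hr
    rw [hs]
    linarith
  rw [← hs]
  have hpar1 : par n ((r * n) ^ 2) ≤ 1 := by
    unfold par
    apply div_le_one_of_le₀ _ (Nat.cast_nonneg _)
    have : {f : ZMod (2 * n) → ℤ × ℤ | IsLoop (2 * n) f ∧
        (r * n) ^ 2 ≤ (area (2 * n) f : ℝ)}.ncard ≤
        {f : ZMod (2 * n) → ℤ × ℤ | IsLoop (2 * n) f}.ncard :=
      Set.ncard_le_ncard (fun f hf => hf.1) (loops_finite (by omega))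
    exact_mod_cast this
  have hK0 : 0 ≤ 34 * K / ε := by positivity
  rcases le_or_gt (r * n) C1 with h | h
  · -- small areas
    refine hpar1.trans (Real.one_le_exp ?_)
    have h1 := WF.rho_scale hs0.le hs1.le le_rfl (by norm_num)
    rw [WF.rho_half] at h1
    have h2 : s / (1 / 2) * (2 * Real.log mu) = 4 * s * Real.log mu := by ring
    rw [h2] at h1
    rw [hC]
    exact ar4 hlm hC10.le hn0.le hsr h hL4 (by positivity) h1
  · obtain ⟨E, hE, hmax⟩ := WF.exists_max hs0 hs1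
    have hm := Y981.L2.mass_pos hE
    obtain ⟨l, hl1, hl2, hl3⟩ := exists_l (K := K) (θ := 1 - ε / 2) (m := mass E) (L := L) hK
      (by linarith) hm (by linarith)
    have hrn : 0 ≤ r * n := by positivity
    have h1 := hcount E hE (1 - ε / 2) (by linarith) (by linarith) n hn l hl1 (by rw [← hL]; exact hl2)
      {f | IsLoop (2 * n) f ∧ (r * n) ^ 2 ≤ (area (2 * n) f : ℝ)} (fun f hf => hf.1)
      (2 * (r * n * g E) - 17 * (mass E * l)) (by
        intro W hW hWB
        have : NeZero (2 * n) := ⟨by omega⟩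
        obtain ⟨hloop, hA⟩ := hWB
        have h2 := sk_wulff hn hE hl1 hW hloop
        have h3 := area_le_hull (r := 1) one_pos (f := fun i : ZMod (2 * n) => path W i.val)
          hloop.2.2
        rw [one_pow, div_one] at h3
        have h4 : √(V E * (r * n) ^ 2) ≤ √(V E * volume.real (convexHull ℝ
            (pts (1 : ℝ) (fun i : ZMod (2 * n) => path W i.val)))) :=
          Real.sqrt_le_sqrt (mul_le_mul_of_nonneg_left (hA.trans h3) (WF.V_nonneg E))
        rw [sqrt_VA hrn] at h4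
        linarith)
    rw [← hL] at h1
    have hln' := hln n hn
    rw [← hL] at hln'
    have hln0 : (0 : ℝ) < ln n := lt_of_lt_of_le (by positivity) hln'
    have hpar : par n ((r * n) ^ 2) =
        ({f : ZMod (2 * n) → ℤ × ℤ | IsLoop (2 * n) f ∧
          (r * n) ^ 2 ≤ (area (2 * n) f : ℝ)}.ncard : ℝ) / ln n := rfl
    rw [hpar, div_le_iff₀ hln0]
    refine h1.trans ?_
    have h2 : Real.exp (-(n * rho s) + C * L) * (mu ^ (2 * n) * Real.exp (-(K2 * L))) ≤
        Real.exp (-(n * rho s) + C * L) * ln n :=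
      mul_le_mul_of_nonneg_left hln' (Real.exp_pos _).le
    refine le_trans ?_ h2
    have e1 : Real.exp (-(n * rho s) + C * L) * (mu ^ (2 * n) * Real.exp (-(K2 * L))) =
        Real.exp (-(n * rho s) + C * L - K2 * L) * mu ^ (2 * n) := by
      rw [sub_eq_add_neg (-(n * rho s) + C * L), Real.exp_add _ (-(K2 * L))]
      ring
    rw [e1]
    apply mul_le_mul_of_nonneg_right _ (pow_pos hmu _).le
    apply Real.exp_le_exp.2
    have hg := mass_le_g hE
    obtain ⟨X, hX⟩ : ∃ X, X = r * n * g E := ⟨_, rfl⟩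
    rw [← hX]
    have hgX : 17 * mass E ≤ ε * X := by
      have a1 : C1 * mass E ≤ r * n * g E := mul_le_mul h.le hg hm.le hrn
      have a2 := mul_le_mul_of_nonneg_left a1 hε.le
      have a3 : ε * (C1 * mass E) = 17 * mass E := by
        rw [hC1]
        field_simp
      rw [a3, ← hX] at a2
      exact a2
    have e2 : n * rho s = 2 * X - 2 * ε * X - 2 * n * E := by
      rw [hmax, hX, hs]
      ring
    have e3 : K * L / (1 - (1 - ε / 2)) = 2 * K / ε * L := by
      rw [show 1 - (1 - ε / 2) = ε / 2 by ring]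
      field_simp
    rw [e3] at hl3
    have hml : 0 ≤ mass E * l := by
      have : (1 : ℝ) ≤ l := by exact_mod_cast hl1
      positivity
    have h6 : 17 * (mass E * l) ≤ 34 * K / ε * L + 17 * mass E := by
      have e4 : 34 * K / ε * L = 17 * (2 * K / ε * L) := by ring
      rw [e4]
      linarith
    have h7 := ar3 (KL := K * L) (K2L := K2 * L) (A := 10 * C1 * Real.log mu * L + L)
      (nE := 2 * n * E) hε hml hgX h6 (by positivity)
    have e5 : C * L = 10 * C1 * Real.log mu * L + L + (K * L + 34 * K / ε * L + K2 * L) := by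
      rw [hC]
      ring
    rw [e2, e5]
    exact h7

end Pool.Agent.H26.UN
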