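import Pool.Agent.H26.UN.Mom
import Pool.Agent.H26.UN.Geo

/-!
The uniform upper bound for the area of polygons.
-/

set_option autoImplicit false

open MeasureTheory Set Filter Topology Metric
open scoped ENNReal Pointwise

namespace Pool.Agent.H26.UN

open Pool.Agent.T6.H44 Pool.Agent.T6.H44.PG
open Pool.Agent.T6.H44.AR (det)
open Pool.Agent.TH795.EP Pool.Agent.TH795.EP2 Pool.Agent.TH795.SE2 Pool.Agent.TH262.SawL
  Pool.Agent.Y981.L2 H981 Pool.Agent.H26.WS Pool.Agent.H26.HA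
open Pool.Agent.H26.WF (Kc V g rho)

/-! ### the Wulff shape and the mass -/

theorem Kc_sym {E : ℝ} (hE : 0 < E) : ((mass E, 0) : ℝ × ℝ) ∈ Kc E ∧ ((-mass E, 0) : ℝ × ℝ) ∈ Kc E ∧
    ((0, mass E) : ℝ × ℝ) ∈ Kc E ∧ ((0, -mass E) : ℝ × ℝ) ∈ Kc E := by
  have k1 : ((mass E, 0) : ℝ × ℝ) ∈ Kc E := mass_mem hE
  have k2 : ((-mass E, 0) : ℝ × ℝ) ∈ Kc E := by
    show Lam (-mass E, 0) ≤ E
    have := Y981.L2.Lam_sg (mass E, 0)
    simp only at this
    rw [this]
    exact k1
  have k3 : ((0, mass E) : ℝ × ℝ) ∈ Kc E := by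
    show Lam (0, mass E) ≤ E
    have := Y981.L2X.Lam_sw (mass E, 0)
    simp only at this
    rw [this]
    exact k1
  have k4 : ((0, -mass E) : ℝ × ℝ) ∈ Kc E := by
    show Lam (0, -mass E) ≤ E
    have := Y981.L2.Lam_ng (0, mass E)
    simp only at this
    rw [this]
    exact k3
  exact ⟨k1, k2, k3, k4⟩

theorem mass_le_g {E : ℝ} (hE : 0 < E) : mass E ≤ g E := by
  obtain ⟨k1, k2, k3, k4⟩ := Kc_sym hE
  have hm := Y981.L2.mass_pos hE
  obtain ⟨hcv, hK, -⟩ := WF.Kc_props hE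
  obtain ⟨m, hmd⟩ : ∃ m, m = mass E := ⟨_, rfl⟩
  rw [← hmd] at k1 k2 k3 k4 hm ⊢
  have hmid : ∀ x ∈ Kc E, ∀ y ∈ Kc E, ((x.1 + y.1) / 2, (x.2 + y.2) / 2) ∈ Kc E := by
    intro x hx y hy
    have := hcv hx hy (show (0 : ℝ) ≤ 1 / 2 by norm_num) (show (0 : ℝ) ≤ 1 / 2 by norm_num)
      (by norm_num)
    have e : (1 / 2 : ℝ) • x + (1 / 2 : ℝ) • y = ((x.1 + y.1) / 2, (x.2 + y.2) / 2) := by
      ext
      · simp only [Prod.fst_add, Prod.smul_fst, smul_eq_mul]
        ring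
      · simp only [Prod.snd_add, Prod.smul_snd, smul_eq_mul]
        ring
    rwa [e] at this
  have hsub : Icc (-(m / 2)) (m / 2) ×ˢ Icc (-(m / 2)) (m / 2) ⊆ Kc E := by
    have c1 : ((-(m / 2), -(m / 2)) : ℝ × ℝ) ∈ Kc E := by
      have := hmid _ k2 _ k4
      simp only [add_zero, zero_add] at this
      have e : ((-(m / 2), -(m / 2)) : ℝ × ℝ) = (-m / 2, -m / 2) := by
        ext <;> simp only <;> ring
      rw [e]
      exact this
    have c2 : ((-(m / 2), m / 2) : ℝ × ℝ) ∈ Kc E := by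
      have := hmid _ k2 _ k3
      simp only [add_zero, zero_add] at this
      have e : ((-(m / 2), m / 2) : ℝ × ℝ) = (-m / 2, m / 2) := by
        ext <;> simp only <;> ring
      rw [e]
      exact this
    have c3 : ((m / 2, -(m / 2)) : ℝ × ℝ) ∈ Kc E := by
      have := hmid _ k1 _ k4
      simp only [add_zero, zero_add] at this
      have e : ((m / 2, -(m / 2)) : ℝ × ℝ) = (m / 2, -m / 2) := by
        ext <;> simp only <;> ring
      rw [e]
      exact this
    have c4 : ((m / 2, m / 2) : ℝ × ℝ) ∈ Kc E := by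
      have := hmid _ k1 _ k3
      simpa only [add_zero, zero_add] using this
    rintro ⟨s, t⟩ ⟨h1, h2⟩
    exact mem_seg_of hcv (by linarith) (by linarith) c1 c2 c3 c4 h1 h2
  have hv : volume.real (Icc (-(m / 2)) (m / 2) ×ˢ Icc (-(m / 2)) (m / 2) : Set (ℝ × ℝ)) = m ^ 2 := by
    unfold Measure.real
    rw [Measure.volume_eq_prod, Measure.prod_prod, Real.volume_Icc, ← ENNReal.ofReal_mul
      (by linarith), ENNReal.toReal_ofReal (by nlinarith)]
    ring
  have h1 : m ^ 2 ≤ V E := by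
    rw [← hv]
    exact measureReal_mono hsub hK.measure_lt_top.ne
  unfold WF.g
  exact Real.le_sqrt_of_sq_le h1

theorem sup_le_mass {E : ℝ} (hE : 0 < E) (v : ℝ × ℝ) :
    AR.sup (Kc E) v ≤ mass E * (|v.1| + |v.2|) := by
  obtain ⟨-, -, h0⟩ := WF.Kc_props hE
  have hne : (Kc E).Nonempty := ⟨0, interior_subset h0⟩
  unfold AR.sup
  apply csSup_le (hne.image _)
  rintro _ ⟨h, hh, rfl⟩
  have h1 := WF.Kc_sub hh
  rw [mem_prod, mem_Icc, mem_Icc, ← abs_le, ← abs_le] at h1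
  have h2 : h.1 * v.1 ≤ mass E * |v.1| := by
    have := le_abs_self (h.1 * v.1)
    rw [abs_mul] at this
    exact this.trans (mul_le_mul_of_nonneg_right h1.1 (abs_nonneg _))
  have h3 : h.2 * v.2 ≤ mass E * |v.2| := by
    have := le_abs_self (h.2 * v.2)
    rw [abs_mul] at this
    exact this.trans (mul_le_mul_of_nonneg_right h1.2 (abs_nonneg _))
  simp only
  linarith

/-! ### the closed skeleton of a polygon -/

/-- the closed skeleton -/
def cls (l : ℤ) (W : List St) : List (ℝ × ℝ) :=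
  ((sk l (0, 0) W) ++ [(-dx W, -dy W)]).map AR.cs

theorem cls_sum (l : ℤ) (W : List St) : (cls l W).sum = 0 := by
  unfold cls
  rw [cs_sum, List.sum_append, sk_sum]
  simp [AR.cs]

theorem cls_sup {E : ℝ} (hE : 0 < E) (l : ℤ) {W : List St} (hW : |dx W| + |dy W| = 1) :
    ((cls l W).map (AR.sup (Kc E))).sum ≤ tl E (sk l (0, 0) W) + mass E := by
  unfold cls tl
  rw [List.map_append, List.map_append, List.sum_append, List.map_map]
  apply add_le_add
  · apply le_of_eq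
    rfl
  · simp only [List.map_cons, List.map_nil, List.sum_cons, List.sum_nil, add_zero]
    have h1 := sup_le_mass hE (AR.cs (-dx W, -dy W))
    have h2 : |(AR.cs (-dx W, -dy W)).1| + |(AR.cs (-dx W, -dy W)).2| = 1 := by
      unfold AR.cs
      simp only
      rw [← Int.cast_abs, ← Int.cast_abs, abs_neg, abs_neg]
      exact_mod_cast hW
    rw [h2, mul_one] at h1
    exact h1

theorem cs_take (L : List (ℤ × ℤ)) (j : ℕ) : ((L.map AR.cs).take j).sum = AR.cs (L.take j).sum := by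
  rw [← List.map_take, cs_sum]

/-- the widths of the hull -/
theorem sk_width {n : ℕ} (hn : 0 < n) {l : ℤ} (hl : 1 ≤ l) {W : List St}
    (v : ℝ × ℝ) :
    ∀ x ∈ convexHull ℝ (pts (1 : ℝ) (fun i : ZMod (2 * n) => path W i.val)),
    ∀ x' ∈ convexHull ℝ (pts (1 : ℝ) (fun i : ZMod (2 * n) => path W i.val)),
      2 * det v (x - x') ≤ ((cls l W).map (fun z => |det v z|)).sum + 8 * l * ‖v‖ := by
  have : NeZero (2 * n) := ⟨by omega⟩
  obtain ⟨M, hM⟩ : ∃ M, M = ((cls l W).map (fun z => |det v z|)).sum + 8 * l * ‖v‖ := ⟨_, rfl⟩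
  rw [← hM]
  have hL0 := cls_sum l W
  have hnear : ∀ i : ℕ, ∃ j, |det v ((((path W i).1 : ℝ) / 1, ((path W i).2 : ℝ) / 1) -
        ((cls l W).take j).sum)| ≤ ‖v‖ * (2 * l) := by
    intro i
    obtain ⟨j, h1, h2⟩ := sk_near hl W (0, 0) (by simp; omega) (by simp; omega) i
    refine ⟨min j (sk l (0, 0) W).length, (abs_det_le' _ _).trans
      (mul_le_mul_of_nonneg_left ?_ (norm_nonneg _))⟩
    have e : ((cls l W).take (min j (sk l (0, 0) W).length)).sum =
        AR.cs ((sk l (0, 0) W).take j).sum := by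
      unfold cls
      rw [cs_take, List.take_append_of_le_length (min_le_right _ _)]
      congr 2
      rcases le_total j (sk l (0, 0) W).length with h | h
      · rw [min_eq_left h]
      · rw [min_eq_right h, List.take_of_length_le h, List.take_length]
    rw [e]
    simp only [zero_add] at h1 h2
    unfold AR.cs
    simp only [Prod.fst_sub, Prod.snd_sub, div_one]
    have g1 : |((path W i).1 : ℝ) - (((sk l (0, 0) W).take j).sum.1 : ℝ)| ≤ l := by
      exact_mod_cast h1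
    have g2 : |((path W i).2 : ℝ) - (((sk l (0, 0) W).take j).sum.2 : ℝ)| ≤ l := by
      exact_mod_cast h2
    linarith
  have hpp : ∀ x ∈ pts (1 : ℝ) (fun i : ZMod (2 * n) => path W i.val),
      ∀ x' ∈ pts (1 : ℝ) (fun i : ZMod (2 * n) => path W i.val), 2 * det v (x - x') ≤ M := by
    rintro _ ⟨i, rfl⟩ _ ⟨i', rfl⟩
    obtain ⟨j, h1⟩ := hnear i.val
    obtain ⟨j', h1'⟩ := hnear i'.val
    have h2 := wid_list v hL0 j j'
    have h3 := abs_le.1 h1
    have h4 := abs_le.1 h1'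
    simp only [det, Prod.fst_sub, Prod.snd_sub] at h2 h3 h4 ⊢
    rw [hM]
    simp only [det]
    linarith [h3.1, h3.2, h4.1, h4.2]
  have hcv : ∀ c : ℝ × ℝ, ∀ b : ℝ, Convex ℝ {x : ℝ × ℝ | 2 * det v (x - c) ≤ b} := by
    intro c b x hx y hy p q hp hq hpq
    simp only [mem_ofPred_eq, det, Prod.fst_sub, Prod.snd_sub, Prod.fst_add, Prod.snd_add,
      Prod.smul_fst, Prod.smul_snd, smul_eq_mul] at hx hy ⊢
    have h1 := mul_le_mul_of_nonneg_left hx hp
    have h2 := mul_le_mul_of_nonneg_left hy hq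
    have h3 : p = 1 - q := by linarith
    subst h3
    linarith
  have hcv' : ∀ c : ℝ × ℝ, ∀ b : ℝ, Convex ℝ {x : ℝ × ℝ | 2 * det v (c - x) ≤ b} := by
    intro c b x hx y hy p q hp hq hpq
    simp only [mem_ofPred_eq, det, Prod.fst_sub, Prod.snd_sub, Prod.fst_add, Prod.snd_add,
      Prod.smul_fst, Prod.smul_snd, smul_eq_mul] at hx hy ⊢
    have h1 := mul_le_mul_of_nonneg_left hx hp
    have h2 := mul_le_mul_of_nonneg_left hy hq
    have h3 : p = 1 - q := by linarith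
    subst h3
    linarith
  have hph : ∀ x' ∈ pts (1 : ℝ) (fun i : ZMod (2 * n) => path W i.val),
      ∀ x ∈ convexHull ℝ (pts (1 : ℝ) (fun i : ZMod (2 * n) => path W i.val)),
      2 * det v (x - x') ≤ M := by
    intro x' hx' x hx
    exact convexHull_min (fun y hy => hpp y hy x' hx') (hcv x' M) hx
  intro x hx x' hx'
  exact convexHull_min (fun y hy => hph y hy x hx) (hcv' x M) hx'

/-- a word of a loop ends next to its start -/
theorem loop_adj {n : ℕ} (hn : 2 ≤ n) {W : List St} (hW : W.length = 2 * n - 1)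
    (hL : IsLoop (2 * n) (fun i : ZMod (2 * n) => path W i.val)) : |dx W| + |dy W| = 1 := by
  have h1 := hL.2.2 ((2 * n - 1 : ℕ) : ZMod (2 * n))
  have hne : NeZero (2 * n) := ⟨by omega⟩
  have : Fact (1 < 2 * n) := ⟨by omega⟩
  have e : ((2 * n - 1 : ℕ) : ZMod (2 * n)) + 1 = 0 := by
    have : (((2 * n - 1) + 1 : ℕ) : ZMod (2 * n)) = 0 := by
      rw [Nat.sub_add_cancel (by omega)]
      exact ZMod.natCast_self _
    rw [← this]
    push_cast
    rfl
  simp only at h1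
  rw [e, ZMod.val_cast_of_lt (by omega), ZMod.val_zero, path_zero', ← hW, path_len] at h1
  simpa using h1

/-- **Wulff's inequality for the skeleton of a polygon** -/
theorem sk_wulff {n : ℕ} (hn : 2 ≤ n) {E : ℝ} (hE : 0 < E) {l : ℤ} (hl : 1 ≤ l) {W : List St}
    (hW : W.length = 2 * n - 1) (hL : IsLoop (2 * n) (fun i : ZMod (2 * n) => path W i.val)) :
    2 * √(V E * volume.real (convexHull ℝ
      (pts (1 : ℝ) (fun i : ZMod (2 * n) => path W i.val)))) ≤
      tl E (sk l (0, 0) W) + 17 * (mass E * l) := by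
  have : NeZero (2 * n) := ⟨by omega⟩
  obtain ⟨hcv, hK, hint, hR, hS, -⟩ := AR.kep Rate PG.rt_rate E hE
  rw [WF.KE_eq] at hcv hK hint hR hS
  have hm := Y981.L2.mass_pos hE
  have hl' : (1 : ℝ) ≤ l := by exact_mod_cast hl
  have hsm : AR.sup {h | Lam h ≤ E} (1, 0) ≤ mass E := by
    have := sup_le_mass hE (1, 0)
    simp only [abs_one, abs_zero, add_zero, mul_one] at this
    exact this
  have h1 := wulff_w hcv hK hint hR hS (mK := mass E) hsm (cls l W) (convex_convexHull ℝ _)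
    (hull_compact (1 : ℝ) (fun i : ZMod (2 * n) => path W i.val))
    ⟨_, subset_convexHull ℝ _ ⟨0, rfl⟩⟩ (η := 8 * (l : ℝ)) (by linarith)
    (fun v => sk_width (by omega) hl v)
  have h2 := cls_sup hE l (loop_adj hn hW hL)
  have h3 : volume.real (Kc E) = V E := rfl
  have h4 : {h | Lam h ≤ E} = Kc E := rfl
  rw [h4, h3] at h1
  have h5 : mass E * 1 ≤ mass E * l := mul_le_mul_of_nonneg_left hl' hm.le
  have h6 : ((cls l W).map (AR.sup (Kc E))).sum + 2 * (8 * (l : ℝ)) * mass E ≤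
      tl E (sk l (0, 0) W) + 17 * (mass E * l) := by linarith
  exact h1.trans h6

/-! ### counting -/

theorem count_sk : ∃ K : ℝ, 0 ≤ K ∧ ∀ E : ℝ, 0 < E → ∀ θ : ℝ, 0 ≤ θ → θ ≤ 1 → ∀ n : ℕ, 2 ≤ n →
    ∀ l : ℤ, 1 ≤ l → K * Real.log n ^ 2 ≤ (1 - θ) * (mass E * l) →
    ∀ (Bad : Set (ZMod (2 * n) → ℤ × ℤ)), (∀ f ∈ Bad, IsLoop (2 * n) f) → ∀ P : ℝ,
    (∀ W : List St, W.length = 2 * n - 1 → (fun i : ZMod (2 * n) => path W i.val) ∈ Bad →
      P ≤ tl E (sk l (0, 0) W)) →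
    (Bad.ncard : ℝ) ≤ Real.exp (K * Real.log n ^ 2 - θ * P + 2 * n * E) * mu ^ (2 * n) := by
  obtain ⟨K, hK, h⟩ := expmom
  refine ⟨4 * K, by linarith, ?_⟩
  intro E hE θ hθ0 hθ1 n hn l hl hKl Bad hB P hP
  have hmu := mu_pos
  have hn2 : (2 : ℝ) ≤ n := by exact_mod_cast hn
  have hlog : K * Real.log ((2 * n : ℕ) : ℝ) ^ 2 ≤ 4 * K * Real.log n ^ 2 := by
    have h1 : Real.log ((2 * n : ℕ) : ℝ) ≤ 2 * Real.log n := by
      push_cast
      rw [Real.log_mul (by norm_num) (by linarith)]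
      have : Real.log 2 ≤ Real.log n := Real.log_le_log (by norm_num) hn2
      linarith
    have h0 : 0 ≤ Real.log ((2 * n : ℕ) : ℝ) := Real.log_nonneg (by
      push_cast
      linarith)
    have h2 := pow_le_pow_left₀ h0 h1 2
    have h3 := mul_le_mul_of_nonneg_left h2 hK
    have e : K * (2 * Real.log n) ^ 2 = 4 * K * Real.log n ^ 2 := by ring
    linarith
  have h1 := h E hE θ hθ0 hθ1 (2 * n) (by omega) l hl (hlog.trans hKl) (2 * n - 1) (by omega)
  obtain ⟨S, hS1, hS2⟩ := card_words hn Bad hB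
  have h2 : (S.card : ℝ) * Real.exp (θ * P) ≤ Zs E θ l (2 * n - 1) := by
    unfold Zs
    rw [← nsmul_eq_mul]
    have h3 : S.card • Real.exp (θ * P) ≤ ∑ w ∈ S, Real.exp (θ * tl E (sk l (0, 0) w)) := by
      apply Finset.card_nsmul_le_sum
      intro w hw
      obtain ⟨g1, g2, g3⟩ := hS2 w hw
      exact Real.exp_le_exp.2 (mul_le_mul_of_nonneg_left (hP w g2 g3) hθ0)
    refine h3.trans (Finset.sum_le_sum_of_subset_of_nonneg ?_ fun _ _ _ => (Real.exp_pos _).le)
    intro w hw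
    obtain ⟨g1, g2, g3⟩ := hS2 w hw
    exact mem_fs.2 ⟨g1, g2⟩
  have h4 : mu ^ (2 * n - 1) * Real.exp (E * ((2 * n - 1 : ℕ) : ℝ)) ≤
      mu ^ (2 * n) * Real.exp (2 * n * E) := by
    apply mul_le_mul _ _ (Real.exp_pos _).le (pow_pos hmu _).le
    · exact pow_le_pow_right₀ one_le_mu (by omega)
    · apply Real.exp_le_exp.2
      have : ((2 * n - 1 : ℕ) : ℝ) ≤ 2 * n := by
        have : 2 * n - 1 ≤ 2 * n := by omega
        exact_mod_cast this
      have := mul_le_mul_of_nonneg_left this hE.le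
      linarith
  have h5 : (S.card : ℝ) ≤ Real.exp (-(θ * P)) * (Real.exp (4 * K * Real.log n ^ 2) *
      (mu ^ (2 * n) * Real.exp (2 * n * E))) := by
    have h6 : (S.card : ℝ) * Real.exp (θ * P) ≤ Real.exp (4 * K * Real.log n ^ 2) *
        (mu ^ (2 * n) * Real.exp (2 * n * E)) := by
      refine h2.trans (h1.trans ?_)
      apply mul_le_mul (Real.exp_le_exp.2 hlog) h4 (by positivity) (Real.exp_pos _).le
    have h7 := mul_le_mul_of_nonneg_left h6 (Real.exp_pos (-(θ * P))).le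
    have e : Real.exp (-(θ * P)) * ((S.card : ℝ) * Real.exp (θ * P)) = S.card := by
      rw [mul_left_comm, ← Real.exp_add, neg_add_cancel, Real.exp_zero, mul_one]
    rwa [e] at h7
  have h8 : (Bad.ncard : ℝ) ≤ S.card := by exact_mod_cast hS1
  refine h8.trans (h5.trans (le_of_eq ?_))
  have e1 : Real.exp (4 * K * Real.log n ^ 2 - θ * P + 2 * n * E) =
      Real.exp (-(θ * P)) * (Real.exp (4 * K * Real.log n ^ 2) * Real.exp (2 * n * E)) := by
    rw [← Real.exp_add, ← Real.exp_add]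
    congr 1
    ring
  rw [e1]
  ring

/-- the choice of the scale -/
theorem exists_l {K θ m L : ℝ} (hK : 0 ≤ K) (hθ : θ < 1) (hm : 0 < m) (hL : 0 ≤ L) :
    ∃ l : ℤ, 1 ≤ l ∧ K * L ≤ (1 - θ) * (m * l) ∧ m * l ≤ K * L / (1 - θ) + m := by
  have h1 : 0 < 1 - θ := by linarith
  obtain ⟨x, hx⟩ : ∃ x, x = K * L / ((1 - θ) * m) := ⟨_, rfl⟩
  have hx0 : 0 ≤ x := by rw [hx]; positivity
  have hxm : m * x = K * L / (1 - θ) := by
    rw [hx]
    field_simp
  have hKL : K * L = (1 - θ) * (m * x) := by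
    rw [hxm]
    field_simp
  rcases le_or_gt x 1 with h | h
  · refine ⟨1, le_rfl, ?_, ?_⟩
    · rw [hKL, Int.cast_one, mul_one]
      apply mul_le_mul_of_nonneg_left _ h1.le
      exact mul_le_of_le_one_right hm.le h
    · rw [Int.cast_one, mul_one, ← hxm]
      have := mul_nonneg hm.le hx0
      linarith
  · refine ⟨⌈x⌉, ?_, ?_, ?_⟩
    · rw [Int.one_le_ceil_iff]
      linarith
    · rw [hKL]
      apply mul_le_mul_of_nonneg_left _ h1.le
      exact mul_le_mul_of_nonneg_left (Int.le_ceil x) hm.le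
    · rw [← hxm]
      have := mul_le_mul_of_nonneg_left (Int.ceil_lt_add_one x).le hm.le
      linarith

end Pool.Agent.H26.UN
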